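import Mathlib

set_option autoImplicit false
set_option linter.unusedSectionVars false

open scoped BigOperators

namespace Pool.Agent.Lib.MP_d1a06a_al

/-- bounds for numbers near the square root of two -/
lemma near_sqrt_two {D : ℝ} (h : |D - Real.sqrt 2| < 1 / 100000) :
    1.41 < D ∧ D < 1.42 ∧ |1 - 2 / D ^ 2| < 1 / 20000 := by
  have h2 : Real.sqrt 2 ^ 2 = 2 := Real.sq_sqrt (by norm_num)
  have h3 : 0 ≤ Real.sqrt 2 := Real.sqrt_nonneg 2
  have h4 : 1.4142 < Real.sqrt 2 := by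
    rw [show (1.4142 : ℝ) = Real.sqrt (1.4142 ^ 2) by
      rw [Real.sqrt_sq (by norm_num)]]
    exact Real.sqrt_lt_sqrt (by norm_num) (by norm_num)
  have h5 : Real.sqrt 2 < 1.4143 := by
    rw [show (1.4143 : ℝ) = Real.sqrt (1.4143 ^ 2) by
      rw [Real.sqrt_sq (by norm_num)]]
    exact Real.sqrt_lt_sqrt (by norm_num) (by norm_num)
  obtain ⟨h6, h7⟩ := abs_lt.1 h
  have h8 : 1.41 < D := by linarith
  have h9 : D < 1.42 := by linarith
  refine ⟨h8, h9, ?_⟩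
  have hD : 0 < D ^ 2 := by positivity
  have e : 1 - 2 / D ^ 2 = (D - Real.sqrt 2) * (D + Real.sqrt 2) / D ^ 2 := by
    field_simp
    nlinarith
  rw [e, abs_div, abs_mul, abs_of_pos hD, abs_of_pos (by linarith : 0 < D + Real.sqrt 2),
    div_lt_iff₀ hD]
  have h10 : (1.98 : ℝ) < D ^ 2 := by nlinarith
  have h11 : D + Real.sqrt 2 < 2.84 := by linarith
  have h12 : |D - Real.sqrt 2| * (D + Real.sqrt 2) ≤ 1 / 100000 * 2.84 := by
    apply mul_le_mul h.le h11.le (by linarith) (by norm_num)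
  nlinarith

/-- analytic core: if `D` is close to `√2`, some conjugate is different and not too large -/
lemma exists_small_conj {G J : Type*} [Fintype G] [DecidableEq G] [Fintype J] [DecidableEq J]
    (D : ℝ) (hD : |D - Real.sqrt 2| < 1 / 100000)
    (μ : J → ℝ) (hμ : ∀ j, 0 ≤ μ j) (hsum : ∑ j, μ j = 1) (c : G → J → ℂ)
    (hc : ∀ σ j, μ j ≠ 0 → ‖c σ j‖ = 1) (Ds : G → ℝ)
    (hx : ∀ σ, ∑ j, μ j * (c σ j).re = 1 / Ds σ) (jd : J) (hjd : μ jd = 1 / D ^ 2)
    (hcjd : ∀ σ, c σ jd = 1) (e : G) (he : Ds e = D)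
    (hnorm : ∀ j, μ j ≠ 0 → c e j ≠ -1 → 1 ≤ ∏ σ, ‖1 + c σ j‖ ^ 2)
    (hneg : ∀ j, c e j = -1 → ∀ σ, c σ j = -1)
    (hstab : 2 * (Finset.univ.filter (fun σ => Ds σ = D)).card ≤ Fintype.card G) :
    ∃ σ, Ds σ ≠ D ∧ Ds σ ≤ 100 := by
  classical
  obtain ⟨hD1, hD2, hδ⟩ := near_sqrt_two hD
  obtain ⟨hδ1, hδ2⟩ := abs_lt.1 hδ
  set δ := 1 - 2 / D ^ 2 with hδdef
  by_contra hcon
  push Not at hcon
  let J' : Finset J := Finset.univ.filter (fun j => j ≠ jd ∧ μ j ≠ 0 ∧ c e j ≠ -1)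
  let m : ℝ := ∑ j ∈ J', μ j
  let A : G → ℝ := fun σ => ∑ j ∈ J', μ j * ‖1 + c σ j‖ ^ 2
  have hsq : ∀ σ j, μ j ≠ 0 → ‖1 + c σ j‖ ^ 2 = 2 + 2 * (c σ j).re := by
    intro σ j hj
    have h1 := hc σ j hj
    have h2 : ‖c σ j‖ ^ 2 = 1 := by rw [h1, one_pow]
    rw [← Complex.normSq_eq_norm_sq, Complex.normSq_apply] at h2
    rw [← Complex.normSq_eq_norm_sq, Complex.normSq_apply]
    simp only [Complex.add_re, Complex.one_re, Complex.add_im, Complex.one_im, zero_add]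
    nlinarith
  have hD0 : (0 : ℝ) < D := by linarith
  have hA : ∀ σ, A σ = 2 * (δ + 1 / Ds σ) := by
    intro σ
    have h1 : ∑ j, μ j * ‖1 + c σ j‖ ^ 2 = 2 + 2 * (1 / Ds σ) := by
      have : ∀ j, μ j * ‖1 + c σ j‖ ^ 2 = 2 * μ j + 2 * (μ j * (c σ j).re) := by
        intro j
        by_cases hj : μ j = 0
        · simp [hj]
        · rw [hsq σ j hj]; ring
      simp only [this, Finset.sum_add_distrib, ← Finset.mul_sum, hsum, hx, mul_one]
    have h2 : ∑ j, μ j * ‖1 + c σ j‖ ^ 2 = A σ + μ jd * ‖1 + c σ jd‖ ^ 2 := by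
      rw [← Finset.sum_erase_add _ _ (Finset.mem_univ jd)]
      congr 1
      symm
      apply Finset.sum_subset
      · intro j hj
        rw [Finset.mem_filter] at hj
        exact Finset.mem_erase.2 ⟨hj.2.1, Finset.mem_univ _⟩
      · intro j hj hj'
        have hj1 := (Finset.mem_erase.1 hj).1
        by_cases h0 : μ j = 0
        · rw [h0, zero_mul]
        · have h3 : c e j = -1 := by
            by_contra h
            exact hj' (Finset.mem_filter.2 ⟨Finset.mem_univ _, hj1, h0, h⟩)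
          rw [hneg j h3 σ]
          simp
    rw [hcjd, hjd] at h2
    have h4 : ‖(1 : ℂ) + 1‖ ^ 2 = 4 := by norm_num
    rw [h4, h1] at h2
    rw [hδdef]
    have h5 : A σ = 2 + 2 * (1 / Ds σ) - 1 / D ^ 2 * 4 := by linarith
    rw [h5]
    ring
  have hAe : A e ≤ 4 * m := by
    change ∑ j ∈ J', μ j * ‖1 + c e j‖ ^ 2 ≤ 4 * ∑ j ∈ J', μ j
    rw [Finset.mul_sum]
    refine Finset.sum_le_sum fun j hj => ?_
    have hj0 := (Finset.mem_filter.1 hj).2.2.1
    have h1 : ‖1 + c e j‖ ≤ 2 := by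
      calc ‖1 + c e j‖ ≤ ‖(1 : ℂ)‖ + ‖c e j‖ := norm_add_le _ _
        _ = 2 := by rw [hc e j hj0]; norm_num
    have h2 : ‖1 + c e j‖ ^ 2 ≤ 4 := by nlinarith [norm_nonneg (1 + c e j)]
    nlinarith [hμ j]
  have hinvD : 0.7 < 1 / D := by
    rw [lt_div_iff₀ hD0]; linarith
  have hm : 0 < m := by
    rw [hA e, he] at hAe
    have : (0:ℝ) < 2 * (δ + 1 / D) := by linarith
    linarith
  have hA4 : A e / m ≤ 4 := by rw [div_le_iff₀ hm]; linarith
  have hAe' : A e = 2 * (δ + 1 / D) := by rw [hA e, he]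
  have hAs : ∀ σ, Ds σ ≠ D → A σ / m ≤ 1 / 5 := by
    intro σ hσ
    rw [div_le_iff₀ hm, hA σ]
    have h1 := hcon σ hσ
    have h2 : 1 / Ds σ < 1 / 100 := one_div_lt_one_div_of_lt (by norm_num) h1
    have h3 : 2 * (δ + 1 / D) ≤ 4 * m := by rw [← hAe']; exact hAe
    nlinarith
  have hAeq : ∀ σ, Ds σ = D → A σ / m ≤ 4 := by
    intro σ hσ
    rw [hA σ, hσ, ← hAe']
    exact hA4
  have hApos : ∀ σ, 0 ≤ A σ := fun σ =>
    Finset.sum_nonneg fun j _ => mul_nonneg (hμ j) (by positivity)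
  -- weighted AM-GM
  have hw : ∑ j ∈ J', μ j / m = 1 := by
    rw [← Finset.sum_div, div_self hm.ne']
  have hamgm : ∀ σ, ∏ j ∈ J', (‖1 + c σ j‖ ^ 2) ^ (μ j / m) ≤ A σ / m := by
    intro σ
    have := Real.geom_mean_le_arith_mean_weighted J' (fun j => μ j / m)
      (fun j => ‖1 + c σ j‖ ^ 2) (fun j _ => div_nonneg (hμ j) hm.le) hw
      (fun j _ => by positivity)
    refine this.trans (le_of_eq ?_)
    rw [Finset.sum_div]
    refine Finset.sum_congr rfl fun j _ => ?_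
    ring
  have hprod : (1 : ℝ) ≤ ∏ σ, (A σ / m) := by
    calc (1 : ℝ) = ∏ j ∈ J', (1 : ℝ) := by rw [Finset.prod_const_one]
      _ ≤ ∏ j ∈ J', (∏ σ, ‖1 + c σ j‖ ^ 2) ^ (μ j / m) := by
          refine Finset.prod_le_prod (fun _ _ => zero_le_one) fun j hj => ?_
          have hj' := (Finset.mem_filter.1 hj).2
          exact Real.one_le_rpow (hnorm j hj'.2.1 hj'.2.2) (div_nonneg (hμ j) hm.le)
      _ = ∏ σ, ∏ j ∈ J', (‖1 + c σ j‖ ^ 2) ^ (μ j / m) := by
          rw [Finset.prod_comm]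
          refine Finset.prod_congr rfl fun j _ => ?_
          rw [Real.finsetProd_rpow]
          intro σ _
          positivity
      _ ≤ ∏ σ, (A σ / m) :=
          Finset.prod_le_prod (fun σ _ => Finset.prod_nonneg fun j _ => by positivity)
            fun σ _ => hamgm σ
  have hsplit : ∏ σ, (A σ / m) =
      (∏ σ ∈ Finset.univ.filter (fun σ => Ds σ = D), (A σ / m)) *
        ∏ σ ∈ Finset.univ.filter (fun σ => ¬ Ds σ = D), (A σ / m) :=
    (Finset.prod_filter_mul_prod_filter_not _ _ _).symm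
  set a := (Finset.univ.filter (fun σ => Ds σ = D)).card with ha
  set b := (Finset.univ.filter (fun σ => ¬ Ds σ = D)).card with hb
  have hab : a + b = Fintype.card G := by
    rw [ha, hb, Finset.card_filter_add_card_filter_not, Finset.card_univ]
  have ha1 : 1 ≤ a := Finset.card_pos.2 ⟨e, Finset.mem_filter.2 ⟨Finset.mem_univ _, he⟩⟩
  have hle : a ≤ b := by omega
  have h1 : ∏ σ ∈ Finset.univ.filter (fun σ => Ds σ = D), (A σ / m) ≤ 4 ^ a := by
    refine (Finset.prod_le_prod (fun σ _ => div_nonneg (hApos σ) hm.le)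
      fun σ hσ => hAeq σ (Finset.mem_filter.1 hσ).2).trans ?_
    rw [Finset.prod_const]
  have h2 : ∏ σ ∈ Finset.univ.filter (fun σ => ¬ Ds σ = D), (A σ / m) ≤ (1 / 5) ^ b := by
    refine (Finset.prod_le_prod (fun σ _ => div_nonneg (hApos σ) hm.le)
      fun σ hσ => hAs σ (Finset.mem_filter.1 hσ).2).trans ?_
    rw [Finset.prod_const]
  have h3 : (∏ σ, (A σ / m)) ≤ 4 ^ a * (1 / 5) ^ b := by
    rw [hsplit]
    exact mul_le_mul h1 h2 (Finset.prod_nonneg fun σ _ => div_nonneg (hApos σ) hm.le)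
      (by positivity)
  have h4 : (4 : ℝ) ^ a * (1 / 5) ^ b ≤ 4 ^ b * (1 / 5) ^ b := by
    refine mul_le_mul_of_nonneg_right ?_ (by positivity)
    exact pow_le_pow_right₀ (by norm_num) hle
  have h5 : (4 : ℝ) ^ b * (1 / 5) ^ b < 1 := by
    rw [← mul_pow]
    exact pow_lt_one₀ (by norm_num) (by norm_num) (by omega)
  linarith

end Pool.Agent.Lib.MP_d1a06a_al
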