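import Mathlib

set_option autoImplicit false

open CategoryTheory MonoidalCategory CategoryTheory.Limits

namespace Pool.Agent.Lib.MP_d1a06a_al

universe v u

/-- Working data for a semisimple `ℂ`-linear category with finitely many simple objects:
representatives `S i` of the simple objects and, for every object `M`, a decomposition of `M`
as a finite direct sum of objects `S (c M k)`. -/
structure SSData (C : Type u) [Category.{v} C] [Preadditive C] [Linear ℂ C] where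
  ι : Type
  [fin : Fintype ι]
  [dec : DecidableEq ι]
  S : ι → C
  ne_zero : ∀ i, (𝟙 (S i) : S i ⟶ S i) ≠ 0
  scalar : ∀ i (f : S i ⟶ S i), ∃ z : ℂ, f = z • 𝟙 (S i)
  hom_zero : ∀ i j, i ≠ j → ∀ f : S i ⟶ S j, f = 0
  n : C → ℕ
  c : ∀ M, Fin (n M) → ι
  inc : ∀ M (k : Fin (n M)), S (c M k) ⟶ M
  proj : ∀ M (k : Fin (n M)), M ⟶ S (c M k)
  inc_proj_same : ∀ M k, inc M k ≫ proj M k = 𝟙 _
  inc_proj_ne : ∀ M k l, k ≠ l → inc M k ≫ proj M l = 0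
  total : ∀ M, ∑ k, proj M k ≫ inc M k = 𝟙 M

attribute [instance] SSData.fin SSData.dec

namespace SSData

variable {C : Type u} [Category.{v} C] [Preadditive C] [Linear ℂ C] (𝒮 : SSData C)

/-- the standard morphism `S i ⟶ S j`: identity if `i = j`, zero otherwise -/
noncomputable def e (i j : 𝒮.ι) : 𝒮.S i ⟶ 𝒮.S j :=
  if h : i = j then eqToHom (congrArg 𝒮.S h) else 0

@[simp] lemma e_self (i : 𝒮.ι) : 𝒮.e i i = 𝟙 _ := by simp [e]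

lemma e_ne {i j : 𝒮.ι} (h : i ≠ j) : 𝒮.e i j = 0 := by simp [e, h]

lemma exists_sc {i j : 𝒮.ι} (f : 𝒮.S i ⟶ 𝒮.S j) : ∃ z : ℂ, f = z • 𝒮.e i j := by
  by_cases h : i = j
  · subst h
    obtain ⟨z, hz⟩ := 𝒮.scalar i f
    exact ⟨z, by rw [hz, e_self]⟩
  · exact ⟨0, by rw [𝒮.hom_zero i j h f, zero_smul]⟩

/-- the scalar of a morphism between simple objects (junk `0` between non-equal ones) -/
noncomputable def sc {i j : 𝒮.ι} (f : 𝒮.S i ⟶ 𝒮.S j) : ℂ :=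
  if i = j then (𝒮.exists_sc f).choose else 0

lemma sc_smul {i j : 𝒮.ι} (f : 𝒮.S i ⟶ 𝒮.S j) : 𝒮.sc f • 𝒮.e i j = f := by
  unfold sc
  split_ifs with h
  · exact (𝒮.exists_sc f).choose_spec.symm
  · rw [𝒮.hom_zero i j h f, zero_smul]

lemma sc_eq_iff {i : 𝒮.ι} (f : 𝒮.S i ⟶ 𝒮.S i) (z : ℂ) : 𝒮.sc f = z ↔ f = z • 𝟙 _ := by
  constructor
  · rintro rfl
    rw [← e_self, 𝒮.sc_smul]
  · intro h
    have h1 := 𝒮.sc_smul f
    rw [e_self] at h1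
    have h2 : (𝒮.sc f - z) • 𝟙 (𝒮.S i) = 0 := by rw [sub_smul, h1, h, sub_self]
    rcases smul_eq_zero.1 h2 with h3 | h3
    · exact sub_eq_zero.1 h3
    · exact absurd h3 (𝒮.ne_zero i)

lemma sc_ne {i j : 𝒮.ι} (h : i ≠ j) (f : 𝒮.S i ⟶ 𝒮.S j) : 𝒮.sc f = 0 := by simp [sc, h]

@[simp] lemma sc_id (i : 𝒮.ι) : 𝒮.sc (𝟙 (𝒮.S i)) = 1 := by
  rw [sc_eq_iff, one_smul]

@[simp] lemma sc_add {i j : 𝒮.ι} (f g : 𝒮.S i ⟶ 𝒮.S j) : 𝒮.sc (f + g) = 𝒮.sc f + 𝒮.sc g := by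
  by_cases h : i = j
  · subst h
    rw [sc_eq_iff, add_smul, ← e_self, 𝒮.sc_smul, 𝒮.sc_smul]
  · simp [𝒮.sc_ne h]

@[simp] lemma sc_smul' {i j : 𝒮.ι} (z : ℂ) (f : 𝒮.S i ⟶ 𝒮.S j) : 𝒮.sc (z • f) = z * 𝒮.sc f := by
  by_cases h : i = j
  · subst h
    rw [sc_eq_iff, mul_smul, ← e_self, 𝒮.sc_smul]
  · simp [𝒮.sc_ne h]

/-- `sc` as a linear map -/
noncomputable def scL (i j : 𝒮.ι) : (𝒮.S i ⟶ 𝒮.S j) →ₗ[ℂ] ℂ where
  toFun := 𝒮.sc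
  map_add' := 𝒮.sc_add
  map_smul' := by intro z f; simp

@[simp] lemma scL_apply {i j : 𝒮.ι} (f : 𝒮.S i ⟶ 𝒮.S j) : 𝒮.scL i j f = 𝒮.sc f := rfl

lemma sc_sum {i j : 𝒮.ι} {α : Type*} (s : Finset α) (f : α → (𝒮.S i ⟶ 𝒮.S j)) :
    𝒮.sc (∑ a ∈ s, f a) = ∑ a ∈ s, 𝒮.sc (f a) := map_sum (𝒮.scL i j) f s

@[simp] lemma sc_zero (i j : 𝒮.ι) : 𝒮.sc (0 : 𝒮.S i ⟶ 𝒮.S j) = 0 := map_zero (𝒮.scL i j)

end SSData

end Pool.Agent.Lib.MP_d1a06a_al
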