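import Pool.Agent.Lib.MP_d1a06a_al.Ldet
import Pool.Agent.Lib.MP_d1a06a_al.Tube

set_option autoImplicit false
set_option linter.unusedSectionVars false

open CategoryTheory MonoidalCategory

namespace Pool.Agent.Lib.MP_d1a06a_al

universe v u w

variable {C : Type u} [Category.{v} C] [Preadditive C] [Linear ℂ C] [MonoidalCategory C]
  [MonoidalPreadditive C] [MonoidalLinear ℂ C]

/-- a linear functor to finite-dimensional vector spaces with chosen bases of its values on the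
simple objects -/
structure BF (𝒮 : SSData C) where
  V : C → Type w
  [acg : ∀ M, AddCommGroup (V M)]
  [mod : ∀ M, Module ℂ (V M)]
  map : ∀ {M N : C}, (M ⟶ N) →ₗ[ℂ] V M →ₗ[ℂ] V N
  map_id : ∀ M, map (𝟙 M) = LinearMap.id
  map_comp : ∀ {M N P : C} (f : M ⟶ N) (g : N ⟶ P), map (f ≫ g) = map g ∘ₗ map f
  κ : 𝒮.ι → Type
  [fin : ∀ x, Fintype (κ x)]
  [dec : ∀ x, DecidableEq (κ x)]
  b : ∀ x, Module.Basis (κ x) ℂ (V (𝒮.S x))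

attribute [instance] BF.acg BF.mod BF.fin BF.dec

namespace BF

variable {𝒮 : SSData C} (G : BF.{v, u, w} 𝒮)

/-- index type of the induced basis -/
abbrev K (M : C) : Type := Σ l : Fin (𝒮.n M), G.κ (𝒮.c M l)

/-- decomposition of the values -/
noncomputable def dec_equiv (M : C) :
    ((l : Fin (𝒮.n M)) → G.V (𝒮.S (𝒮.c M l))) ≃ₗ[ℂ] G.V M :=
  LinearEquiv.ofLinearMap
    (∑ l, (G.map (𝒮.inc M l)).comp (LinearMap.proj l))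
    (LinearMap.pi fun l => G.map (𝒮.proj M l))
    (by
      refine LinearMap.ext fun v => ?_
      simp only [LinearMap.comp_apply, LinearMap.sum_apply, LinearMap.proj_apply,
        LinearMap.pi_apply, LinearMap.id_apply]
      have h : ∀ l, G.map (𝒮.inc M l) (G.map (𝒮.proj M l) v) =
          G.map (𝒮.proj M l ≫ 𝒮.inc M l) v := by
        intro l
        rw [G.map_comp]
        rfl
      simp only [h, ← LinearMap.sum_apply, ← map_sum, 𝒮.total, G.map_id, LinearMap.id_apply])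
    (by
      refine LinearMap.ext fun f => ?_
      funext m
      simp only [LinearMap.comp_apply, LinearMap.sum_apply, LinearMap.proj_apply,
        LinearMap.pi_apply, LinearMap.id_apply, map_sum]
      rw [Finset.sum_eq_single m]
      · have : G.map (𝒮.proj M m) (G.map (𝒮.inc M m) (f m)) =
            G.map (𝒮.inc M m ≫ 𝒮.proj M m) (f m) := by
          rw [G.map_comp]
          rfl
        rw [this, 𝒮.inc_proj_same, G.map_id, LinearMap.id_apply]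
      · intro l _ hl
        have : G.map (𝒮.proj M m) (G.map (𝒮.inc M l) (f l)) =
            G.map (𝒮.inc M l ≫ 𝒮.proj M m) (f l) := by
          rw [G.map_comp]
          rfl
        rw [this, 𝒮.inc_proj_ne _ _ _ hl, map_zero, LinearMap.zero_apply]
      · simp)

/-- induced bases -/
noncomputable def B (M : C) : Module.Basis (G.K M) ℂ (G.V M) :=
  (Pi.basis fun l => G.b (𝒮.c M l)).map (G.dec_equiv M)

lemma B_apply (M : C) (l : Fin (𝒮.n M)) (p : G.κ (𝒮.c M l)) :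
    G.B M ⟨l, p⟩ = G.map (𝒮.inc M l) (G.b _ p) := by
  rw [B, Module.Basis.map_apply, Pi.basis_apply]
  change (∑ l, (G.map (𝒮.inc M l)).comp (LinearMap.proj l)) _ = _
  simp only [LinearMap.sum_apply, LinearMap.comp_apply, LinearMap.proj_apply]
  rw [Finset.sum_eq_single l]
  · simp
  · intro m _ hm
    rw [Pi.single_eq_of_ne hm, map_zero]
  · simp

lemma map_comp_apply {M N P : C} (f : M ⟶ N) (g : N ⟶ P) (x : G.V M) :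
    G.map (f ≫ g) x = G.map g (G.map f x) := by
  rw [G.map_comp]
  rfl

lemma map_bij {M N : C} (f : M ≅ N) : Function.Bijective (G.map f.hom) := by
  refine Function.bijective_iff_has_inverse.2 ⟨G.map f.inv, fun x => ?_, fun x => ?_⟩
  · rw [← G.map_comp_apply, Iso.hom_inv_id, G.map_id]
    rfl
  · rw [← G.map_comp_apply, Iso.inv_hom_id, G.map_id]
    rfl

/-- `M ↦ G (M ⊗ S z)` -/
noncomputable abbrev R (z : 𝒮.ι) : BF.{v, u, w} 𝒮 where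
  V M := G.V (M ⊗ 𝒮.S z)
  map := fun {M N} =>
    { toFun := fun f => G.map (f ▷ 𝒮.S z)
      map_add' := by intros; simp
      map_smul' := by intros; simp }
  map_id M := by
    change G.map (𝟙 M ▷ 𝒮.S z) = _
    rw [id_whiskerRight, G.map_id]
  map_comp f g := by
    change G.map ((f ≫ g) ▷ 𝒮.S z) = _
    rw [comp_whiskerRight, G.map_comp]
    rfl
  κ x := G.K (𝒮.S x ⊗ 𝒮.S z)
  b x := G.B (𝒮.S x ⊗ 𝒮.S z)

/-- `M ↦ G (S z ⊗ M)` -/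
noncomputable abbrev Lf (z : 𝒮.ι) : BF.{v, u, w} 𝒮 where
  V M := G.V (𝒮.S z ⊗ M)
  map := fun {M N} =>
    { toFun := fun f => G.map (𝒮.S z ◁ f)
      map_add' := by intros; simp
      map_smul' := by intros; simp }
  map_id M := by
    change G.map (𝒮.S z ◁ 𝟙 M) = _
    rw [whiskerLeft_id, G.map_id]
  map_comp f g := by
    change G.map (𝒮.S z ◁ (f ≫ g)) = _
    rw [whiskerLeft_comp, G.map_comp]
    rfl
  κ x := G.K (𝒮.S z ⊗ 𝒮.S x)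
  b x := G.B (𝒮.S z ⊗ 𝒮.S x)

/-- `M ↦ G (M ⊗ (S y ⊗ S z))` -/
noncomputable abbrev RR (y z : 𝒮.ι) : BF.{v, u, w} 𝒮 where
  V M := G.V (M ⊗ (𝒮.S y ⊗ 𝒮.S z))
  map := fun {M N} =>
    { toFun := fun f => G.map (f ▷ (𝒮.S y ⊗ 𝒮.S z))
      map_add' := by intros; simp
      map_smul' := by intros; simp }
  map_id M := by
    change G.map (𝟙 M ▷ (𝒮.S y ⊗ 𝒮.S z)) = _
    rw [id_whiskerRight, G.map_id]
  map_comp f g := by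
    change G.map ((f ≫ g) ▷ (𝒮.S y ⊗ 𝒮.S z)) = _
    rw [comp_whiskerRight, G.map_comp]
    rfl
  κ x := (G.Lf x).K (𝒮.S y ⊗ 𝒮.S z)
  b x := (G.Lf x).B (𝒮.S y ⊗ 𝒮.S z)

/-- `N ↦ G ((S w ⊗ S x) ⊗ N)` -/
noncomputable abbrev LL (y z : 𝒮.ι) : BF.{v, u, w} 𝒮 where
  V M := G.V ((𝒮.S y ⊗ 𝒮.S z) ⊗ M)
  map := fun {M N} =>
    { toFun := fun f => G.map ((𝒮.S y ⊗ 𝒮.S z) ◁ f)
      map_add' := by intros; simp
      map_smul' := by intros; simp }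
  map_id M := by
    change G.map ((𝒮.S y ⊗ 𝒮.S z) ◁ 𝟙 M) = _
    rw [whiskerLeft_id, G.map_id]
  map_comp f g := by
    change G.map ((𝒮.S y ⊗ 𝒮.S z) ◁ (f ≫ g)) = _
    rw [whiskerLeft_comp, G.map_comp]
    rfl
  κ x := (G.R x).K (𝒮.S y ⊗ 𝒮.S z)
  b x := (G.R x).B (𝒮.S y ⊗ 𝒮.S z)

variable (L : LogQ)

/-- determinants of natural transformations are additive -/
lemma lm_nat {G' : BF.{v, u, w} 𝒮} (η : ∀ M, G.V M →ₗ[ℂ] G'.V M)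
    (hnat : ∀ {M N : C} (f : M ⟶ N) (v : G.V M), η N (G.map f v) = G'.map f (η M v))
    (hbij : ∀ M, Function.Bijective (η M)) (M : C) :
    L.lm (G.B M) (G'.B M) (η M) =
      ∑ l : Fin (𝒮.n M), L.lm (G.b (𝒮.c M l)) (G'.b (𝒮.c M l)) (η (𝒮.S (𝒮.c M l))) := by
  refine L.lm_sum (G.B M) (G'.B M) (η M) (fun l => G.b (𝒮.c M l)) (fun l => G'.b (𝒮.c M l))
    (fun l => η (𝒮.S (𝒮.c M l))) (fun l => G.map (𝒮.inc M l)) (fun l => G'.map (𝒮.inc M l))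
    (Equiv.refl _) (Equiv.refl _) ?_ ?_ ?_ ?_ (hbij M)
  · intro l p
    exact G.B_apply M l p
  · intro l p
    exact G'.B_apply M l p
  · intro l v
    exact hnat _ _
  · intro l
    exact hbij _

/-- logarithmic determinant of the associator -/
noncomputable def fa (i j k : 𝒮.ι) : ℚ :=
  L.lm ((G.R k).B (𝒮.S i ⊗ 𝒮.S j)) ((G.Lf i).B (𝒮.S j ⊗ 𝒮.S k))
    (G.map (α_ (𝒮.S i) (𝒮.S j) (𝒮.S k)).hom)

/-- the pentagon identity for logarithmic determinants -/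
lemma pent (w x y z : 𝒮.ι) :
    (G.R z).fa L w x y + ∑ l, G.fa L w (𝒮.c (𝒮.S x ⊗ 𝒮.S y) l) z + (G.Lf w).fa L x y z =
      ∑ l, G.fa L (𝒮.c (𝒮.S w ⊗ 𝒮.S x) l) y z + ∑ l, G.fa L w x (𝒮.c (𝒮.S y ⊗ 𝒮.S z) l) := by
  have h2 : ∑ l, G.fa L w (𝒮.c (𝒮.S x ⊗ 𝒮.S y) l) z =
      L.lm (((G.R z).Lf w).B (𝒮.S x ⊗ 𝒮.S y)) (((G.Lf w).R z).B (𝒮.S x ⊗ 𝒮.S y))
        (G.map (α_ (𝒮.S w) (𝒮.S x ⊗ 𝒮.S y) (𝒮.S z)).hom) := by
    symm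
    refine ((G.R z).Lf w).lm_nat L (G' := (G.Lf w).R z)
      (fun M => G.map (α_ (𝒮.S w) M (𝒮.S z)).hom) ?_ ?_ (𝒮.S x ⊗ 𝒮.S y)
    · intro M N f v
      change G.map _ (G.map ((𝒮.S w ◁ f) ▷ 𝒮.S z) v) = G.map (𝒮.S w ◁ (f ▷ 𝒮.S z)) (G.map _ v)
      rw [← G.map_comp_apply, ← G.map_comp_apply, associator_naturality_middle]
    · intro M
      exact G.map_bij _
  have h4 : ∑ l, G.fa L (𝒮.c (𝒮.S w ⊗ 𝒮.S x) l) y z =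
      L.lm (((G.R z).R y).B (𝒮.S w ⊗ 𝒮.S x)) ((G.RR y z).B (𝒮.S w ⊗ 𝒮.S x))
        (G.map (α_ (𝒮.S w ⊗ 𝒮.S x) (𝒮.S y) (𝒮.S z)).hom) := by
    symm
    refine ((G.R z).R y).lm_nat L (G' := G.RR y z)
      (fun M => G.map (α_ M (𝒮.S y) (𝒮.S z)).hom) ?_ ?_ (𝒮.S w ⊗ 𝒮.S x)
    · intro M N f v
      change G.map _ (G.map ((f ▷ 𝒮.S y) ▷ 𝒮.S z) v) = G.map (f ▷ (𝒮.S y ⊗ 𝒮.S z)) (G.map _ v)
      rw [← G.map_comp_apply, ← G.map_comp_apply, associator_naturality_left]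
    · intro M
      exact G.map_bij _
  have h5 : ∑ l, G.fa L w x (𝒮.c (𝒮.S y ⊗ 𝒮.S z) l) =
      L.lm ((G.LL w x).B (𝒮.S y ⊗ 𝒮.S z)) (((G.Lf w).Lf x).B (𝒮.S y ⊗ 𝒮.S z))
        (G.map (α_ (𝒮.S w) (𝒮.S x) (𝒮.S y ⊗ 𝒮.S z)).hom) := by
    symm
    refine (G.LL w x).lm_nat L (G' := (G.Lf w).Lf x)
      (fun M => G.map (α_ (𝒮.S w) (𝒮.S x) M).hom) ?_ ?_ (𝒮.S y ⊗ 𝒮.S z)
    · intro M N f v
      change G.map _ (G.map ((𝒮.S w ⊗ 𝒮.S x) ◁ f) v) = G.map (𝒮.S w ◁ (𝒮.S x ◁ f)) (G.map _ v)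
      rw [← G.map_comp_apply, ← G.map_comp_apply, associator_naturality_right]
    · intro M
      exact G.map_bij _
  have h6 : L.lm ((G.LL w x).B (𝒮.S y ⊗ 𝒮.S z)) (((G.Lf w).Lf x).B (𝒮.S y ⊗ 𝒮.S z))
        (G.map (α_ (𝒮.S w) (𝒮.S x) (𝒮.S y ⊗ 𝒮.S z)).hom) =
      L.lm ((G.RR y z).B (𝒮.S w ⊗ 𝒮.S x)) (((G.Lf w).Lf x).B (𝒮.S y ⊗ 𝒮.S z))
        (G.map (α_ (𝒮.S w) (𝒮.S x) (𝒮.S y ⊗ 𝒮.S z)).hom) := by
    refine L.lm_reindex (κ := (G.LL w x).K (𝒮.S y ⊗ 𝒮.S z)) _ _ (G.map_bij _) _ _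
      (m := (G.RR y z).K (𝒮.S w ⊗ 𝒮.S x))
      { toFun := fun a => ⟨a.2.1, ⟨a.1, a.2.2⟩⟩
        invFun := fun a => ⟨a.2.1, ⟨a.1, a.2.2⟩⟩
        left_inv := fun _ => rfl
        right_inv := fun _ => rfl } (Equiv.refl _) ?_ (fun _ => rfl)
    rintro ⟨l, l', p⟩
    change (G.LL w x).B (𝒮.S y ⊗ 𝒮.S z) ⟨l', ⟨l, p⟩⟩ = (G.RR y z).B (𝒮.S w ⊗ 𝒮.S x) ⟨l, ⟨l', p⟩⟩
    have e1 : (G.LL w x).B (𝒮.S y ⊗ 𝒮.S z) ⟨l', ⟨l, p⟩⟩ =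
        G.map ((𝒮.S w ⊗ 𝒮.S x) ◁ 𝒮.inc _ l') (G.map (𝒮.inc _ l ▷ 𝒮.S _) (G.B _ p)) := by
      rw [B_apply, B_apply]
      rfl
    have e2 : (G.RR y z).B (𝒮.S w ⊗ 𝒮.S x) ⟨l, ⟨l', p⟩⟩ =
        G.map (𝒮.inc _ l ▷ (𝒮.S y ⊗ 𝒮.S z)) (G.map (𝒮.S _ ◁ 𝒮.inc _ l') (G.B _ p)) := by
      rw [B_apply, B_apply]
      rfl
    rw [e1, e2, ← G.map_comp_apply, ← G.map_comp_apply, whisker_exchange]
  have b1 : Function.Bijective (G.map ((α_ (𝒮.S w) (𝒮.S x) (𝒮.S y)).hom ▷ 𝒮.S z)) :=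
    G.map_bij (whiskerRightIso (α_ (𝒮.S w) (𝒮.S x) (𝒮.S y)) (𝒮.S z))
  have b3 : Function.Bijective (G.map (𝒮.S w ◁ (α_ (𝒮.S x) (𝒮.S y) (𝒮.S z)).hom)) :=
    G.map_bij (whiskerLeftIso (𝒮.S w) (α_ (𝒮.S x) (𝒮.S y) (𝒮.S z)))
  have b2 : Function.Bijective (G.map (α_ (𝒮.S w) (𝒮.S x ⊗ 𝒮.S y) (𝒮.S z)).hom ∘ₗ
      G.map ((α_ (𝒮.S w) (𝒮.S x) (𝒮.S y)).hom ▷ 𝒮.S z)) := by
    rw [LinearMap.coe_comp]
    exact (G.map_bij (α_ (𝒮.S w) (𝒮.S x ⊗ 𝒮.S y) (𝒮.S z))).comp b1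
  rw [h2, h4, h5, h6]
  have e1 := L.lm_comp (((G.R z).R y).B (𝒮.S w ⊗ 𝒮.S x)) (((G.R z).Lf w).B (𝒮.S x ⊗ 𝒮.S y))
    (((G.Lf w).R z).B (𝒮.S x ⊗ 𝒮.S y)) b1 (G.map_bij (α_ (𝒮.S w) (𝒮.S x ⊗ 𝒮.S y) (𝒮.S z)))
  have e2 := L.lm_comp (((G.R z).R y).B (𝒮.S w ⊗ 𝒮.S x)) (((G.Lf w).R z).B (𝒮.S x ⊗ 𝒮.S y))
    (((G.Lf w).Lf x).B (𝒮.S y ⊗ 𝒮.S z)) b2 b3
  have e3 := L.lm_comp (((G.R z).R y).B (𝒮.S w ⊗ 𝒮.S x)) ((G.RR y z).B (𝒮.S w ⊗ 𝒮.S x))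
    (((G.Lf w).Lf x).B (𝒮.S y ⊗ 𝒮.S z)) (G.map_bij (α_ (𝒮.S w ⊗ 𝒮.S x) (𝒮.S y) (𝒮.S z)))
    (G.map_bij (α_ (𝒮.S w) (𝒮.S x) (𝒮.S y ⊗ 𝒮.S z)))
  have e4 : G.map (𝒮.S w ◁ (α_ (𝒮.S x) (𝒮.S y) (𝒮.S z)).hom) ∘ₗ
      (G.map (α_ (𝒮.S w) (𝒮.S x ⊗ 𝒮.S y) (𝒮.S z)).hom ∘ₗ
        G.map ((α_ (𝒮.S w) (𝒮.S x) (𝒮.S y)).hom ▷ 𝒮.S z)) =
      G.map (α_ (𝒮.S w) (𝒮.S x) (𝒮.S y ⊗ 𝒮.S z)).hom ∘ₗ
        G.map (α_ (𝒮.S w ⊗ 𝒮.S x) (𝒮.S y) (𝒮.S z)).hom := by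
    rw [← G.map_comp, ← G.map_comp, ← G.map_comp, Category.assoc, pentagon]
  rw [e4] at e2
  have e5 := e2.symm.trans e3
  rw [← e5, e1]
  rfl

end BF

end Pool.Agent.Lib.MP_d1a06a_al
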