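import Pool.Agent.Lib.MP_d1a06a_al.BFun

set_option autoImplicit false
set_option linter.unusedSectionVars false

open CategoryTheory MonoidalCategory

namespace Pool.Agent.Lib.MP_d1a06a_al

universe v u w

variable {C : Type u} [Category.{v} C] [Preadditive C] [Linear ℂ C] [MonoidalCategory C]
  [MonoidalPreadditive C] [MonoidalLinear ℂ C]

/-- morphisms between simple objects as functions on a subsingleton -/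
noncomputable def homEquiv (𝒮 : SSData C) (x z : 𝒮.ι) :
    (𝒮.S x ⟶ 𝒮.S z) ≃ₗ[ℂ] (PLift (x = z) → ℂ) :=
  LinearEquiv.ofLinearMap
    { toFun := fun f _ => 𝒮.sc f
      map_add' := by
        intro f g
        funext _
        simp
      map_smul' := by
        intro z f
        funext _
        simp }
    (∑ u, (LinearMap.toSpanSingleton ℂ (𝒮.S x ⟶ 𝒮.S z) (𝒮.e x z)).comp (LinearMap.proj u))
    (by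
      refine LinearMap.ext fun g => ?_
      funext ⟨h⟩
      subst h
      simp only [LinearMap.comp_apply, LinearMap.sum_apply, LinearMap.proj_apply,
        LinearMap.toSpanSingleton_apply, LinearMap.coe_mk, AddHom.coe_mk, LinearMap.id_apply]
      rw [Finset.sum_eq_single ⟨rfl⟩]
      · simp
      · intro b _ hb
        exact absurd (Subsingleton.elim _ _) hb
      · simp)
    (by
      refine LinearMap.ext fun f => ?_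
      simp only [LinearMap.comp_apply, LinearMap.sum_apply, LinearMap.proj_apply,
        LinearMap.toSpanSingleton_apply, LinearMap.coe_mk, AddHom.coe_mk, LinearMap.id_apply]
      by_cases h : x = z
      · rw [Finset.sum_eq_single ⟨h⟩]
        · exact 𝒮.sc_smul f
        · intro b _ hb
          exact absurd (Subsingleton.elim _ _) hb
        · simp
      · rw [𝒮.hom_zero x z h f]
        simp)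

/-- bases of morphism spaces between simple objects -/
noncomputable def homBasis (𝒮 : SSData C) (x z : 𝒮.ι) :
    Module.Basis (PLift (x = z)) ℂ (𝒮.S x ⟶ 𝒮.S z) :=
  Module.Basis.ofEquivFun (homEquiv 𝒮 x z)

lemma homBasis_apply (𝒮 : SSData C) (x z : 𝒮.ι) (h : PLift (x = z)) :
    homBasis 𝒮 x z h = 𝒮.e x z := by
  rw [homBasis, Module.Basis.coe_ofEquivFun]
  change (∑ u, (LinearMap.toSpanSingleton ℂ (𝒮.S x ⟶ 𝒮.S z) (𝒮.e x z)).comp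
    (LinearMap.proj u)) _ = _
  simp only [LinearMap.comp_apply, LinearMap.sum_apply, LinearMap.proj_apply,
        LinearMap.toSpanSingleton_apply]
  rw [Finset.sum_eq_single h]
  · simp
  · intro b _ hb
    exact absurd (Subsingleton.elim _ _) hb
  · simp

/-- the functor represented by a simple object -/
noncomputable abbrev hx (𝒮 : SSData C) (x : 𝒮.ι) : BF.{v, u, v} 𝒮 where
  V M := 𝒮.S x ⟶ M
  map := fun {M N} => (Linear.comp (𝒮.S x) M N).flip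
  map_id M := by
    refine LinearMap.ext fun f => ?_
    simp
  map_comp f g := by
    refine LinearMap.ext fun h => ?_
    simp
  κ z := PLift (x = z)
  b z := homBasis 𝒮 x z

lemma hx_map (𝒮 : SSData C) (x : 𝒮.ι) {M N : C} (f : M ⟶ N) (g : 𝒮.S x ⟶ M) :
    (hx 𝒮 x).map f g = g ≫ f := rfl

namespace BF

variable {𝒮 : SSData C} (G : BF.{v, u, w} 𝒮) (L : LogQ)

/-- dimension of the value on a simple object -/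
def g (x : 𝒮.ι) : ℕ := Fintype.card (G.κ x)

/-- index equivalence -/
def idx {T : Type} (c : T → 𝒮.ι) :
    (Σ s : (Σ x, G.κ x), Σ t : T, PLift (s.1 = c t)) ≃ Σ t, G.κ (c t) where
  toFun a := ⟨a.2.1, a.2.2.down ▸ a.1.2⟩
  invFun a := ⟨⟨c a.1, a.2⟩, ⟨a.1, ⟨rfl⟩⟩⟩
  left_inv := by
    rintro ⟨⟨x, p⟩, ⟨t, ⟨h⟩⟩⟩
    change x = c t at h
    subst h
    rfl
  right_inv := by
    rintro ⟨t, p⟩
    rfl

/-- index equivalence for iterated sums -/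
def idx2 {T : Type} {U : T → Type} (c : (t : T) → U t → 𝒮.ι) :
    (Σ s : (Σ x, G.κ x), Σ t : T, Σ r : U t, PLift (s.1 = c t r)) ≃ Σ t, Σ r : U t, G.κ (c t r) where
  toFun a := ⟨a.2.1, ⟨a.2.2.1, a.2.2.2.down ▸ a.1.2⟩⟩
  invFun a := ⟨⟨c a.1 a.2.1, a.2.2⟩, ⟨a.1, ⟨a.2.1, ⟨rfl⟩⟩⟩⟩
  left_inv := by
    rintro ⟨⟨x, p⟩, ⟨t, ⟨r, ⟨h⟩⟩⟩⟩
    change x = c t r at h
    subst h
    rfl
  right_inv := by
    rintro ⟨t, ⟨r, p⟩⟩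
    rfl

lemma map_flip_apply {M : C} {N : C} (f : N ⟶ M) (v : G.V N) : G.map.flip v f = G.map f v := rfl

lemma he1 (i j k : 𝒮.ι) (s : Σ x, G.κ x) (p : ((hx 𝒮 s.1).R k).K (𝒮.S i ⊗ 𝒮.S j)) :
    (G.R k).B (𝒮.S i ⊗ 𝒮.S j) (G.idx2 (T := Fin (𝒮.n (𝒮.S i ⊗ 𝒮.S j)))
      (U := fun l => Fin (𝒮.n (𝒮.S (𝒮.c _ l) ⊗ 𝒮.S k))) (fun _ m => 𝒮.c _ m) ⟨s, p⟩) =
    G.map (((hx 𝒮 s.1).R k).B (𝒮.S i ⊗ 𝒮.S j) p) (G.b s.1 s.2) := by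
  obtain ⟨x, q⟩ := s
  obtain ⟨l, ⟨m, ⟨h⟩⟩⟩ := p
  change x = 𝒮.c _ m at h
  subst h
  have e1 : (G.R k).B (𝒮.S i ⊗ 𝒮.S j) ⟨l, ⟨m, q⟩⟩ =
      G.map (𝒮.inc _ l ▷ 𝒮.S k) (G.map (𝒮.inc _ m) (G.b _ q)) := by
    rw [B_apply, B_apply]
    rfl
  have e2 : ((hx 𝒮 (𝒮.c (𝒮.S (𝒮.c _ l) ⊗ 𝒮.S k) m)).R k).B (𝒮.S i ⊗ 𝒮.S j) ⟨l, ⟨m, ⟨rfl⟩⟩⟩ =
      𝒮.inc _ m ≫ 𝒮.inc _ l ▷ 𝒮.S k := by
    rw [B_apply, B_apply]
    change (homBasis 𝒮 _ _ _ ≫ 𝒮.inc _ m) ≫ 𝒮.inc _ l ▷ 𝒮.S k = _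
    rw [homBasis_apply, SSData.e_self, Category.id_comp]
  change (G.R k).B (𝒮.S i ⊗ 𝒮.S j) ⟨l, ⟨m, q⟩⟩ = _
  rw [e1]
  change _ = G.map (((hx 𝒮 (𝒮.c (𝒮.S (𝒮.c _ l) ⊗ 𝒮.S k) m)).R k).B (𝒮.S i ⊗ 𝒮.S j)
    ⟨l, ⟨m, ⟨rfl⟩⟩⟩) (G.b _ q)
  rw [e2, G.map_comp_apply]

lemma he2 (i j k : 𝒮.ι) (s : Σ x, G.κ x) (p : ((hx 𝒮 s.1).Lf i).K (𝒮.S j ⊗ 𝒮.S k)) :
    (G.Lf i).B (𝒮.S j ⊗ 𝒮.S k) (G.idx2 (T := Fin (𝒮.n (𝒮.S j ⊗ 𝒮.S k)))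
      (U := fun l => Fin (𝒮.n (𝒮.S i ⊗ 𝒮.S (𝒮.c _ l)))) (fun _ m => 𝒮.c _ m) ⟨s, p⟩) =
    G.map (((hx 𝒮 s.1).Lf i).B (𝒮.S j ⊗ 𝒮.S k) p) (G.b s.1 s.2) := by
  obtain ⟨x, q⟩ := s
  obtain ⟨l, ⟨m, ⟨h⟩⟩⟩ := p
  change x = 𝒮.c _ m at h
  subst h
  have e1 : (G.Lf i).B (𝒮.S j ⊗ 𝒮.S k) ⟨l, ⟨m, q⟩⟩ =
      G.map (𝒮.S i ◁ 𝒮.inc _ l) (G.map (𝒮.inc _ m) (G.b _ q)) := by
    rw [B_apply, B_apply]
    rfl
  have e2 : ((hx 𝒮 (𝒮.c (𝒮.S i ⊗ 𝒮.S (𝒮.c _ l)) m)).Lf i).B (𝒮.S j ⊗ 𝒮.S k) ⟨l, ⟨m, ⟨rfl⟩⟩⟩ =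
      𝒮.inc _ m ≫ 𝒮.S i ◁ 𝒮.inc _ l := by
    rw [B_apply, B_apply]
    change (homBasis 𝒮 _ _ _ ≫ 𝒮.inc _ m) ≫ 𝒮.S i ◁ 𝒮.inc _ l = _
    rw [homBasis_apply, SSData.e_self, Category.id_comp]
  change (G.Lf i).B (𝒮.S j ⊗ 𝒮.S k) ⟨l, ⟨m, q⟩⟩ = _
  rw [e1]
  change _ = G.map (((hx 𝒮 (𝒮.c (𝒮.S i ⊗ 𝒮.S (𝒮.c _ l)) m)).Lf i).B (𝒮.S j ⊗ 𝒮.S k)
    ⟨l, ⟨m, ⟨rfl⟩⟩⟩) (G.b _ q)
  rw [e2, G.map_comp_apply]

/-- additivity of the logarithmic determinants of associators -/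
lemma fa_eq (i j k : 𝒮.ι) : G.fa L i j k = ∑ x, (G.g x : ℚ) * (hx 𝒮 x).fa L i j k := by
  have h : G.fa L i j k = ∑ s : (Σ x, G.κ x), (hx 𝒮 s.1).fa L i j k := by
    exact L.lm_sum (S := Σ x, G.κ x) (k := fun s => ((hx 𝒮 s.1).R k).K (𝒮.S i ⊗ 𝒮.S j))
      (k' := fun s => ((hx 𝒮 s.1).Lf i).K (𝒮.S j ⊗ 𝒮.S k))
      (Vs := fun s => (𝒮.S s.1 ⟶ (𝒮.S i ⊗ 𝒮.S j) ⊗ 𝒮.S k))
      (Ws := fun s => (𝒮.S s.1 ⟶ 𝒮.S i ⊗ (𝒮.S j ⊗ 𝒮.S k)))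
      ((G.R k).B (𝒮.S i ⊗ 𝒮.S j)) ((G.Lf i).B (𝒮.S j ⊗ 𝒮.S k))
      (G.map (α_ (𝒮.S i) (𝒮.S j) (𝒮.S k)).hom)
      (fun s => ((hx 𝒮 s.1).R k).B (𝒮.S i ⊗ 𝒮.S j)) (fun s => ((hx 𝒮 s.1).Lf i).B (𝒮.S j ⊗ 𝒮.S k))
      (fun s => (hx 𝒮 s.1).map (α_ (𝒮.S i) (𝒮.S j) (𝒮.S k)).hom)
      (fun s => G.map.flip (G.b s.1 s.2)) (fun s => G.map.flip (G.b s.1 s.2))
      (G.idx2 (T := Fin (𝒮.n (𝒮.S i ⊗ 𝒮.S j)))
        (U := fun l => Fin (𝒮.n (𝒮.S (𝒮.c _ l) ⊗ 𝒮.S k))) (fun _ m => 𝒮.c _ m))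
      (G.idx2 (T := Fin (𝒮.n (𝒮.S j ⊗ 𝒮.S k)))
        (U := fun l => Fin (𝒮.n (𝒮.S i ⊗ 𝒮.S (𝒮.c _ l)))) (fun _ m => 𝒮.c _ m))
      (fun s p => G.he1 i j k s p) (fun s p => G.he2 i j k s p)
      (fun s f => (G.map_comp_apply f (α_ (𝒮.S i) (𝒮.S j) (𝒮.S k)).hom (G.b s.1 s.2)).symm)
      (fun s => (hx 𝒮 s.1).map_bij _) (G.map_bij _)
  rw [h, Fintype.sum_sigma]
  refine Finset.sum_congr rfl fun x _ => ?_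
  simp [g]

end BF

end Pool.Agent.Lib.MP_d1a06a_al
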