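import Pool.Agent.Lib.MP_d1a06a_al.TraceFormula

set_option autoImplicit false
set_option linter.unusedSectionVars false

open Matrix

namespace Pool.Agent.Lib.MP_d1a06a_al

universe v

/-- a decomposition of an algebra as a product of matrix algebras -/
structure Blocks (A : Type v) [Ring A] [Algebra ℂ A] where
  n : ℕ
  dm : Fin n → ℕ
  pos : ∀ j, 0 < dm j
  Φ : A ≃ₐ[ℂ] ((j : Fin n) → Matrix (Fin (dm j)) (Fin (dm j)) ℂ)

lemma exists_blocks (A : Type v) [Ring A] [Algebra ℂ A] [FiniteDimensional ℂ A]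
    [IsSemisimpleRing A] : Nonempty (Blocks A) := by
  obtain ⟨n, d, hd, ⟨e⟩⟩ := IsSemisimpleRing.exists_algEquiv_pi_matrix_of_isAlgClosed ℂ A
  exact ⟨⟨n, d, fun j => Nat.pos_of_ne_zero (hd j).out, e⟩⟩

/-- traces of idempotent matrices are natural numbers -/
lemma trace_idem_nat {m : ℕ} (e : Matrix (Fin m) (Fin m) ℂ) (he : e * e = e) :
    ∃ k : ℕ, e.trace = k := by
  have h1 : IsIdempotentElem (Matrix.toLin' e) := by
    change Matrix.toLin' e ∘ₗ Matrix.toLin' e = Matrix.toLin' e
    rw [← Matrix.toLin'_mul, he]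
  have h2 := (LinearMap.IsIdempotentElem.isProj_range _ h1).trace
  rw [Matrix.trace_toLin'_eq] at h2
  exact ⟨_, h2⟩

namespace Blocks

variable {A : Type v} [Ring A] [Algebra ℂ A] (B : Blocks A)

/-- block traces -/
noncomputable def tr (j : Fin B.n) : A →ₗ[ℂ] ℂ :=
  (Matrix.traceLinearMap (Fin (B.dm j)) ℂ ℂ).comp ((LinearMap.proj j).comp B.Φ.toLinearMap)

lemma tr_apply (j : Fin B.n) (a : A) : B.tr j a = (B.Φ a j).trace := rfl

lemma tr_comm (j : Fin B.n) (a b : A) : B.tr j (a * b) = B.tr j (b * a) := by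
  rw [tr_apply, tr_apply, map_mul, map_mul, Pi.mul_apply, Pi.mul_apply, Matrix.trace_mul_comm]

/-- trace of a two-sided multiplication -/
lemma trace_mul_mul [FiniteDimensional ℂ A] (a b : A) :
    LinearMap.trace ℂ A ((LinearMap.mulLeft ℂ a).comp (LinearMap.mulRight ℂ b)) =
      ∑ j, B.tr j a * B.tr j b := by
  let α := Σ j : Fin B.n, Fin (B.dm j) × Fin (B.dm j)
  let e : α → A := fun x => B.Φ.symm (Pi.single x.1 (Matrix.single x.2.1 x.2.2 1))
  let φ : α → A →ₗ[ℂ] ℂ := fun x =>
    { toFun := fun y => B.Φ y x.1 x.2.1 x.2.2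
      map_add' := by intros; simp
      map_smul' := by intros; simp }
  have hres : ∀ y : A, ∑ x, φ x y • e x = y := by
    intro y
    apply B.Φ.injective
    rw [map_sum, Fintype.sum_sigma]
    conv_rhs => rw [← Finset.univ_sum_single (B.Φ y)]
    refine Finset.sum_congr rfl fun j _ => ?_
    conv_rhs => rw [Matrix.matrix_eq_sum_single (B.Φ y j)]
    rw [Fintype.sum_prod_type, ← LinearMap.single_apply (R := ℂ), map_sum]
    refine Finset.sum_congr rfl fun p _ => ?_
    rw [map_sum]
    refine Finset.sum_congr rfl fun q _ => ?_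
    simp only [φ, e, LinearMap.coe_mk, AddHom.coe_mk, map_smul, AlgEquiv.apply_symm_apply]
    rw [LinearMap.single_apply, ← Pi.single_smul, Matrix.smul_single, smul_eq_mul, mul_one]
  rw [trace_of_resolution e φ hres, Fintype.sum_sigma]
  refine Finset.sum_congr rfl fun j _ => ?_
  rw [Fintype.sum_prod_type, tr_apply, tr_apply, Matrix.trace, Matrix.trace, Finset.sum_mul_sum]
  refine Finset.sum_congr rfl fun p _ => Finset.sum_congr rfl fun q _ => ?_
  simp only [φ, e, LinearMap.coe_mk, AddHom.coe_mk, LinearMap.comp_apply,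
    LinearMap.mulLeft_apply, LinearMap.mulRight_apply, map_mul, AlgEquiv.apply_symm_apply,
    Pi.mul_apply, Pi.single_eq_same, Matrix.diag_apply]
  rw [Matrix.mul_apply, Finset.sum_eq_single p]
  · rw [Matrix.mul_apply, Finset.sum_eq_single q]
    · simp
    · intro r _ hr
      simp [Ne.symm hr]
    · simp
  · intro r _ hr
    rw [Matrix.mul_apply, Finset.sum_eq_zero, mul_zero]
    intro s _
    simp [Ne.symm hr]
  · simp

lemma tr_idem (j : Fin B.n) (a : A) (ha : a * a = a) : ∃ k : ℕ, B.tr j a = k := by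
  refine trace_idem_nat (B.Φ a j) ?_
  rw [← Pi.mul_apply, ← map_mul, ha]

lemma central_scalar (c : A) (hc : ∀ a, a * c = c * a) (j : Fin B.n) :
    ∃ z : ℂ, B.Φ c j = z • 1 := by
  have h : ∀ p q : Fin (B.dm j), Commute (Matrix.single p q 1) (B.Φ c j) := by
    intro p q
    have := congrArg B.Φ (hc (B.Φ.symm (Pi.single j (Matrix.single p q 1))))
    rw [map_mul, map_mul, AlgEquiv.apply_symm_apply] at this
    have h2 := congrFun this j
    rw [Commute, SemiconjBy]
    simpa using h2
  obtain ⟨z, hz⟩ := Matrix.mem_range_scalar_iff_commute_single'.2 h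
  refine ⟨z, ?_⟩
  rw [← hz, Matrix.scalar_apply, Matrix.smul_one_eq_diagonal]

/-- central character -/
noncomputable def th (c : A) (hc : ∀ a, a * c = c * a) (j : Fin B.n) : ℂ :=
  (B.central_scalar c hc j).choose

lemma th_spec (c : A) (hc : ∀ a, a * c = c * a) (j : Fin B.n) :
    B.Φ c j = B.th c hc j • 1 := (B.central_scalar c hc j).choose_spec

lemma tr_mul_central (c : A) (hc : ∀ a, a * c = c * a) (j : Fin B.n) (a : A) :
    B.tr j (a * c) = B.th c hc j * B.tr j a := by
  rw [tr_apply, tr_apply, map_mul, Pi.mul_apply, th_spec B c hc j, Matrix.mul_smul,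
    Matrix.mul_one, Matrix.trace_smul, smul_eq_mul]

lemma th_ne_zero (c : A) (hc : ∀ a, a * c = c * a) (c' : A) (h : c * c' = 1) (j : Fin B.n) :
    B.th c hc j ≠ 0 := by
  intro h0
  have h1 := congrArg (fun x => B.Φ x j) h
  simp only [map_mul, map_one, Pi.mul_apply, Pi.one_apply] at h1
  rw [th_spec B c hc j, h0, zero_smul, Matrix.zero_mul] at h1
  have h2 := congrFun (congrFun h1 ⟨0, B.pos j⟩) ⟨0, B.pos j⟩
  simp at h2

/-- spectral idempotent of a central element -/
noncomputable def ze (c : A) (hc : ∀ a, a * c = c * a) (θ : ℂ) : A :=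
  B.Φ.symm (fun j => if B.th c hc j = θ then 1 else 0)

lemma ze_apply (c : A) (hc : ∀ a, a * c = c * a) (θ : ℂ) (j : Fin B.n) :
    B.Φ (B.ze c hc θ) j = if B.th c hc j = θ then 1 else 0 := by
  rw [ze, AlgEquiv.apply_symm_apply]

lemma ze_mul (c : A) (hc : ∀ a, a * c = c * a) (θ : ℂ) : B.ze c hc θ * c = θ • B.ze c hc θ := by
  apply B.Φ.injective
  rw [map_mul, map_smul]
  funext j
  rw [Pi.mul_apply, Pi.smul_apply, ze_apply, th_spec B c hc j]
  split_ifs with h
  · rw [h, one_mul]
  · simp

lemma ze_central (c : A) (hc : ∀ a, a * c = c * a) (θ : ℂ) (a : A) :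
    a * B.ze c hc θ = B.ze c hc θ * a := by
  apply B.Φ.injective
  rw [map_mul, map_mul]
  funext j
  rw [Pi.mul_apply, Pi.mul_apply, ze_apply]
  split_ifs <;> simp

lemma mul_ze_of_eigen (c : A) (hc : ∀ a, a * c = c * a) (θ : ℂ) (a : A) (ha : a * c = θ • a) :
    a * B.ze c hc θ = a := by
  apply B.Φ.injective
  rw [map_mul]
  funext j
  rw [Pi.mul_apply, ze_apply]
  split_ifs with h
  · rw [mul_one]
  · have h1 := congrArg (fun x => B.Φ x j) ha
    simp only [map_mul, map_smul, Pi.mul_apply, Pi.smul_apply] at h1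
    rw [th_spec B c hc j, Matrix.mul_smul, Matrix.mul_one] at h1
    have h2 : (B.th c hc j - θ) • B.Φ a j = 0 := by rw [sub_smul, h1, sub_self]
    rcases smul_eq_zero.1 h2 with h3 | h3
    · exact absurd (sub_eq_zero.1 h3) h
    · rw [h3, zero_mul]

lemma tr_mul_ze (c : A) (hc : ∀ a, a * c = c * a) (θ : ℂ) (j : Fin B.n) (a : A) :
    B.tr j (a * B.ze c hc θ) = if B.th c hc j = θ then B.tr j a else 0 := by
  rw [tr_apply, tr_apply, map_mul, Pi.mul_apply, ze_apply]
  split_ifs <;> simp

/-- an algebra homomorphism to `ℂ` is a block trace -/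
lemma exists_tr_eq (χ : A →ₐ[ℂ] ℂ) : ∃ j, ∀ a, χ a = B.tr j a := by
  classical
  let E : (j : Fin B.n) → Fin (B.dm j) → Fin (B.dm j) → A := fun j p q =>
    B.Φ.symm (Pi.single j (Matrix.single p q 1))
  have hE : ∀ j p q r s, E j p q * E j r s = if q = r then E j p s else 0 := by
    intro j p q r s
    apply B.Φ.injective
    simp only [E]
    rw [map_mul, AlgEquiv.apply_symm_apply, AlgEquiv.apply_symm_apply, ← Pi.single_mul]
    split_ifs with h
    · subst h
      rw [AlgEquiv.apply_symm_apply]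
      simp
    · rw [map_zero, Matrix.single_mul_single_of_ne _ _ _ _ h]
      simp
  have hexp : ∀ a, a = ∑ j, ∑ p, ∑ q, (B.Φ a j p q) • E j p q := by
    intro a
    apply B.Φ.injective
    rw [map_sum]
    conv_lhs => rw [← Finset.univ_sum_single (B.Φ a)]
    refine Finset.sum_congr rfl fun j _ => ?_
    conv_lhs => rw [Matrix.matrix_eq_sum_single (B.Φ a j)]
    rw [← LinearMap.single_apply (R := ℂ), map_sum, map_sum]
    refine Finset.sum_congr rfl fun p _ => ?_
    rw [map_sum, map_sum]
    refine Finset.sum_congr rfl fun q _ => ?_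
    simp only [E, map_smul, AlgEquiv.apply_symm_apply]
    rw [LinearMap.single_apply, ← Pi.single_smul, Matrix.smul_single, smul_eq_mul, mul_one]
  have h0 : ∀ j p q, p ≠ q → χ (E j p q) = 0 := by
    intro j p q h
    have h1 := congrArg χ (hE j p q p q)
    rw [if_neg (Ne.symm h), map_zero, map_mul] at h1
    simpa using h1
  have hdiag : ∀ j p q, χ (E j p p) = χ (E j q q) := by
    intro j p q
    have h1 := congrArg χ (hE j p q q p)
    have h2 := congrArg χ (hE j q p p q)
    rw [if_pos rfl, map_mul] at h1 h2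
    rw [← h1, ← h2, mul_comm]
  have hidem : ∀ j p, χ (E j p p) = 0 ∨ χ (E j p p) = 1 := by
    intro j p
    have h1 := congrArg χ (hE j p p p p)
    rw [if_pos rfl, map_mul] at h1
    have : χ (E j p p) * (χ (E j p p) - 1) = 0 := by rw [mul_sub, h1]; ring
    rcases mul_eq_zero.1 this with h | h
    · exact Or.inl h
    · exact Or.inr (sub_eq_zero.1 h)
  -- orthogonality between blocks
  have horth : ∀ j k p q, j ≠ k → χ (E j p p) * χ (E k q q) = 0 := by
    intro j k p q h
    rw [← map_mul]
    have : E j p p * E k q q = 0 := by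
      apply B.Φ.injective
      simp only [E]
      rw [map_mul, AlgEquiv.apply_symm_apply, AlgEquiv.apply_symm_apply, map_zero]
      funext i
      rw [Pi.mul_apply]
      by_cases hi : i = j
      · subst hi
        rw [Pi.single_eq_of_ne h]
        simp
      · rw [Pi.single_eq_of_ne hi]
        simp
    rw [this, map_zero]
  have hone : ∃ j p, χ (E j p p) = 1 := by
    by_contra hcon
    push Not at hcon
    have h1 : ∀ j p q, χ (E j p q) = 0 := by
      intro j p q
      by_cases h : p = q
      · subst h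
        exact (hidem j p).resolve_right (hcon j p)
      · exact h0 j p q h
    have h2 := congrArg χ (hexp 1)
    rw [map_one] at h2
    simp [h1] at h2
  obtain ⟨j, p, hjp⟩ := hone
  refine ⟨j, fun a => ?_⟩
  conv_lhs => rw [hexp a]
  rw [map_sum, Finset.sum_eq_single j]
  · rw [tr_apply, Matrix.trace, map_sum]
    refine Finset.sum_congr rfl fun r _ => ?_
    rw [map_sum, Finset.sum_eq_single r]
    · rw [map_smul, hdiag j r p, hjp, smul_eq_mul, mul_one, Matrix.diag_apply]
    · intro s _ hs
      rw [map_smul, h0 j r s (Ne.symm hs), smul_zero]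
    · simp
  · intro k _ hk
    rw [map_sum]
    refine Finset.sum_eq_zero fun r _ => ?_
    rw [map_sum]
    refine Finset.sum_eq_zero fun s _ => ?_
    rw [map_smul]
    by_cases hrs : r = s
    · subst hrs
      have := horth k j r p hk
      rw [hjp, mul_one] at this
      rw [this, smul_zero]
    · rw [h0 k r s hrs, smul_zero]
  · simp

end Blocks

end Pool.Agent.Lib.MP_d1a06a_al
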