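import Pool.Agent.Lib.MP_d1a06a_al.Galois

set_option autoImplicit false
set_option linter.unusedSectionVars false

open scoped BigOperators ComplexConjugate
open Polynomial IntermediateField

namespace Pool.Agent.Lib.MP_d1a06a_al

namespace NumData

namespace Fld

variable {𝒩 : NumData} (K : 𝒩.Fld)

/-- the Galois group -/
abbrev Gp : Type := K.L ≃ₐ[ℚ] K.L

noncomputable instance : Fintype K.Gp := Fintype.ofFinite _

/-- real dimension of a block -/
noncomputable def r (j : 𝒩.J) : ℝ := (K.wL j : ℂ).re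

/-- conjugates of the global dimension -/
noncomputable def Ds (σ : K.Gp) : ℝ := ((σ.symm K.DL : K.L) : ℂ).re

/-- conjugates of the twists -/
noncomputable def cc (σ : K.Gp) (j : 𝒩.J) : ℂ := ((σ (K.θL j) : K.L) : ℂ)

lemma r_spec (j : 𝒩.J) : (K.r j : ℂ) = (K.wL j : ℂ) := by
  apply Complex.conj_eq_iff_re.1
  rw [K.coe_wL]
  exact w_real 𝒩.d_real j

lemma Ds_spec (σ : K.Gp) : (K.Ds σ : ℂ) = ((σ.symm K.DL : K.L) : ℂ) ∧ 1 ≤ K.Ds σ := by
  obtain ⟨x, hx1, hx2⟩ := sq_real (K.ch_char σ) (K.ch_real σ)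
  rw [K.sq_ch] at hx2
  have : K.Ds σ = x := by rw [Ds, hx2, Complex.ofReal_re]
  rw [this]
  exact ⟨hx2.symm, hx1⟩

variable {D : ℝ} (hD : 𝒩.dim = (D : ℂ))

include hD in
lemma coe_DL' : (K.DL : ℂ) = D := by rw [K.coe_DL, hD]

include hD in
lemma Ds_one : K.Ds 1 = D := by
  have : ((1 : K.Gp).symm K.DL : K.L) = K.DL := rfl
  rw [Ds, this, K.coe_DL' hD, Complex.ofReal_re]

include K hD in
lemma one_le_D : 1 ≤ D := by
  rw [← K.Ds_one hD]
  exact (K.Ds_spec 1).2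

/-- the spectral measure -/
noncomputable def mu (D : ℝ) (j : 𝒩.J) : ℝ := K.r j ^ 2 / D ^ 2

lemma mu_nonneg (j : 𝒩.J) : 0 ≤ K.mu D j := by
  unfold mu
  positivity

include hD in
lemma sum_mu : ∑ j, K.mu D j = 1 := by
  have h1 := 𝒩.sum_w_sq
  have h2 : ((∑ j, K.r j ^ 2 : ℝ) : ℂ) = ((D ^ 2 : ℝ) : ℂ) := by
    push_cast
    rw [pow_two (D : ℂ), ← hD, ← h1]
    refine Finset.sum_congr rfl fun j _ => ?_
    rw [K.r_spec, K.coe_wL, pow_two]
  have h3 := Complex.ofReal_injective h2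
  have hD1 := K.one_le_D hD
  unfold mu
  rw [← Finset.sum_div, h3, div_self (by positivity)]

include hD in
lemma sum_mu_cc (σ : K.Gp) : ∑ j, K.mu D j * (K.cc σ j).re = 1 / K.Ds σ := by
  have h1 := congrArg (algebraMap K.L ℂ) (K.main_eq σ)
  rw [map_mul, map_mul, map_sum] at h1
  change ((σ.symm K.DL : K.L) : ℂ) * (∑ j, algebraMap K.L ℂ (σ (K.θL j) * (K.wL j * K.wL j))) =
    (K.DL : ℂ) * (K.DL : ℂ) at h1
  have h2 : ∀ j, algebraMap K.L ℂ (σ (K.θL j) * (K.wL j * K.wL j)) =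
      ((K.r j ^ 2 : ℝ) : ℂ) * K.cc σ j := by
    intro j
    rw [map_mul, map_mul]
    change K.cc σ j * ((K.wL j : ℂ) * (K.wL j : ℂ)) = _
    rw [← K.r_spec]
    push_cast
    ring
  simp only [h2] at h1
  rw [K.coe_DL' hD, ← (K.Ds_spec σ).1] at h1
  have h3 := congrArg Complex.re h1
  rw [← Complex.ofReal_mul, Complex.ofReal_re, Complex.re_ofReal_mul, Complex.re_sum] at h3
  simp only [Complex.re_ofReal_mul] at h3
  have hD1 := K.one_le_D hD
  have hs := (K.Ds_spec σ).2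
  rw [eq_div_iff (by positivity), mul_comm]
  have h4 : ∑ j, K.mu D j * (K.cc σ j).re = (∑ j, K.r j ^ 2 * (K.cc σ j).re) / D ^ 2 := by
    rw [Finset.sum_div]
    refine Finset.sum_congr rfl fun j _ => ?_
    unfold mu
    ring
  rw [h4, mul_div_assoc', h3, ← pow_two, div_self (by positivity)]

lemma r_jj (σ : K.Gp) : K.Ds σ * K.r (𝒩.jj (K.ch σ)) = K.Ds 1 := by
  have h1 := congrArg (algebraMap K.L ℂ) (K.jj_eq σ)
  rw [map_mul] at h1
  change ((σ.symm K.DL : K.L) : ℂ) * (K.wL _ : ℂ) = (K.DL : ℂ) at h1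
  rw [← (K.Ds_spec σ).1, ← K.r_spec] at h1
  have h2 : (K.DL : ℂ) = K.Ds 1 := (K.Ds_spec 1).1.symm
  rw [h2] at h1
  exact_mod_cast h1

include hD in
lemma mu_jj (σ : K.Gp) : K.mu D (𝒩.jj (K.ch σ)) = 1 / (K.Ds σ) ^ 2 := by
  have h1 := K.r_jj σ
  rw [K.Ds_one hD] at h1
  have hs := (K.Ds_spec σ).2
  have hD1 := K.one_le_D hD
  unfold mu
  rw [div_eq_div_iff (by positivity) (by positivity), one_mul, ← h1]
  ring

lemma cc_of_theta_one (σ : K.Gp) {j : 𝒩.J} (hj : 𝒩.w 𝒩.d j ≠ 0) (h : 𝒩.θ j = 1) :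
    K.cc σ j = 1 := by
  have h1 : K.θL j = 1 := by
    apply Subtype.ext
    rw [K.hθ j hj, h]
    rfl
  rw [cc, h1, map_one]
  rfl

lemma w_jj_ne (σ : K.Gp) : 𝒩.w 𝒩.d (𝒩.jj (K.ch σ)) ≠ 0 := by
  intro h
  have h1 := K.r_jj σ
  have h2 : (K.r (𝒩.jj (K.ch σ)) : ℂ) = 0 := by rw [K.r_spec, K.coe_wL, h]
  have h3 : K.r (𝒩.jj (K.ch σ)) = 0 := by exact_mod_cast h2
  rw [h3, mul_zero] at h1
  have := (K.Ds_spec 1).2
  linarith

lemma cc_jj (σ τ : K.Gp) : K.cc τ (𝒩.jj (K.ch σ)) = 1 :=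
  K.cc_of_theta_one τ (K.w_jj_ne σ) (𝒩.θ_jj _ (K.ch_char σ) (K.ch_real σ))

lemma ch_one : K.ch 1 = 𝒩.d := by
  funext i
  exact K.hd i

lemma w_ne_of_mu {j : 𝒩.J} (h : K.mu D j ≠ 0) : 𝒩.w 𝒩.d j ≠ 0 := by
  intro h0
  apply h
  have h2 : (K.r j : ℂ) = 0 := by rw [K.r_spec, K.coe_wL, h0]
  have h3 : K.r j = 0 := by exact_mod_cast h2
  unfold mu
  rw [h3]
  simp

lemma cc_root (σ : K.Gp) {j : 𝒩.J} (h : 𝒩.w 𝒩.d j ≠ 0) : ‖K.cc σ j‖ = 1 := by
  obtain ⟨m, hm, hm'⟩ := 𝒩.root j h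
  have h1 : (K.θL j) ^ m = 1 := by
    apply Subtype.ext
    change ((K.θL j : K.L) : ℂ) ^ m = 1
    rw [K.hθ j h, hm']
  have h2 : K.cc σ j ^ m = 1 := by
    have := congrArg (fun x => ((σ x : K.L) : ℂ)) h1
    simp only [map_pow, map_one] at this
    exact this
  exact Complex.norm_eq_one_of_pow_eq_one h2 hm.ne'

lemma theta_integral {j : 𝒩.J} (h : 𝒩.w 𝒩.d j ≠ 0) : IsIntegral ℤ (K.θL j) := by
  obtain ⟨m, hm, hm'⟩ := 𝒩.root j h
  have h1 : (K.θL j) ^ m = 1 := by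
    apply Subtype.ext
    change ((K.θL j : K.L) : ℂ) ^ m = 1
    rw [K.hθ j h, hm']
  exact IsIntegral.of_pow hm (by rw [h1]; exact isIntegral_one)

lemma norm_ge {y : K.L} (hy : IsIntegral ℤ y) (h0 : y ≠ 0) :
    1 ≤ ∏ σ : K.Gp, ‖((σ y : K.L) : ℂ)‖ := by
  have h1 : IsIntegral ℤ (Algebra.norm ℚ y) := Algebra.isIntegral_norm ℚ hy
  obtain ⟨n, hn⟩ := IsIntegrallyClosed.isIntegral_iff.1 h1
  have h2 : Algebra.norm ℚ y ≠ 0 := Algebra.norm_ne_zero_iff.2 h0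
  have h3 : n ≠ 0 := by
    rintro rfl
    rw [map_zero] at hn
    exact h2 hn.symm
  have h4 := congrArg (algebraMap K.L ℂ) (Algebra.norm_eq_prod_automorphisms ℚ y)
  rw [← hn, map_prod] at h4
  have h5 : ‖algebraMap K.L ℂ (algebraMap ℚ K.L (algebraMap ℤ ℚ n))‖ =
      ∏ σ : K.Gp, ‖((σ y : K.L) : ℂ)‖ := by
    rw [h4, norm_prod]
    refine Finset.prod_congr ?_ fun _ _ => rfl
    ext; simp
  rw [← h5]
  have h6 : algebraMap K.L ℂ (algebraMap ℚ K.L (algebraMap ℤ ℚ n)) = (n : ℂ) := by simp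
  rw [h6, Complex.norm_intCast]
  exact_mod_cast Int.one_le_abs h3

lemma Ds_eq_iff (σ τ : K.Gp) : K.Ds σ = K.Ds τ ↔ σ.symm K.DL = τ.symm K.DL := by
  constructor
  · intro h
    apply Subtype.ext
    rw [← (K.Ds_spec σ).1, ← (K.Ds_spec τ).1, h]
  · intro h
    rw [Ds, Ds, h]

include hD in
/-- the global dimension is not fixed by the whole Galois group -/
lemma exists_ne (hnear : |D - Real.sqrt 2| < 1 / 100000) : ∃ σ : K.Gp, K.Ds σ ≠ D := by
  by_contra hcon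
  push Not at hcon
  have h1 : K.DL ∈ Set.range (algebraMap ℚ K.L) := by
    rw [IsGalois.mem_range_algebraMap_iff_fixed]
    intro f
    have h2 := (K.Ds_eq_iff f.symm 1).1 (by rw [hcon, hcon])
    exact h2
  obtain ⟨q, hq⟩ := h1
  have h2 : IsIntegral ℤ K.DL := by
    have h3 : IsIntegral ℤ ((K.DL : K.L) : ℂ) := by
      rw [K.coe_DL]
      exact IsIntegral.sum _ fun i _ => (𝒩.d_char.isIntegral i).mul (𝒩.d_char.isIntegral i)
    exact (isIntegral_algebraMap_iff (algebraMap K.L ℂ).injective).1 h3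
  rw [← hq, isIntegral_algebraMap_iff (algebraMap ℚ K.L).injective] at h2
  obtain ⟨n, hn⟩ := IsIntegrallyClosed.isIntegral_iff.1 h2
  have h3 : D = n := by
    have h4 := K.coe_DL' hD
    rw [← hq, ← hn] at h4
    have h5 : ((algebraMap ℚ K.L (algebraMap ℤ ℚ n) : K.L) : ℂ) = (n : ℂ) := by simp
    rw [h5] at h4
    exact_mod_cast h4.symm
  obtain ⟨h6, h7, -⟩ := near_sqrt_two hnear
  rw [h3] at h6 h7
  have h8 : (1 : ℝ) < n := by linarith
  have h9 : (n : ℝ) < 2 := by linarith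
  have h10 : (1 : ℤ) < n := by exact_mod_cast h8
  have h11 : n < (2 : ℤ) := by exact_mod_cast h9
  omega

include hD in
lemma stab_card (hnear : |D - Real.sqrt 2| < 1 / 100000) :
    2 * (Finset.univ.filter (fun σ : K.Gp => K.Ds σ = D)).card ≤ Fintype.card K.Gp := by
  classical
  let H : Subgroup K.Gp := MulAction.stabilizer K.Gp K.DL
  have h1 : ∀ σ : K.Gp, K.Ds σ = D ↔ σ ∈ H := by
    intro σ
    rw [← K.Ds_one hD, K.Ds_eq_iff]
    constructor
    · intro h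
      rw [MulAction.mem_stabilizer_iff]
      have h2 : σ.symm K.DL = K.DL := h
      change σ K.DL = K.DL
      conv_lhs => rw [← h2]
      exact σ.apply_symm_apply _
    · intro h
      rw [MulAction.mem_stabilizer_iff] at h
      have h2 : σ K.DL = K.DL := h
      change σ.symm K.DL = K.DL
      conv_lhs => rw [← h2]
      exact σ.symm_apply_apply _
  have h2 : H ≠ ⊤ := by
    intro h
    obtain ⟨σ, hσ⟩ := K.exists_ne hD hnear
    exact hσ ((h1 σ).2 (h ▸ Subgroup.mem_top σ))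
  have h3 : (Finset.univ.filter (fun σ : K.Gp => K.Ds σ = D)).card = Nat.card H := by
    rw [Nat.card_eq_fintype_card, Fintype.card_subtype]
    congr 1
    ext σ
    simp [h1]
  have h4 := H.card_mul_index
  have h5 : 1 < H.index := Subgroup.one_lt_index_of_ne_top h2
  rw [h3, ← Nat.card_eq_fintype_card, ← h4]
  nlinarith [Nat.zero_le (Nat.card H)]

include hD in
lemma exists_small (hnear : |D - Real.sqrt 2| < 1 / 100000) :
    ∃ σ : K.Gp, K.Ds σ ≠ D ∧ K.Ds σ ≤ 100 := by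
  classical
  refine exists_small_conj D hnear (K.mu D) K.mu_nonneg (K.sum_mu hD) K.cc
    (fun σ j hj => K.cc_root σ (K.w_ne_of_mu hj)) K.Ds (K.sum_mu_cc hD) (𝒩.jj (K.ch 1))
    (by rw [K.mu_jj hD 1, K.Ds_one hD]) (fun σ => K.cc_jj 1 σ) 1 (K.Ds_one hD) ?_ ?_
    (K.stab_card hD hnear)
  · intro j hj hcj
    have hw := K.w_ne_of_mu hj
    have h1 : IsIntegral ℤ (1 + K.θL j) := isIntegral_one.add (K.theta_integral hw)
    have h2 : 1 + K.θL j ≠ 0 := by
      intro h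
      apply hcj
      have h3 : K.θL j = -1 := (neg_eq_of_add_eq_zero_right h).symm
      change ((K.θL j : K.L) : ℂ) = -1
      rw [h3]
      rfl
    have h3 := K.norm_ge h1 h2
    have h4 : ∀ σ : K.Gp, ‖((σ (1 + K.θL j) : K.L) : ℂ)‖ = ‖1 + K.cc σ j‖ := by
      intro σ
      rw [map_add, map_one]
      rfl
    simp only [h4] at h3
    rw [Finset.prod_pow]
    exact one_le_pow₀ h3
  · intro j hj σ
    have h1 : K.θL j = -1 := by
      apply Subtype.ext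
      exact hj
    rw [cc, h1, map_neg, map_one]
    rfl

/-- lower bound for the mass at the trivial twist -/
lemma mass_ineq (hD : 𝒩.dim = (D : ℂ)) (σ : K.Gp) :
    2 * ∑ t ∈ Finset.univ.image K.Ds, 1 / t ^ 2 ≤ 1 + 1 / K.Ds σ := by
  classical
  have hex : ∀ t ∈ Finset.univ.image K.Ds, ∃ τ : K.Gp, K.Ds τ = t := by
    intro t ht
    obtain ⟨τ, -, hτ⟩ := Finset.mem_image.1 ht
    exact ⟨τ, hτ⟩
  choose! g hg using hex
  let js : ℝ → 𝒩.J := fun t => 𝒩.jj (K.ch (g t))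
  have hinj : Set.InjOn js (Finset.univ.image K.Ds : Finset ℝ) := by
    intro t ht t' ht' h
    have h1 := 𝒩.jj_inj _ _ (K.ch_char (g t)) (K.ch_char (g t')) (K.ch_real _) (K.ch_real _) h
    have h2 : K.Ds (g t) = K.Ds (g t') := by
      rw [K.Ds_eq_iff]
      apply Subtype.ext
      rw [← K.sq_ch, ← K.sq_ch, h1]
    rw [hg t ht, hg t' ht'] at h2
    exact h2
  let J0 : Finset 𝒩.J := (Finset.univ.image K.Ds).image js
  have h1 : ∑ t ∈ Finset.univ.image K.Ds, 1 / t ^ 2 = ∑ j ∈ J0, K.mu D j := by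
    rw [Finset.sum_image hinj]
    refine Finset.sum_congr rfl fun t ht => ?_
    change 1 / t ^ 2 = K.mu D (𝒩.jj (K.ch (g t)))
    rw [K.mu_jj hD, hg t ht]
  have h2 : ∀ j ∈ J0, K.cc σ j = 1 := by
    intro j hj
    obtain ⟨t, -, rfl⟩ := Finset.mem_image.1 hj
    exact K.cc_jj _ _
  have h3 : ∀ j, -(K.mu D j) ≤ K.mu D j * (K.cc σ j).re := by
    intro j
    by_cases hj : K.mu D j = 0
    · rw [hj]; simp
    · have h4 := K.cc_root σ (K.w_ne_of_mu hj)
      have h5 : -1 ≤ (K.cc σ j).re := by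
        have := (abs_le.1 (Complex.abs_re_le_norm (K.cc σ j))).1
        rwa [h4] at this
      nlinarith [K.mu_nonneg (D := D) j]
  have h4 := K.sum_mu_cc hD σ
  have h5 := K.sum_mu hD
  have h6 : ∑ j, K.mu D j * (K.cc σ j).re =
      ∑ j ∈ J0, K.mu D j * (K.cc σ j).re + ∑ j ∈ J0ᶜ, K.mu D j * (K.cc σ j).re :=
    (Finset.sum_add_sum_compl J0 _).symm
  have h7 : ∑ j, K.mu D j = ∑ j ∈ J0, K.mu D j + ∑ j ∈ J0ᶜ, K.mu D j :=
    (Finset.sum_add_sum_compl J0 _).symm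
  have h8 : ∑ j ∈ J0, K.mu D j * (K.cc σ j).re = ∑ j ∈ J0, K.mu D j := by
    refine Finset.sum_congr rfl fun j hj => ?_
    rw [h2 j hj, Complex.one_re, mul_one]
  have h9 : -(∑ j ∈ J0ᶜ, K.mu D j) ≤ ∑ j ∈ J0ᶜ, K.mu D j * (K.cc σ j).re := by
    rw [← Finset.sum_neg_distrib]
    exact Finset.sum_le_sum fun j _ => h3 j
  rw [h1]
  linarith

include hD in
/-- all conjugates are bounded and there are boundedly many of them -/
lemma bounds (hnear : |D - Real.sqrt 2| < 1 / 100000) :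
    (∀ σ : K.Gp, K.Ds σ ≤ 10000) ∧ (Finset.univ.image K.Ds).card ≤ 100000000 := by
  classical
  obtain ⟨σ1, h1, h2⟩ := K.exists_small hD hnear
  obtain ⟨h3, h4, h5⟩ := near_sqrt_two hnear
  obtain ⟨h6, h7⟩ := abs_lt.1 h5
  have hbd : ∀ σ : K.Gp, K.Ds σ ≤ 10000 := by
    intro σ
    have h8 := K.mass_ineq hD σ
    have h9 : ({D, K.Ds σ1} : Finset ℝ) ⊆ Finset.univ.image K.Ds := by
      intro t ht
      rcases Finset.mem_insert.1 ht with h | h
      · rw [h, ← K.Ds_one hD]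
        exact Finset.mem_image_of_mem _ (Finset.mem_univ _)
      · rw [Finset.mem_singleton.1 h]
        exact Finset.mem_image_of_mem _ (Finset.mem_univ _)
    have h10 : ∑ t ∈ ({D, K.Ds σ1} : Finset ℝ), 1 / t ^ 2 ≤
        ∑ t ∈ Finset.univ.image K.Ds, 1 / t ^ 2 :=
      Finset.sum_le_sum_of_subset_of_nonneg h9 fun t _ _ => by positivity
    rw [Finset.sum_pair (Ne.symm h1)] at h10
    have h11 := (K.Ds_spec σ1).2
    have h12 : 1 / 10000 ≤ 1 / (K.Ds σ1) ^ 2 := by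
      apply one_div_le_one_div_of_le (by positivity)
      nlinarith
    have h13 := (K.Ds_spec σ).2
    have h14 : 2 / D ^ 2 = 2 * (1 / D ^ 2) := by ring
    have h15 : 1 / 10000 ≤ 1 / K.Ds σ := by linarith
    have h16 : (0 : ℝ) < K.Ds σ := by linarith
    rw [div_le_div_iff₀ (by norm_num) h16] at h15
    linarith
  refine ⟨hbd, ?_⟩
  have h8 := K.mass_ineq hD 1
  rw [K.Ds_one hD] at h8
  have h9 : ∀ t ∈ Finset.univ.image K.Ds, (1 : ℝ) / 100000000 ≤ 1 / t ^ 2 := by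
    intro t ht
    obtain ⟨τ, -, rfl⟩ := Finset.mem_image.1 ht
    have h10 := (K.Ds_spec τ).2
    have h11 := hbd τ
    apply one_div_le_one_div_of_le (by positivity)
    nlinarith
  have h10 := Finset.sum_le_sum h9
  rw [Finset.sum_const, nsmul_eq_mul] at h10
  have h11 : 1 / D ≤ 1 := by
    rw [div_le_one (by linarith)]
    linarith
  have h12 : ((Finset.univ.image K.Ds).card : ℝ) ≤ 100000000 := by
    linarith
  exact_mod_cast h12

end Fld

end NumData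

end Pool.Agent.Lib.MP_d1a06a_al
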