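import Pool.Agent.Lib.MP_d1a06a_al.Dual

set_option autoImplicit false
set_option linter.unusedSectionVars false

open CategoryTheory MonoidalCategory CategoryTheory.Limits ExactPairing

namespace Pool.Agent.Lib.MP_d1a06a_al

open PivotalStructure

universe v u

namespace PivotalStructure

variable {C : Type u} [Category.{v} C] [MonoidalCategory C] [RightRigidCategory C]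
  (P : PivotalStructure C)

/-- rotation of `i : W' ⟶ V ⊗ W` to `W* ⟶ W'* ⊗ V` -/
def r {V W W' : C} (i : W' ⟶ V ⊗ W) : D W ⟶ D W' ⊗ V :=
  𝟙 _ ⊗≫ P.co' W' ▷ D W ⊗≫ D W' ◁ (i ▷ D W) ⊗≫ (D W' ⊗ V) ◁ P.ev' W ⊗≫ 𝟙 _

/-- half rotation of `p : V ⊗ W ⟶ W'` -/
def s {V W W' : C} (p : V ⊗ W ⟶ W') : V ⟶ W' ⊗ D W :=
  𝟙 _ ⊗≫ V ◁ co W ⊗≫ p ▷ D W

/-- rotation of `p : V ⊗ W ⟶ W'` to `W'* ⊗ V ⟶ W*` -/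
def q {V W W' : C} (p : V ⊗ W ⟶ W') : D W' ⊗ V ⟶ D W :=
  D W' ◁ s p ⊗≫ ev W' ▷ D W ⊗≫ 𝟙 _

lemma co'_r {V W W' : C} (i : W' ⟶ V ⊗ W) :
    P.co' W ≫ P.r i ▷ W = P.co' W' ≫ D W' ◁ i ≫ (α_ _ _ _).inv := by
  unfold r
  calc
    _ = 𝟙 _ ⊗≫ (𝟙_ C ◁ P.co' W ≫ P.co' W' ▷ (D W ⊗ W)) ⊗≫ (D W' ◁ (i ▷ D W)) ▷ W ⊗≫
          (D W' ⊗ V) ◁ (P.ev' W ▷ W) ⊗≫ 𝟙 _ := by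
      monoidal
    _ = 𝟙 _ ⊗≫ P.co' W' ⊗≫ D W' ◁ (W' ◁ P.co' W ≫ i ▷ (D W ⊗ W)) ⊗≫
          (D W' ⊗ V) ◁ (P.ev' W ▷ W) ⊗≫ 𝟙 _ := by
      rw [whisker_exchange]; monoidal
    _ = 𝟙 _ ⊗≫ P.co' W' ⊗≫ D W' ◁ i ⊗≫
          (D W' ⊗ V) ◁ (W ◁ P.co' W ⊗≫ P.ev' W ▷ W) ⊗≫ 𝟙 _ := by
      rw [whisker_exchange]; monoidal
    _ = _ := by
      rw [zig']; monoidal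

lemma q_ev {V W W' : C} (p : V ⊗ W ⟶ W') :
    q p ▷ W ≫ ev W = (α_ _ _ _).hom ≫ D W' ◁ p ≫ ev W' := by
  unfold q s
  calc
    _ = 𝟙 _ ⊗≫ D W' ◁ (V ◁ (co W ▷ W)) ⊗≫ D W' ◁ p ▷ D W ▷ W ⊗≫
          (ev W' ▷ (D W ⊗ W) ≫ 𝟙_ C ◁ ev W) ⊗≫ 𝟙 _ := by
      monoidal
    _ = 𝟙 _ ⊗≫ D W' ◁ (V ◁ (co W ▷ W)) ⊗≫ D W' ◁ (p ▷ (D W ⊗ W) ≫ W' ◁ ev W) ⊗≫
          ev W' ⊗≫ 𝟙 _ := by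
      rw [← whisker_exchange]; monoidal
    _ = 𝟙 _ ⊗≫ D W' ◁ (V ◁ (co W ▷ W ⊗≫ W ◁ ev W)) ⊗≫ D W' ◁ p ⊗≫
          ev W' ⊗≫ 𝟙 _ := by
      rw [← whisker_exchange]; monoidal
    _ = _ := by
      rw [zag]; monoidal

lemma r_ev' {V W W' : C} (i : W' ⟶ V ⊗ W) :
    W' ◁ P.r i ⊗≫ P.ev' W' ▷ V ⊗≫ 𝟙 _ = i ▷ D W ⊗≫ V ◁ P.ev' W ⊗≫ 𝟙 V := by
  unfold r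
  calc
    _ = 𝟙 _ ⊗≫ W' ◁ P.co' W' ▷ D W ⊗≫ (W' ⊗ D W') ◁ (i ▷ D W ⊗≫ V ◁ P.ev' W ⊗≫ 𝟙 V) ⊗≫
          P.ev' W' ▷ V ⊗≫ 𝟙 _ := by
      monoidal
    _ = 𝟙 _ ⊗≫ W' ◁ P.co' W' ▷ D W ⊗≫ ((W' ⊗ D W') ◁ (i ▷ D W ⊗≫ V ◁ P.ev' W ⊗≫ 𝟙 V) ≫
          P.ev' W' ▷ V) ⊗≫ 𝟙 _ := by
      monoidal
    _ = 𝟙 _ ⊗≫ (W' ◁ P.co' W' ⊗≫ P.ev' W' ▷ W') ▷ D W ⊗≫
          (i ▷ D W ⊗≫ V ◁ P.ev' W ⊗≫ 𝟙 V) ⊗≫ 𝟙 _ := by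
      rw [whisker_exchange]; monoidal
    _ = _ := by
      rw [zig']; monoidal

/-- the induced morphism `Z_W X ⟶ Z_{W'} Y` -/
def h {V W W' X Y : C} (i : W' ⟶ V ⊗ W) (p : V ⊗ W ⟶ W') (g : V ⊗ X ⟶ Y ⊗ V) :
    D W ⊗ (X ⊗ W) ⟶ D W' ⊗ (Y ⊗ W') :=
  P.r i ▷ (X ⊗ W) ⊗≫ D W' ◁ (g ▷ W ⊗≫ Y ◁ p)

/-- the underlying morphism of the counit -/
def E (W X : C) : W ⊗ (D W ⊗ (X ⊗ W)) ⟶ X ⊗ W := 𝟙 _ ⊗≫ P.ev' W ▷ (X ⊗ W) ⊗≫ 𝟙 _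

/-- the underlying morphism of the unit -/
def Nu (W X : C) : D W ⊗ X ⟶ (D W ⊗ (X ⊗ W)) ⊗ D W := 𝟙 _ ⊗≫ (D W ⊗ X) ◁ co W ⊗≫ 𝟙 _

lemma L_eps {V W W' X Y : C} (i : W' ⟶ V ⊗ W) (p : V ⊗ W ⟶ W') (g : V ⊗ X ⟶ Y ⊗ V) :
    i ▷ (D W ⊗ (X ⊗ W)) ≫ SSData.tc (P.E W X) g ≫ Y ◁ p = W' ◁ P.h i p g ≫ P.E W' Y := by
  symm
  unfold h E
  calc
    _ = 𝟙 _ ⊗≫ W' ◁ (P.r i ▷ (X ⊗ W)) ⊗≫ ((W' ⊗ D W') ◁ (g ▷ W ⊗≫ Y ◁ p) ≫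
          P.ev' W' ▷ (Y ⊗ W')) ⊗≫ 𝟙 _ := by
      monoidal
    _ = 𝟙 _ ⊗≫ (W' ◁ P.r i ⊗≫ P.ev' W' ▷ V ⊗≫ 𝟙 V) ▷ (X ⊗ W) ⊗≫ (g ▷ W ⊗≫ Y ◁ p) ⊗≫ 𝟙 _ := by
      rw [whisker_exchange]; monoidal
    _ = _ := by
      rw [r_ev']
      simp only [SSData.tc]
      monoidal

lemma L_eta {V W W' X Y : C} (i : W' ⟶ V ⊗ W) (p : V ⊗ W ⟶ W') (g : V ⊗ X ⟶ Y ⊗ V) :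
    P.r i ▷ X ≫ SSData.tc g (Nu W' Y) ≫ (D W' ⊗ (Y ⊗ W')) ◁ q p =
      Nu W X ≫ P.h i p g ▷ D W := by
  unfold h Nu q
  calc
    _ = 𝟙 _ ⊗≫ P.r i ▷ X ⊗≫ D W' ◁ g ⊗≫ ((D W' ⊗ Y) ◁ (co W' ▷ V ≫ (W' ⊗ D W') ◁ s p)) ⊗≫
          (D W' ⊗ Y ⊗ W') ◁ (ev W' ▷ D W) ⊗≫ 𝟙 _ := by
      simp only [SSData.tc]; monoidal
    _ = 𝟙 _ ⊗≫ P.r i ▷ X ⊗≫ D W' ◁ g ⊗≫ (D W' ⊗ Y) ◁ s p ⊗≫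
          (D W' ⊗ Y) ◁ ((co W' ▷ W' ⊗≫ W' ◁ ev W') ▷ D W) ⊗≫ 𝟙 _ := by
      rw [← whisker_exchange]; monoidal
    _ = 𝟙 _ ⊗≫ P.r i ▷ X ⊗≫ D W' ◁ (g ▷ 𝟙_ C ≫ (Y ⊗ V) ◁ co W) ⊗≫
          (D W' ⊗ Y) ◁ (p ▷ D W) ⊗≫ 𝟙 _ := by
      rw [zag]
      simp only [s]
      monoidal
    _ = 𝟙 _ ⊗≫ (P.r i ▷ (X ⊗ 𝟙_ C) ≫ (D W' ⊗ V) ◁ (X ◁ co W)) ⊗≫ D W' ◁ (g ▷ (W ⊗ D W)) ⊗≫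
          (D W' ⊗ Y) ◁ (p ▷ D W) ⊗≫ 𝟙 _ := by
      rw [← whisker_exchange]; monoidal
    _ = _ := by
      rw [← whisker_exchange]; monoidal

lemma tc_Nu_E (W X : C) : SSData.tc (Nu W X) (P.E W X) =
    P.ev' W ▷ X ≫ (λ_ X).hom ≫ (ρ_ X).inv ≫ X ◁ co W := by
  unfold Nu E
  calc
    _ = 𝟙 _ ⊗≫ ((W ⊗ D W) ◁ (X ◁ co W) ≫ P.ev' W ▷ (X ⊗ (W ⊗ D W))) ⊗≫ 𝟙 _ := by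
      simp only [SSData.tc]; monoidal
    _ = _ := by
      rw [whisker_exchange]; monoidal

end PivotalStructure

end Pool.Agent.Lib.MP_d1a06a_al
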