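import Mathlib

set_option autoImplicit false

open scoped BigOperators ComplexConjugate

namespace Pool.Agent.Lib.MP_d1a06a_al

/-- `ψ` is a character of the fusion ring with structure constants `N` and unit `o`. -/
def IsChar {ι : Type} [Fintype ι] (o : ι) (N : ι → ι → ι → ℕ) (ψ : ι → ℂ) : Prop :=
  ψ o = 1 ∧ ∀ i j, ψ i * ψ j = ∑ k, (N i j k : ℂ) * ψ k

/-- Numeric data extracted from a spherical fusion category: `ι` = simple objects, `d` their
dimensions, `J` = simple modules of the tube algebra, `v j i` = multiplicities,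
`θ j` = the twists. -/
structure NumData where
  ι : Type
  [fin : Fintype ι]
  [dec : DecidableEq ι]
  o : ι
  star : ι → ι
  N : ι → ι → ι → ℕ
  J : Type
  [finJ : Fintype J]
  [decJ : DecidableEq J]
  v : J → ι → ℕ
  θ : J → ℂ
  d : ι → ℂ
  char_star : ∀ ψ : ι → ℂ, IsChar o N ψ → ∀ i, ψ (star i) = conj (ψ i)
  d_char : IsChar o N d
  d_star : ∀ i, d (star i) = d i
  /-- the block attached to a real character -/
  jj : (ι → ℂ) → J
  jj_inj : ∀ ψ ψ' : ι → ℂ, IsChar o N ψ → IsChar o N ψ' → (∀ i, conj (ψ i) = ψ i) →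
    (∀ i, conj (ψ' i) = ψ' i) → jj ψ = jj ψ' → ψ = ψ'
  θ_jj : ∀ ψ : ι → ℂ, IsChar o N ψ → (∀ i, conj (ψ i) = ψ i) → θ (jj ψ) = 1
  M1_char : ∀ ψ : ι → ℂ, IsChar o N ψ → (∀ i, conj (ψ i) = ψ i) → ∀ x,
    ∑ j, θ j * v j x * (∑ i, v j i * ψ i) = (∑ i, ψ i * ψ i) * v (jj ψ) x
  v_jj_d : ∀ x, v (jj d) x = if x = o then 1 else 0
  M0_d : ∀ x, ∑ j, (v j x : ℂ) * (∑ i, v j i * d i) = (∑ i, d i * d i) * d x
  root : ∀ j, (∑ i, (v j i : ℂ) * d i) ≠ 0 → ∃ m : ℕ, 0 < m ∧ θ j ^ m = 1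

attribute [instance] NumData.fin NumData.dec NumData.finJ NumData.decJ

/-- the global dimension -/
noncomputable def NumData.dim (𝒩 : NumData) : ℂ := ∑ i, 𝒩.d i * 𝒩.d i

end Pool.Agent.Lib.MP_d1a06a_al
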