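import Pool.Agent.Lib.MP_d1a06a_al.Corner
import Pool.Agent.Lib.MP_d1a06a_al.NumDefs

set_option autoImplicit false
set_option linter.unusedSectionVars false

open CategoryTheory MonoidalCategory CategoryTheory.Limits ExactPairing
open scoped ComplexConjugate

namespace Pool.Agent.Lib.MP_d1a06a_al

open PivotalStructure

universe v u

variable {C : Type u} [Category.{v} C] [Preadditive C] [Linear ℂ C] [MonoidalCategory C]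
  [MonoidalPreadditive C] [MonoidalLinear ℂ C] [RightRigidCategory C]

/-- squares of natural numbers summing to one -/
lemma nat_sum_sq {m : ℕ} (n : Fin m → ℕ) (h : ∑ j, n j * n j = 1) :
    ∃ j0, ∀ j, n j = if j = j0 then 1 else 0 := by
  have h1 : ∃ j0, n j0 ≠ 0 := by
    by_contra hcon
    push Not at hcon
    simp [hcon] at h
  obtain ⟨j0, hj0⟩ := h1
  refine ⟨j0, fun j => ?_⟩
  have h2 := Finset.add_sum_erase Finset.univ (fun j => n j * n j) (Finset.mem_univ j0)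
  have h3 : 1 ≤ n j0 * n j0 := Nat.one_le_iff_ne_zero.2 (mul_ne_zero hj0 hj0)
  have h4 : n j0 * n j0 = 1 := by
    have : n j0 * n j0 ≤ 1 := by rw [← h, ← h2]; exact Nat.le_add_right _ _
    omega
  split_ifs with hj
  · rw [hj]
    exact Nat.eq_one_of_mul_eq_one_right h4
  · have h5 : ∑ j ∈ Finset.univ.erase j0, n j * n j = 0 := by
      rw [h4, h] at h2
      omega
    have h6 := (Finset.sum_eq_zero_iff.1 h5) j (Finset.mem_erase.2 ⟨hj, Finset.mem_univ j⟩)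
    rcases Nat.mul_eq_zero.1 h6 with h7 | h7 <;> exact h7

namespace Sph

variable (Q : Sph C)

lemma d_char : IsChar Q.o Q.𝒮.N Q.d := ⟨Q.d_o, Q.d_mul⟩

variable {Q} in
lemma char_star {ψ : Q.𝒮.ι → ℂ} (hψ : IsChar Q.o Q.𝒮.N ψ) (i : Q.𝒮.ι) :
    ψ (Q.star i) = conj (ψ i) := by
  have h1 : (∑ j, ∑ k, (Q.𝒮.N i j k : ℂ) * ψ k * conj (ψ j)) =
      ψ i * ∑ j, ψ j * conj (ψ j) := by
    rw [Finset.mul_sum]
    refine Finset.sum_congr rfl fun j _ => ?_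
    rw [← mul_assoc, hψ.2, Finset.sum_mul]
  have h2 : (∑ j, ∑ k, (Q.𝒮.N i j k : ℂ) * ψ k * conj (ψ j)) =
      conj (ψ (Q.star i)) * ∑ k, ψ k * conj (ψ k) := by
    rw [Finset.sum_comm, Finset.mul_sum]
    refine Finset.sum_congr rfl fun k _ => ?_
    have h3 : conj (ψ (Q.star i)) * conj (ψ k) = ∑ j, (Q.𝒮.N (Q.star i) k j : ℂ) * conj (ψ j) := by
      rw [← map_mul, hψ.2, map_sum]
      refine Finset.sum_congr rfl fun j _ => ?_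
      rw [map_mul, Complex.conj_natCast]
    calc _ = ψ k * ∑ j, (Q.𝒮.N (Q.star i) k j : ℂ) * conj (ψ j) := by
          rw [Finset.mul_sum]
          refine Finset.sum_congr rfl fun j _ => ?_
          rw [Q.N_dual_left]
          ring
      _ = _ := by rw [← h3]; ring
  have h4 : (∑ j, ψ j * conj (ψ j)) ≠ 0 := by
    have h5 : ∀ j, ψ j * conj (ψ j) = ((Complex.normSq (ψ j) : ℝ) : ℂ) := fun j =>
      Complex.mul_conj _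
    simp only [h5, ← Complex.ofReal_sum]
    rw [Complex.ofReal_ne_zero]
    have h6 : 0 < ∑ j, Complex.normSq (ψ j) := by
      refine Finset.sum_pos' (fun j _ => Complex.normSq_nonneg _) ⟨Q.o, Finset.mem_univ _, ?_⟩
      rw [hψ.1]
      simp
    exact h6.ne'
  have h7 : ψ i = conj (ψ (Q.star i)) := by
    rw [h1] at h2
    exact mul_right_cancel₀ h4 h2
  rw [h7, Complex.conj_conj]

variable {Q} in
lemma char_star_real {ψ : Q.𝒮.ι → ℂ} (hψ : IsChar Q.o Q.𝒮.N ψ) (hr : ∀ i, conj (ψ i) = ψ i)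
    (i : Q.𝒮.ι) : ψ (Q.star i) = ψ i := by
  rw [char_star hψ, hr]

lemma d_real (i : Q.𝒮.ι) : conj (Q.d i) = Q.d i := by
  rw [← char_star Q.d_char, d_star]

/-- formal codegree -/
noncomputable def fc (ψ : Q.𝒮.ι → ℂ) : ℂ := ∑ i, ψ i * ψ i

variable {Q} in
lemma fc_pos {ψ : Q.𝒮.ι → ℂ} (hψ : IsChar Q.o Q.𝒮.N ψ) (hr : ∀ i, conj (ψ i) = ψ i) :
    ∃ r : ℝ, 0 < r ∧ Q.fc ψ = r := by
  have h5 : ∀ j, ψ j * ψ j = ((Complex.normSq (ψ j) : ℝ) : ℂ) := fun j => by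
    rw [← Complex.mul_conj, hr]
  refine ⟨∑ j, Complex.normSq (ψ j), ?_, ?_⟩
  · refine Finset.sum_pos' (fun j _ => Complex.normSq_nonneg _) ⟨Q.o, Finset.mem_univ _, ?_⟩
    rw [hψ.1]
    simp
  · rw [fc]
    simp only [h5]
    push_cast
    rfl

variable {Q} in
lemma fc_ne {ψ : Q.𝒮.ι → ℂ} (hψ : IsChar Q.o Q.𝒮.N ψ) (hr : ∀ i, conj (ψ i) = ψ i) :
    Q.fc ψ ≠ 0 := by
  obtain ⟨r, hr, h⟩ := fc_pos hψ hr
  rw [h]
  exact Complex.ofReal_ne_zero.2 hr.ne'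

lemma gd_ne : Q.gd ≠ 0 := fc_ne Q.d_char Q.d_real

instance : IsSemisimpleRing Q.A := Q.isSemisimpleRing Q.gd_ne

/-- the blocks of the tube algebra -/
noncomputable def B : Blocks Q.A := (exists_blocks Q.A).some

/-- the functional of a character -/
noncomputable def fn (ψ : Q.𝒮.ι → ℂ) : Q.𝒮.T (𝟙_ C) (𝟙_ C) →ₗ[ℂ] ℂ :=
  ∑ i, ψ i • Q.𝒮.coef i

lemma fn_apply (ψ : Q.𝒮.ι → ℂ) (f : Q.𝒮.T (𝟙_ C) (𝟙_ C)) :
    Q.fn ψ f = ∑ i, ψ i * Q.𝒮.coef i f := by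
  simp [fn]

lemma fn_K (ψ : Q.𝒮.ι → ℂ) (j : Q.𝒮.ι) : Q.fn ψ (Q.𝒮.K (Q.𝒮.S j)) = ψ j := by
  rw [fn_apply]
  simp [SSData.coef_K]

/-- the unnormalized idempotent of a character -/
noncomputable def EE (ψ : Q.𝒮.ι → ℂ) : Q.𝒮.T (𝟙_ C) (𝟙_ C) := ∑ i, ψ i • Q.𝒮.K (Q.𝒮.S i)

lemma fn_EE (ψ ψ' : Q.𝒮.ι → ℂ) : Q.fn ψ' (Q.EE ψ) = ∑ i, ψ i * ψ' i := by
  rw [EE, map_sum]
  simp only [map_smul, fn_K, smul_eq_mul]

variable {Q} in
lemma K_EE {ψ : Q.𝒮.ι → ℂ} (hψ : IsChar Q.o Q.𝒮.N ψ) (hr : ∀ i, conj (ψ i) = ψ i)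
    (j : Q.𝒮.ι) : Q.𝒮.comp (Q.𝒮.K (Q.𝒮.S j)) (Q.EE ψ) = ψ j • Q.EE ψ := by
  have h1 : ∀ i, Q.𝒮.comp (Q.𝒮.K (Q.𝒮.S j)) (ψ i • Q.𝒮.K (Q.𝒮.S i)) =
      ∑ k, (ψ i * Q.𝒮.N i j k) • Q.𝒮.K (Q.𝒮.S k) := by
    intro i
    rw [SSData.comp_smul_right, SSData.comp_K_K, SSData.K_eq_sum', Finset.smul_sum]
    simp only [smul_smul, SSData.N_eq_cnt]
  rw [EE, SSData.comp_sum_right]
  simp only [h1]
  rw [Finset.sum_comm, Finset.smul_sum]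
  refine Finset.sum_congr rfl fun k _ => ?_
  rw [← Finset.sum_smul, smul_smul]
  congr 1
  rw [mul_comm (ψ j) (ψ k), ← char_star_real hψ hr j, hψ.2]
  refine Finset.sum_congr rfl fun i _ => ?_
  rw [Q.N_dual_right i j k, mul_comm]

variable {Q} in
lemma EE_K {ψ : Q.𝒮.ι → ℂ} (hψ : IsChar Q.o Q.𝒮.N ψ) (hr : ∀ i, conj (ψ i) = ψ i)
    (j : Q.𝒮.ι) : Q.𝒮.comp (Q.EE ψ) (Q.𝒮.K (Q.𝒮.S j)) = ψ j • Q.EE ψ := by
  have h1 : ∀ i, Q.𝒮.comp (ψ i • Q.𝒮.K (Q.𝒮.S i)) (Q.𝒮.K (Q.𝒮.S j)) =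
      ∑ k, (ψ i * Q.𝒮.N j i k) • Q.𝒮.K (Q.𝒮.S k) := by
    intro i
    rw [SSData.comp_smul_left, SSData.comp_K_K, SSData.K_eq_sum', Finset.smul_sum]
    simp only [smul_smul, SSData.N_eq_cnt]
  rw [EE, SSData.comp_sum_left]
  simp only [h1]
  rw [Finset.sum_comm, Finset.smul_sum]
  refine Finset.sum_congr rfl fun k _ => ?_
  rw [← Finset.sum_smul, smul_smul]
  congr 1
  rw [← char_star_real hψ hr j, hψ.2]
  refine Finset.sum_congr rfl fun i _ => ?_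
  rw [Q.N_dual_left j i k, mul_comm]

variable {Q} in
lemma comp_EE {ψ : Q.𝒮.ι → ℂ} (hψ : IsChar Q.o Q.𝒮.N ψ) (hr : ∀ i, conj (ψ i) = ψ i)
    (f : Q.𝒮.T (𝟙_ C) (𝟙_ C)) : Q.𝒮.comp f (Q.EE ψ) = Q.fn ψ f • Q.EE ψ := by
  conv_lhs => rw [Q.𝒮.expand_coef f]
  rw [SSData.comp_sum_left, fn_apply, Finset.sum_smul]
  refine Finset.sum_congr rfl fun i _ => ?_
  rw [SSData.comp_smul_left, K_EE hψ hr, smul_smul, mul_comm]

variable {Q} in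
lemma EE_comp {ψ : Q.𝒮.ι → ℂ} (hψ : IsChar Q.o Q.𝒮.N ψ) (hr : ∀ i, conj (ψ i) = ψ i)
    (f : Q.𝒮.T (𝟙_ C) (𝟙_ C)) : Q.𝒮.comp (Q.EE ψ) f = Q.fn ψ f • Q.EE ψ := by
  conv_lhs => rw [Q.𝒮.expand_coef f]
  rw [SSData.comp_sum_right, fn_apply, Finset.sum_smul]
  refine Finset.sum_congr rfl fun i _ => ?_
  rw [SSData.comp_smul_right, EE_K hψ hr, smul_smul, mul_comm]

/-- the idempotent of a character -/
noncomputable def ee (ψ : Q.𝒮.ι → ℂ) : Q.𝒮.T (𝟙_ C) (𝟙_ C) := (Q.fc ψ)⁻¹ • Q.EE ψ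

variable {Q} in
lemma comp_ee {ψ : Q.𝒮.ι → ℂ} (hψ : IsChar Q.o Q.𝒮.N ψ) (hr : ∀ i, conj (ψ i) = ψ i)
    (f : Q.𝒮.T (𝟙_ C) (𝟙_ C)) : Q.𝒮.comp f (Q.ee ψ) = Q.fn ψ f • Q.ee ψ := by
  rw [ee, SSData.comp_smul_right, comp_EE hψ hr, smul_comm]

variable {Q} in
lemma ee_comp {ψ : Q.𝒮.ι → ℂ} (hψ : IsChar Q.o Q.𝒮.N ψ) (hr : ∀ i, conj (ψ i) = ψ i)
    (f : Q.𝒮.T (𝟙_ C) (𝟙_ C)) : Q.𝒮.comp (Q.ee ψ) f = Q.fn ψ f • Q.ee ψ := by
  rw [ee, SSData.comp_smul_left, EE_comp hψ hr, smul_comm]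

variable {Q} in
lemma fn_ee {ψ : Q.𝒮.ι → ℂ} (hψ : IsChar Q.o Q.𝒮.N ψ) (hr : ∀ i, conj (ψ i) = ψ i) :
    Q.fn ψ (Q.ee ψ) = 1 := by
  rw [ee, map_smul, fn_EE, smul_eq_mul]
  exact inv_mul_cancel₀ (fc_ne hψ hr)

variable {Q} in
lemma ee_ee {ψ : Q.𝒮.ι → ℂ} (hψ : IsChar Q.o Q.𝒮.N ψ) (hr : ∀ i, conj (ψ i) = ψ i) :
    Q.𝒮.comp (Q.ee ψ) (Q.ee ψ) = Q.ee ψ := by
  rw [comp_ee hψ hr, fn_ee hψ hr, one_smul]

/-- block traces of the idempotent of a character -/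
noncomputable def te (ψ : Q.𝒮.ι → ℂ) (j : Fin Q.B.n) : ℂ := Q.B.tr j (up Q.retU Q.retU (Q.ee ψ))

variable {Q} in
lemma exists_jj {ψ : Q.𝒮.ι → ℂ} (hψ : IsChar Q.o Q.𝒮.N ψ) (hr : ∀ i, conj (ψ i) = ψ i) :
    ∃ j0, ∀ j, Q.te ψ j = if j = j0 then 1 else 0 := by
  have h1 : ∀ j, ∃ k : ℕ, Q.te ψ j = k := by
    intro j
    refine Q.B.tr_idem j _ ?_
    rw [← up_comp, ee_ee hψ hr]
  choose n hn using h1
  have h2 : ∑ j, Q.te ψ j * Q.te ψ j = 1 := by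
    have := Q.𝒮.finiteDimensional_T (𝟙_ C) (𝟙_ C)
    let L : Q.𝒮.T (𝟙_ C) (𝟙_ C) →ₗ[ℂ] Q.𝒮.T (𝟙_ C) (𝟙_ C) := (Q.fn ψ).smulRight (Q.ee ψ)
    have h3 := Q.trace_corner Q.B Q.retU Q.retU (Q.ee ψ) (Q.ee ψ) L (by
      intro f
      rw [comp_ee hψ hr, SSData.comp_smul_right, ee_ee hψ hr]
      rfl)
    rw [LinearMap.trace_smulRight, fn_ee hψ hr] at h3
    exact h3.symm
  have h3 : ∑ j, n j * n j = 1 := by
    simp only [hn] at h2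
    exact_mod_cast h2
  obtain ⟨j0, hj0⟩ := nat_sum_sq n h3
  refine ⟨j0, fun j => ?_⟩
  rw [hn, hj0]
  split_ifs <;> simp

lemma nonempty_J : Nonempty (Fin Q.B.n) := ⟨(exists_jj Q.d_char Q.d_real).choose⟩

open Classical in
/-- the block of a character -/
noncomputable def jj (ψ : Q.𝒮.ι → ℂ) : Fin Q.B.n :=
  if h : ∃ j0, ∀ j, Q.te ψ j = if j = j0 then 1 else 0 then h.choose
  else Q.nonempty_J.some

variable {Q} in
lemma te_eq {ψ : Q.𝒮.ι → ℂ} (hψ : IsChar Q.o Q.𝒮.N ψ) (hr : ∀ i, conj (ψ i) = ψ i)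
    (j : Fin Q.B.n) : Q.te ψ j = if j = Q.jj ψ then 1 else 0 := by
  have h := exists_jj hψ hr
  have h1 : Q.jj ψ = h.choose := by
    unfold jj
    rw [dif_pos h]
  rw [h1]
  exact h.choose_spec j

variable {Q} in
lemma jj_inj {ψ ψ' : Q.𝒮.ι → ℂ} (hψ : IsChar Q.o Q.𝒮.N ψ) (hψ' : IsChar Q.o Q.𝒮.N ψ')
    (hr : ∀ i, conj (ψ i) = ψ i) (hr' : ∀ i, conj (ψ' i) = ψ' i) (h : Q.jj ψ = Q.jj ψ') :
    ψ = ψ' := by
  by_contra hne
  have h1 : ∃ i, ψ i ≠ ψ' i := by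
    by_contra hcon
    push Not at hcon
    exact hne (funext hcon)
  obtain ⟨i, hi⟩ := h1
  have h2 : Q.𝒮.comp (Q.ee ψ) (Q.ee ψ') = 0 := by
    have h3 : Q.𝒮.comp (Q.𝒮.comp (Q.ee ψ) (Q.𝒮.K (Q.𝒮.S i))) (Q.ee ψ') =
        Q.𝒮.comp (Q.ee ψ) (Q.𝒮.comp (Q.𝒮.K (Q.𝒮.S i)) (Q.ee ψ')) := SSData.comp_assoc _ _ _ _
    rw [ee_comp hψ hr, comp_ee hψ' hr' (Q.𝒮.K (Q.𝒮.S i)), fn_K, fn_K, SSData.comp_smul_left,
      SSData.comp_smul_right] at h3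
    have h4 : (ψ i - ψ' i) • Q.𝒮.comp (Q.ee ψ) (Q.ee ψ') = 0 := by
      rw [sub_smul, h3, sub_self]
    rcases smul_eq_zero.1 h4 with h5 | h5
    · exact absurd (sub_eq_zero.1 h5) hi
    · exact h5
  have h3 := Q.trace_corner Q.B Q.retU Q.retU (Q.ee ψ) (Q.ee ψ') 0 (by
    intro f
    rw [comp_ee hψ' hr', SSData.comp_smul_right, h2, smul_zero]
    rfl)
  rw [map_zero] at h3
  have h4 : ∀ j, Q.B.tr j (up Q.retU Q.retU (Q.ee ψ')) * Q.B.tr j (up Q.retU Q.retU (Q.ee ψ)) =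
      if j = Q.jj ψ then 1 else 0 := by
    intro j
    change Q.te ψ' j * Q.te ψ j = _
    rw [te_eq hψ hr, te_eq hψ' hr', h]
    split_ifs <;> simp
  simp only [h4] at h3
  simp at h3

variable {Q} in
lemma th_jj {ψ : Q.𝒮.ι → ℂ} (hψ : IsChar Q.o Q.𝒮.N ψ) (hr : ∀ i, conj (ψ i) = ψ i) :
    Q.th Q.B (Q.jj ψ) = 1 := by
  have h1 : up Q.retU Q.retU (Q.ee ψ) * Q.tw = up Q.retU Q.retU (Q.ee ψ) := by
    have h2 : up Q.retU Q.retU (Q.𝒮.comp (Q.ee ψ) (Q.𝒮.t (𝟙_ C))) =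
        up Q.retU Q.retU (Q.ee ψ) := by
      rw [SSData.t_unit, SSData.comp_id_T]
    rwa [up_comp Q.retU Q.retU Q.retU, cor_t, mul_assoc, ← tw_central, ← mul_assoc,
      idem_mul_up] at h2
  have h2 := Q.B.tr_mul_central Q.tw Q.tw_central (Q.jj ψ) (up Q.retU Q.retU (Q.ee ψ))
  rw [h1] at h2
  change Q.te ψ (Q.jj ψ) = Q.th Q.B (Q.jj ψ) * Q.te ψ (Q.jj ψ) at h2
  rw [te_eq hψ hr, if_pos rfl, mul_one] at h2
  exact h2.symm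

variable {Q} in
lemma M1_char {ψ : Q.𝒮.ι → ℂ} (hψ : IsChar Q.o Q.𝒮.N ψ) (hr : ∀ i, conj (ψ i) = ψ i)
    (x : Q.𝒮.ι) : ∑ j, Q.th Q.B j * Q.v Q.B j x * (∑ i, Q.v Q.B j i * ψ i) =
      (∑ i, ψ i * ψ i) * Q.v Q.B (Q.jj ψ) x := by
  have h1 : ∀ j, ∑ i, ψ i * Q.B.tr j (up Q.retU Q.retU (Q.𝒮.K (Q.𝒮.S i))) =
      Q.fc ψ * Q.te ψ j := by
    intro j
    have h2 : Q.EE ψ = Q.fc ψ • Q.ee ψ := by
      rw [ee, smul_smul, mul_inv_cancel₀ (fc_ne hψ hr), one_smul]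
    rw [te, ← smul_eq_mul, ← map_smul, ← map_smul, ← h2, EE, map_sum, map_sum]
    simp only [map_smul, smul_eq_mul]
  calc _ = ∑ y, ψ y * ∑ j, Q.th Q.B j * Q.v Q.B j x * Q.v Q.B j y := by
        simp only [Finset.mul_sum]
        rw [Finset.sum_comm]
        refine Finset.sum_congr rfl fun j _ => Finset.sum_congr rfl fun y _ => ?_
        ring
    _ = ∑ y, ψ y * ∑ j, (Q.v Q.B j x : ℂ) *
          Q.B.tr j (up Q.retU Q.retU (Q.𝒮.K (Q.𝒮.S y))) := by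
        refine Finset.sum_congr rfl fun y _ => ?_
        rw [Q.T1]
    _ = ∑ j, (Q.v Q.B j x : ℂ) *
          ∑ y, ψ y * Q.B.tr j (up Q.retU Q.retU (Q.𝒮.K (Q.𝒮.S y))) := by
        simp only [Finset.mul_sum]
        rw [Finset.sum_comm]
        refine Finset.sum_congr rfl fun j _ => Finset.sum_congr rfl fun y _ => ?_
        ring
    _ = _ := by
        simp only [h1, te_eq hψ hr]
        simp only [mul_ite, mul_one, mul_zero, Finset.sum_ite_eq', Finset.mem_univ, if_true]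
        rw [mul_comm]
        rfl

lemma M0_d (x : Q.𝒮.ι) : ∑ j, (Q.v Q.B j x : ℂ) * (∑ i, Q.v Q.B j i * Q.d i) =
    (∑ i, Q.d i * Q.d i) * Q.d x := by
  have h1 : ∀ y, (∑ j, (Q.v Q.B j x : ℂ) * Q.v Q.B j y) =
      ∑ w, ∑ k, (Q.𝒮.N w y k : ℂ) * Q.𝒮.N x w k := by
    intro y
    rw [← Q.T0, SSData.finrank_T]
    rfl
  calc _ = ∑ y, Q.d y * ∑ j, (Q.v Q.B j x : ℂ) * Q.v Q.B j y := by
        simp only [Finset.mul_sum]
        rw [Finset.sum_comm]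
        refine Finset.sum_congr rfl fun j _ => Finset.sum_congr rfl fun y _ => ?_
        ring
    _ = ∑ w, ∑ k, (Q.𝒮.N x w k : ℂ) * ∑ y, (Q.𝒮.N (Q.star w) k y : ℂ) * Q.d y := by
        simp only [h1, Finset.mul_sum]
        rw [Finset.sum_comm]
        refine Finset.sum_congr rfl fun w _ => ?_
        rw [Finset.sum_comm]
        refine Finset.sum_congr rfl fun k _ => Finset.sum_congr rfl fun y _ => ?_
        rw [Q.N_dual_left w y k]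
        ring
    _ = ∑ w, ∑ k, (Q.𝒮.N x w k : ℂ) * (Q.d w * Q.d k) := by
        refine Finset.sum_congr rfl fun w _ => Finset.sum_congr rfl fun k _ => ?_
        rw [← Q.d_mul, Q.d_star]
    _ = ∑ w, Q.d w * ∑ k, (Q.𝒮.N x w k : ℂ) * Q.d k := by
        refine Finset.sum_congr rfl fun w _ => ?_
        rw [Finset.mul_sum]
        refine Finset.sum_congr rfl fun k _ => ?_
        ring
    _ = _ := by
        rw [Finset.sum_mul]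
        refine Finset.sum_congr rfl fun w _ => ?_
        rw [← Q.d_mul]
        ring

end Sph

end Pool.Agent.Lib.MP_d1a06a_al
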