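import Pool.Agent.Lib.MP_d1a06a_al.Casimir

set_option autoImplicit false
set_option linter.unusedSectionVars false

open CategoryTheory MonoidalCategory CategoryTheory.Limits ExactPairing

namespace Pool.Agent.Lib.MP_d1a06a_al

open PivotalStructure

universe v u

variable {C : Type u} [Category.{v} C] [Preadditive C] [Linear ℂ C] [MonoidalCategory C]
  [MonoidalPreadditive C] [MonoidalLinear ℂ C] [RightRigidCategory C]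

namespace PivotalStructure

variable (P : PivotalStructure C)

/-- rotation as a linear equivalence -/
def rE (V W W' : C) : (W' ⟶ V ⊗ W) ≃ₗ[ℂ] (D W ⟶ D W' ⊗ V) :=
  (@frobR C _ _ _ _ _ _ W' (D W) W V (P.pair W)).symm.trans
    (@frobL C _ _ _ _ _ _ (D W) (D W') W' V (P.pair W'))

lemma rE_apply {V W W' : C} (i : W' ⟶ V ⊗ W) : P.rE V W W' i = P.r i := by
  change (λ_ (D W)).inv ≫ P.co' W' ▷ D W ≫ (α_ _ _ _).hom ≫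
    D W' ◁ (i ▷ D W ≫ (α_ _ _ _).hom ≫ V ◁ P.ev' W ≫ (ρ_ _).hom) = _
  unfold r
  monoidal

/-- `s` is linear -/
def sL (V W W' : C) : (V ⊗ W ⟶ W') →ₗ[ℂ] (V ⟶ W' ⊗ D W) where
  toFun := s
  map_add' := by intros; simp [s, monoidalComp]
  map_smul' := by intros; simp [s, monoidalComp]

/-- `q` is linear -/
def qL (V W W' : C) : (V ⊗ W ⟶ W') →ₗ[ℂ] (D W' ⊗ V ⟶ D W) where
  toFun := q
  map_add' := by
    intro x y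
    have h : s (x + y) = s x + s y := (sL V W W').map_add x y
    simp [q, h, monoidalComp]
  map_smul' := by
    intro z x
    have h : s (z • x) = z • s x := (sL V W W').map_smul z x
    simp [q, h, monoidalComp]

@[simp] lemma qL_apply {V W W' : C} (p : V ⊗ W ⟶ W') : qL V W W' p = q p := rfl

end PivotalStructure

namespace Sph

variable (Q : Sph C)

include Q in
lemma zero_of_unit {M : C} (f : M ⟶ 𝟙_ C) (hf : ∀ φ : 𝟙_ C ⟶ M, φ ≫ f = 0) : f = 0 := by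
  rw [← Category.id_comp f, ← Q.𝒮.total M, Preadditive.sum_comp]
  refine Finset.sum_eq_zero fun k _ => ?_
  rw [Category.assoc]
  have h : Q.𝒮.inc M k ≫ f = 0 := by
    have h1 : Q.𝒮.inc M k ≫ f = (Q.𝒮.inc M k ≫ f ≫ Q.isoO.hom) ≫ Q.isoO.inv := by simp
    by_cases hk : Q.𝒮.c M k = Q.o
    · have h2 := Q.𝒮.sc_smul (Q.𝒮.inc M k ≫ f ≫ Q.isoO.hom)
      have h3 : Q.𝒮.e Q.o (Q.𝒮.c M k) ≫ Q.𝒮.inc M k ≫ f = 0 := by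
        have := hf (Q.isoO.hom ≫ Q.𝒮.e Q.o (Q.𝒮.c M k) ≫ Q.𝒮.inc M k)
        have h4 := congrArg (fun g => Q.isoO.inv ≫ g) this
        simpa using h4
      have h5 : Q.𝒮.e (Q.𝒮.c M k) Q.o ≫ Q.𝒮.e Q.o (Q.𝒮.c M k) = 𝟙 _ := by
        simp [SSData.e, hk]
      calc Q.𝒮.inc M k ≫ f = (Q.𝒮.e (Q.𝒮.c M k) Q.o ≫ Q.𝒮.e Q.o (Q.𝒮.c M k)) ≫
            Q.𝒮.inc M k ≫ f := by rw [h5, Category.id_comp]
        _ = 0 := by rw [Category.assoc, h3, comp_zero]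
    · rw [h1, Q.𝒮.hom_zero _ _ hk (Q.𝒮.inc M k ≫ f ≫ Q.isoO.hom), zero_comp]
  rw [h, comp_zero]

/-- the dual simple objects have no morphisms between different ones -/
lemma dual_hom_zero {k w : Q.𝒮.ι} (h : k ≠ w) (f : D (Q.𝒮.S k) ⟶ D (Q.𝒮.S w)) : f = 0 := by
  have h0 : ∀ X Y : C, mate (0 : X ⟶ Y) = 0 := by
    intro X Y
    simp [mate, rightAdjointMate]
  have h1 : (Q.P.δ _).hom ≫ mate f ≫ (Q.P.δ _).inv = 0 := Q.𝒮.hom_zero _ _ (Ne.symm h) _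
  have h2 : mate f = 0 := by
    calc mate f = (Q.P.δ _).inv ≫ ((Q.P.δ _).hom ≫ mate f ≫ (Q.P.δ _).inv) ≫ (Q.P.δ _).hom := by
          simp
      _ = _ := by rw [h1]; simp
  have h3 : f = (Q.P.δ _).hom ≫ mate (mate f) ≫ (Q.P.δ _).inv := by
    have := Q.P.naturality f
    rw [← Category.assoc]
    change f = ((Q.P.δ _).hom ≫ (fᘁ)ᘁ) ≫ (Q.P.δ _).inv
    rw [← this]
    simp
  rw [h3, h2, h0]
  simp

lemma dual_scalar' (w : Q.𝒮.ι) (f : D (Q.𝒮.S w) ⟶ D (Q.𝒮.S w)) : ∃ z : ℂ, f = z • 𝟙 _ :=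
  Q.dual_scalar (Q.𝒮.scalar w) f

/-- the left dimension -/
lemma left_dim (X : C) : Q.P.co' X ≫ ev X = Q.dn X • 𝟙 _ := by
  have h := Q.P.dim'_eq X
  rw [dim_one, Category.comp_id, dim_eq_dn, dn_dual] at h
  exact h

lemma d_ne_zero (w : Q.𝒮.ι) : Q.d w ≠ 0 := by
  intro h0
  set W := Q.𝒮.S w with hW
  have h1 : co W ≫ Q.P.ev' W = 0 := by
    have := Q.dim_eq_dn W
    rw [dim_eq] at this
    rw [this, show Q.dn W = Q.d w from rfl, h0, zero_smul]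
  have h2 : Q.P.ev' W = 0 := by
    refine Q.zero_of_unit _ fun φ => ?_
    obtain ⟨ψ, rfl⟩ := (frobR (𝟙_ C) W (D W) W).surjective φ
    obtain ⟨z, hz⟩ := Q.𝒮.scalar w ((λ_ W).inv ≫ ψ)
    have h3 : ψ = z • (λ_ W).hom := by
      calc ψ = (λ_ W).hom ≫ (λ_ W).inv ≫ ψ := by simp
        _ = _ := by rw [hz]; simp only [Linear.comp_smul]; exact congrArg _ (Category.comp_id _)
    have h4 : frobR (𝟙_ C) W (D W) W (λ_ W).hom = co W := by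
      change (ρ_ _).inv ≫ 𝟙_ C ◁ co W ≫ (α_ _ _ _).inv ≫ (λ_ W).hom ▷ D W = _
      monoidal
    rw [h3, map_smul, h4, Linear.smul_comp, h1, smul_zero]
  have h3 := Q.P.zig' W
  rw [h2] at h3
  apply Q.𝒮.ne_zero w
  change 𝟙 W = 0
  have h9 : 𝟙 W = (ρ_ W).inv ≫ (⊗𝟙.hom : W ⊗ 𝟙_ C ⟶ 𝟙_ C ⊗ W) ≫ (λ_ _).hom := by
    monoidal
  rw [h9, ← h3]
  simp [monoidalComp]

/-- the pairing between the rotations -/
lemma r_q (V : C) (w k w' : Q.𝒮.ι) (i : Q.𝒮.S w' ⟶ V ⊗ Q.𝒮.S k) (p : V ⊗ Q.𝒮.S w ⟶ Q.𝒮.S w')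
    (z : ℂ) (hz : ∀ h : k = w, i ≫ eqToHom (by rw [h]) ≫ p = z • 𝟙 _) :
    ∀ h : k = w, Q.P.r i ≫ q p = (z * Q.d w' / Q.d w) • eqToHom (by rw [h]) := by
  intro h
  subst h
  have hz' : i ≫ p = z • 𝟙 _ := by simpa using hz rfl
  obtain ⟨y, hy⟩ := Q.dual_scalar' k (Q.P.r i ≫ q p)
  have h1 : Q.P.co' (Q.𝒮.S k) ≫ (Q.P.r i ≫ q p) ▷ Q.𝒮.S k ≫ ev (Q.𝒮.S k) =
      (z * Q.d w') • 𝟙 _ := by
    rw [comp_whiskerRight, Category.assoc, q_ev, ← Category.assoc, co'_r]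
    have : (Q.P.co' (Q.𝒮.S w') ≫ D (Q.𝒮.S w') ◁ i ≫ (α_ (D (Q.𝒮.S w')) V (Q.𝒮.S k)).inv) ≫
      (α_ (D (Q.𝒮.S w')) V (Q.𝒮.S k)).hom ≫ D (Q.𝒮.S w') ◁ p ≫ ev (Q.𝒮.S w') =
      Q.P.co' (Q.𝒮.S w') ≫ D (Q.𝒮.S w') ◁ (i ≫ p) ≫ ev (Q.𝒮.S w') := by simp
    rw [this, hz']
    simp only [Linear.comp_smul, MonoidalLinear.whiskerLeft_smul, whiskerLeft_id, Linear.smul_comp,
      Category.id_comp, left_dim, smul_smul]
    rfl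
  rw [hy] at h1
  have h2 : (y * Q.d k) • 𝟙 (𝟙_ C) = (z * Q.d w') • 𝟙 _ := by
    rw [← h1]
    simp only [MonoidalLinear.smul_whiskerRight, id_whiskerRight, Linear.smul_comp, Category.id_comp,
      Linear.comp_smul, left_dim, smul_smul]
    rfl
  have h3 : y * Q.d k = z * Q.d w' := by
    have : (y * Q.d k - z * Q.d w') • 𝟙 (𝟙_ C) = 0 := by rw [sub_smul, h2, sub_self]
    rcases smul_eq_zero.1 this with h4 | h4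
    · exact sub_eq_zero.1 h4
    · exact absurd h4 Q.unit_ne
  rw [hy, ← h3, mul_div_assoc, div_self (Q.d_ne_zero k), mul_one]
  simp

/-- inclusion with a fixed type -/
noncomputable def ic (M : C) (w : Q.𝒮.ι) (l : Fin (Q.𝒮.n M)) : Q.𝒮.S w ⟶ M :=
  Q.𝒮.e w (Q.𝒮.c M l) ≫ Q.𝒮.inc M l

/-- projection with a fixed type -/
noncomputable def pc (M : C) (w : Q.𝒮.ι) (l : Fin (Q.𝒮.n M)) : M ⟶ Q.𝒮.S w :=
  Q.𝒮.proj M l ≫ Q.𝒮.e (Q.𝒮.c M l) w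

lemma ic_pc (M : C) (w : Q.𝒮.ι) (l m : Fin (Q.𝒮.n M)) :
    Q.ic M w l ≫ Q.pc M w m = (if l = m ∧ Q.𝒮.c M l = w then (1 : ℂ) else 0) • 𝟙 _ := by
  unfold ic pc
  by_cases h : l = m
  · subst h
    rw [Category.assoc, ← Category.assoc (Q.𝒮.inc M l), Q.𝒮.inc_proj_same, Category.id_comp]
    by_cases hw : Q.𝒮.c M l = w
    · subst hw; simp
    · rw [Q.𝒮.e_ne (Ne.symm hw)]
      simp [hw]
  · rw [Category.assoc, ← Category.assoc (Q.𝒮.inc M l), Q.𝒮.inc_proj_ne _ _ _ h]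
    simp [h]

lemma ic_zero (M : C) (w : Q.𝒮.ι) (l : Fin (Q.𝒮.n M)) (h : Q.𝒮.c M l ≠ w) : Q.ic M w l = 0 := by
  unfold ic
  rw [Q.𝒮.e_ne (Ne.symm h), zero_comp]

lemma from_S_expand (M : C) (w : Q.𝒮.ι) (j : Q.𝒮.S w ⟶ M) :
    j = ∑ m, Q.𝒮.sc (j ≫ Q.𝒮.proj M m) • Q.ic M w m := by
  conv_lhs => rw [← Category.comp_id j, ← Q.𝒮.total M, Preadditive.comp_sum]
  refine Finset.sum_congr rfl fun m _ => ?_
  rw [← Category.assoc]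
  conv_lhs => rw [← Q.𝒮.sc_smul (j ≫ Q.𝒮.proj M m)]
  rw [Linear.smul_comp]
  rfl

/-- the completeness sum -/
noncomputable def CC (V : C) (w' : Q.𝒮.ι) : D (Q.𝒮.S w') ⊗ V ⟶ D (Q.𝒮.S w') ⊗ V :=
  ∑ w, ∑ l, Q.d w • (q (Q.pc (V ⊗ Q.𝒮.S w) w' l) ≫ Q.P.r (Q.ic (V ⊗ Q.𝒮.S w) w' l))

lemma r_ic_CC (V : C) (w' k : Q.𝒮.ι) (m : Fin (Q.𝒮.n (V ⊗ Q.𝒮.S k))) :
    Q.P.r (Q.ic (V ⊗ Q.𝒮.S k) w' m) ≫ Q.CC V w' =
      Q.d w' • Q.P.r (Q.ic (V ⊗ Q.𝒮.S k) w' m) := by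
  have r0 : ∀ w, Q.P.r (0 : Q.𝒮.S w' ⟶ V ⊗ Q.𝒮.S w) = 0 := by
    intro w
    rw [← rE_apply, map_zero]
  unfold CC
  rw [Preadditive.comp_sum, Finset.sum_eq_single k]
  · rw [Preadditive.comp_sum]
    have h1 : ∀ l, Q.P.r (Q.ic (V ⊗ Q.𝒮.S k) w' m) ≫
        (Q.d k • (q (Q.pc (V ⊗ Q.𝒮.S k) w' l) ≫ Q.P.r (Q.ic (V ⊗ Q.𝒮.S k) w' l))) =
        (if m = l ∧ Q.𝒮.c _ m = w' then Q.d w' else 0) •
          Q.P.r (Q.ic (V ⊗ Q.𝒮.S k) w' l) := by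
      intro l
      have h2 := Q.r_q V k k w' (Q.ic (V ⊗ Q.𝒮.S k) w' m) (Q.pc (V ⊗ Q.𝒮.S k) w' l)
        (if m = l ∧ Q.𝒮.c _ m = w' then 1 else 0) (by
          intro _
          simpa using Q.ic_pc (V ⊗ Q.𝒮.S k) w' m l) rfl
      rw [Linear.comp_smul, ← Category.assoc, h2]
      simp only [eqToHom_refl, Linear.smul_comp, Category.id_comp, smul_smul]
      congr 1
      split_ifs
      · field_simp [Q.d_ne_zero k]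
      · simp
    simp only [h1]
    by_cases hm : Q.𝒮.c _ m = w'
    · simp [hm]
    · simp [hm, Q.ic_zero _ _ _ hm, r0]
  · intro w _ hw
    rw [Preadditive.comp_sum]
    refine Finset.sum_eq_zero fun l _ => ?_
    rw [Linear.comp_smul, ← Category.assoc, Q.dual_hom_zero (Ne.symm hw)
      (Q.P.r (Q.ic (V ⊗ Q.𝒮.S k) w' m) ≫ q (Q.pc (V ⊗ Q.𝒮.S w) w' l)), zero_comp, smul_zero]
  · simp

lemma comp_CC (V : C) (w' k : Q.𝒮.ι) (φ : D (Q.𝒮.S k) ⟶ D (Q.𝒮.S w') ⊗ V) :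
    φ ≫ Q.CC V w' = Q.d w' • φ := by
  obtain ⟨j, rfl⟩ := (Q.P.rE V (Q.𝒮.S k) (Q.𝒮.S w')).surjective φ
  rw [Q.from_S_expand _ _ j]
  simp only [map_sum, map_smul, rE_apply, Preadditive.sum_comp, Linear.smul_comp, r_ic_CC,
    Finset.smul_sum]
  refine Finset.sum_congr rfl fun m _ => ?_
  rw [smul_comm]

/-- a simple object is a retract of a dual -/
lemma exists_retract (j : Q.𝒮.ι) : ∃ (k : Q.𝒮.ι) (a : Q.𝒮.S j ⟶ D (Q.𝒮.S k))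
    (b : D (Q.𝒮.S k) ⟶ Q.𝒮.S j), a ≫ b = 𝟙 _ := by
  refine ⟨Q.star j, (Q.P.δ (Q.𝒮.S j)).hom ≫ mate (Q.isoStar j).inv,
    mate (Q.isoStar j).hom ≫ (Q.P.δ (Q.𝒮.S j)).inv, ?_⟩
  have h : mate (Q.isoStar j).inv ≫ mate (Q.isoStar j).hom = 𝟙 _ := by
    have := comp_rightAdjointMate (f := (Q.isoStar j).hom) (g := (Q.isoStar j).inv)
    change _ = mate (Q.isoStar j).inv ≫ mate (Q.isoStar j).hom at this
    rw [← this, Iso.hom_inv_id, rightAdjointMate_id]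
  calc _ = (Q.P.δ (Q.𝒮.S j)).hom ≫ (mate (Q.isoStar j).inv ≫ mate (Q.isoStar j).hom) ≫
        (Q.P.δ (Q.𝒮.S j)).inv := by simp
    _ = _ := by rw [h]; simp

lemma CC_eq (V : C) (w' : Q.𝒮.ι) : Q.CC V w' = Q.d w' • 𝟙 _ := by
  rw [← Category.id_comp (Q.CC V w'), ← Q.𝒮.total (D (Q.𝒮.S w') ⊗ V), Preadditive.sum_comp,
    Finset.smul_sum]
  refine Finset.sum_congr rfl fun m _ => ?_
  obtain ⟨k, a, b, hab⟩ := Q.exists_retract (Q.𝒮.c (D (Q.𝒮.S w') ⊗ V) m)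
  have h1 := Q.comp_CC V w' k (b ≫ Q.𝒮.inc _ m)
  have h2 : Q.𝒮.inc _ m ≫ Q.CC V w' = Q.d w' • Q.𝒮.inc _ m := by
    calc Q.𝒮.inc _ m ≫ Q.CC V w' = a ≫ (b ≫ Q.𝒮.inc _ m) ≫ Q.CC V w' := by
          rw [Category.assoc, ← Category.assoc a, hab, Category.id_comp]
      _ = _ := by
          rw [h1, Linear.comp_smul, ← Category.assoc, hab, Category.id_comp]
  rw [Category.assoc, h2, Linear.comp_smul]

/-! ### the Casimir element -/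

/-- `Z_w X` -/
abbrev Z (w : Q.𝒮.ι) (X : C) : C := D (Q.𝒮.S w) ⊗ (X ⊗ Q.𝒮.S w)

/-- the unit -/
noncomputable def eta (w : Q.𝒮.ι) (X : C) : Q.𝒮.T X (Q.Z w X) :=
  Q.𝒮.π (D (Q.𝒮.S w)) (Nu (Q.𝒮.S w) X)

/-- the counit -/
noncomputable def eps (w : Q.𝒮.ι) (X : C) : Q.𝒮.T (Q.Z w X) X :=
  Q.𝒮.π (Q.𝒮.S w) (Q.P.E (Q.𝒮.S w) X)

lemma eta_eps (w : Q.𝒮.ι) (X : C) :
    Q.𝒮.comp (Q.eta w X) (Q.eps w X) = Q.d w • Q.𝒮.J X X (𝟙 X) := by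
  rw [eta, eps, SSData.comp_ππ, tc_Nu_E, ← SSData.π_dinat]
  have h : ((λ_ X).hom ≫ (ρ_ X).inv ≫ X ◁ co (Q.𝒮.S w)) ≫ X ◁ Q.P.ev' (Q.𝒮.S w) =
      Q.d w • ((λ_ X).hom ≫ 𝟙 X ≫ (ρ_ X).inv) := by
    have h1 : co (Q.𝒮.S w) ≫ Q.P.ev' (Q.𝒮.S w) = Q.d w • 𝟙 _ := Q.dim_eq_dn _
    calc _ = (λ_ X).hom ≫ (ρ_ X).inv ≫ X ◁ (co (Q.𝒮.S w) ≫ Q.P.ev' (Q.𝒮.S w)) := by simp
      _ = _ := by
        rw [h1]
        simp
  rw [h, map_smul, SSData.J_apply]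

/-- transition morphisms -/
noncomputable def HH {V X Y : C} (g : V ⊗ X ⟶ Y ⊗ V) (w w' : Q.𝒮.ι) : Q.Z w X ⟶ Q.Z w' Y :=
  ∑ l, Q.P.h (Q.ic (V ⊗ Q.𝒮.S w) w' l) (Q.pc (V ⊗ Q.𝒮.S w) w' l) g

lemma eps_comp {V X Y : C} (g : V ⊗ X ⟶ Y ⊗ V) (w : Q.𝒮.ι) :
    Q.𝒮.comp (Q.eps w X) (Q.𝒮.π V g) =
      ∑ w', Q.𝒮.comp (Q.𝒮.J _ _ (Q.HH g w w')) (Q.eps w' Y) := by
  have h1 : ∀ w', Q.𝒮.comp (Q.𝒮.J _ _ (Q.HH g w w')) (Q.eps w' Y) =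
      ∑ l, Q.𝒮.π (Q.𝒮.S w') (Q.ic (V ⊗ Q.𝒮.S w) w' l ▷ (D (Q.𝒮.S w) ⊗ (X ⊗ Q.𝒮.S w)) ≫
        SSData.tc (Q.P.E (Q.𝒮.S w) X) g ≫ Y ◁ (Q.pc (V ⊗ Q.𝒮.S w) w' l)) := by
    intro w'
    rw [HH, map_sum, SSData.comp_sum_left]
    refine Finset.sum_congr rfl fun l _ => ?_
    rw [eps, SSData.comp_J_π, L_eps]
  simp only [h1]
  rw [Finset.sum_comm, eps, SSData.comp_ππ, SSData.π_apply]
  refine Finset.sum_congr rfl fun l _ => ?_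
  rw [Finset.sum_eq_single (Q.𝒮.c _ l), SSData.π_S]
  · simp [ic, pc]
  · intro w' _ hw'
    rw [Q.ic_zero _ _ _ (Ne.symm hw')]
    simp
  · simp

lemma comp_eta {V X Y : C} (g : V ⊗ X ⟶ Y ⊗ V) (w' : Q.𝒮.ι) :
    Q.d w' • Q.𝒮.comp (Q.𝒮.π V g) (Q.eta w' Y) =
      ∑ w, Q.d w • Q.𝒮.comp (Q.eta w X) (Q.𝒮.J _ _ (Q.HH g w w')) := by
  have h1 : ∀ w, Q.𝒮.comp (Q.eta w X) (Q.𝒮.J _ _ (Q.HH g w w')) =
      ∑ l, Q.𝒮.π (D (Q.𝒮.S w') ⊗ V)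
        ((q (Q.pc (V ⊗ Q.𝒮.S w) w' l) ≫ Q.P.r (Q.ic (V ⊗ Q.𝒮.S w) w' l)) ▷ X ≫
          SSData.tc g (Nu (Q.𝒮.S w') Y)) := by
    intro w
    rw [HH, map_sum, SSData.comp_sum_right]
    refine Finset.sum_congr rfl fun l _ => ?_
    rw [eta, SSData.comp_π_J, ← L_eta, ← Category.assoc, SSData.π_dinat, comp_whiskerRight,
      Category.assoc]
  simp only [h1]
  rw [eta, SSData.comp_ππ, ← map_smul]
  have h2 : Q.d w' • SSData.tc g (Nu (Q.𝒮.S w') Y) =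
      (Q.CC V w') ▷ X ≫ SSData.tc g (Nu (Q.𝒮.S w') Y) := by
    rw [CC_eq]
    simp
  rw [h2]
  simp only [CC, sum_whiskerRight, Preadditive.sum_comp, map_sum,
    MonoidalLinear.smul_whiskerRight, Linear.smul_comp, map_smul, Finset.smul_sum]

end Sph

end Pool.Agent.Lib.MP_d1a06a_al
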