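import Pool.Agent.Lib.MP_d1a06a_al.Bounds

set_option autoImplicit false
set_option linter.unusedSectionVars false

open scoped BigOperators ComplexConjugate
open Polynomial IntermediateField

namespace Pool.Agent.Lib.MP_d1a06a_al

namespace NumData

namespace Fld

variable {𝒩 : NumData} (K : 𝒩.Fld)

lemma DL_integral : IsIntegral ℤ K.DL := by
  have h3 : IsIntegral ℤ ((K.DL : K.L) : ℂ) := by
    rw [K.coe_DL]
    exact IsIntegral.sum _ fun i _ => (𝒩.d_char.isIntegral i).mul (𝒩.d_char.isIntegral i)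
  exact (isIntegral_algebraMap_iff (algebraMap K.L ℂ).injective).1 h3

/-- every complex conjugate of the global dimension is one of the numbers `Ds σ` -/
lemma conj_eq {z : ℂ} (hz : z ∈ (minpoly ℚ K.DL).rootSet ℂ) : ∃ σ : K.Gp, z = K.Ds σ := by
  rw [← (Algebra.IsAlgebraic.range_eval_eq_rootSet_minpoly (F := ℚ) (K := K.L) ℂ K.DL)] at hz
  obtain ⟨φ, rfl⟩ := hz
  refine ⟨(φ.restrictNormal' K.L).symm, ?_⟩
  rw [(K.Ds_spec _).1]
  exact (AlgHom.restrictNormal_commutes φ K.L K.DL).symm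

end Fld

end NumData

open Classical in
lemma core_aux (n0 : ℕ) (B : ℝ) : ∃ F : Set ℝ, F.Finite ∧ ∀ (𝒩 : NumData) (K : 𝒩.Fld) (D : ℝ),
    𝒩.dim = (D : ℂ) → (∀ σ : K.Gp, K.Ds σ ≤ B) → (Finset.univ.image K.Ds).card ≤ n0 → D ∈ F := by
  let C := Nat.ceil (max B 1 ^ n0 * n0.choose (n0 / 2))
  have hfin := bUnion_roots_finite (algebraMap ℤ ℂ) n0 (Set.finite_Icc (-C : ℤ) C)
  refine ⟨Complex.ofReal ⁻¹' _, hfin.preimage Complex.ofReal_injective.injOn, ?_⟩
  intro 𝒩 K D hD hB hn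
  have hx := K.DL_integral
  have hm := minpoly.isIntegrallyClosed_eq_field_fractions' ℚ hx
  have hmap : (minpoly ℤ K.DL).map (algebraMap ℤ ℂ) = (minpoly ℚ K.DL).map (algebraMap ℚ ℂ) := by
    rw [hm, Polynomial.map_map]
    rfl
  have hxQ : IsIntegral ℚ K.DL := hx.tower_top
  have hdeg : (minpoly ℤ K.DL).natDegree ≤ n0 := by
    rw [← (minpoly.monic hx).natDegree_map (algebraMap ℤ ℚ), ← hm]
    have h1 := Polynomial.card_rootSet_eq_natDegree (K := ℂ) (p := minpoly ℚ K.DL)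
      (minpoly.irreducible hxQ).separable (IsAlgClosed.splits _)
    rw [← h1]
    refine le_trans ?_ hn
    have h2 : (minpoly ℚ K.DL).rootSet ℂ ⊆
        ((Finset.univ.image K.Ds).image Complex.ofReal : Finset ℂ) := by
      intro z hz
      obtain ⟨σ, rfl⟩ := K.conj_eq hz
      exact Finset.mem_coe.2 (Finset.mem_image_of_mem _ (Finset.mem_image_of_mem _
        (Finset.mem_univ _)))
    have h3 := Set.ncard_le_ncard h2 (Finset.finite_toSet _)
    rw [Set.ncard_coe_finset, ← Nat.card_coe_set_eq, Nat.card_eq_fintype_card] at h3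
    exact h3.trans Finset.card_image_le
  rw [Set.mem_preimage]
  simp_rw [Set.mem_iUnion]
  refine ⟨minpoly ℤ K.DL, ⟨hdeg, fun i => ?_⟩, ?_⟩
  · rw [Set.mem_Icc, ← abs_le, ← @Int.cast_le ℝ]
    have h1 := Polynomial.coeff_bdd_of_roots_le (B := B) (algebraMap ℚ ℂ) (minpoly.monic hxQ)
      (IsAlgClosed.splits _) (d := n0)
      (by rw [hm, (minpoly.monic hx).natDegree_map]; exact hdeg) (fun z hz => by
        obtain ⟨σ, rfl⟩ := K.conj_eq (z := z) (by
          rw [Polynomial.mem_rootSet]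
          refine ⟨minpoly.ne_zero hxQ, ?_⟩
          rw [Polynomial.mem_roots', Polynomial.IsRoot.def, Polynomial.eval_map_algebraMap] at hz
          exact hz.2)
        rw [Complex.norm_real, Real.norm_eq_abs, abs_of_nonneg (by linarith [(K.Ds_spec σ).2])]
        exact hB σ) i
    refine (Eq.trans_le ?_ h1).trans (Nat.le_ceil _)
    rw [← hmap, coeff_map, eq_intCast, Complex.norm_intCast, Int.cast_abs]
  · rw [hmap]
    rw [Finset.mem_coe, Multiset.mem_toFinset, Polynomial.mem_roots', Polynomial.IsRoot.def,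
      Polynomial.eval_map_algebraMap]
    refine ⟨(Polynomial.map_ne_zero (minpoly.ne_zero hxQ)), ?_⟩
    rw [← hD, ← K.coe_DL]
    change aeval (algebraMap K.L ℂ K.DL) (minpoly ℚ K.DL) = 0
    rw [Polynomial.aeval_algebraMap_apply, minpoly.aeval, map_zero]

/-- CORE THEOREM: global dimensions of numeric data do not accumulate at `√2`. -/
theorem core : ∃ F : Set ℝ, F.Finite ∧ ∃ ε : ℝ, 0 < ε ∧ ∀ (𝒩 : NumData) (D : ℝ),
    𝒩.dim = (D : ℂ) → |D - Real.sqrt 2| < ε → D ∈ F := by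
  classical
  obtain ⟨n0, hn0⟩ : ∃ n : ℕ, n = 100000000 := ⟨_, rfl⟩
  obtain ⟨F, hF, h⟩ := core_aux n0 10000
  refine ⟨F, hF, 1 / 100000, by norm_num, ?_⟩
  intro 𝒩 D hD hnear
  obtain ⟨K⟩ := 𝒩.exists_fld
  obtain ⟨h1, h2⟩ := K.bounds hD hnear
  refine h 𝒩 K D hD h1 ?_
  rw [hn0]
  convert h2

end Pool.Agent.Lib.MP_d1a06a_al
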