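import Pool.Agent.Lib.MP_d1a06a_al.Maschke
import Pool.Agent.Lib.MP_d1a06a_al.Blocks

set_option autoImplicit false
set_option linter.unusedSectionVars false

open CategoryTheory MonoidalCategory CategoryTheory.Limits ExactPairing

namespace Pool.Agent.Lib.MP_d1a06a_al

open PivotalStructure

universe v u

variable {C : Type u} [Category.{v} C] [Preadditive C] [Linear ℂ C] [MonoidalCategory C]
  [MonoidalPreadditive C] [MonoidalLinear ℂ C] [RightRigidCategory C]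

namespace Sph

variable (Q : Sph C)

/-- retractions of `R` onto `X` -/
structure Ret (X : C) where
  a : X ⟶ Q.R
  b : Q.R ⟶ X
  ab : a ≫ b = 𝟙 X

/-- simple objects as retracts -/
def retS (i : Q.𝒮.ι) : Q.Ret (Q.𝒮.S i) := ⟨Q.iR i, Q.pR i, Q.iR_pR_same i⟩

/-- the unit as a retract -/
noncomputable def retU : Q.Ret (𝟙_ C) := ⟨Q.isoO.hom ≫ Q.iR Q.o, Q.pR Q.o ≫ Q.isoO.inv, by
  rw [Category.assoc, ← Category.assoc (Q.iR _), Q.iR_pR_same, Category.id_comp,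
    Iso.hom_inv_id]⟩

section up

variable {Q} {X Y Z : C} (ρ : Q.Ret X) (σ : Q.Ret Y) (τ : Q.Ret Z)

/-- corner embedding -/
noncomputable def up : Q.𝒮.T X Y →ₗ[ℂ] Q.A :=
  Q.toA.toLinearMap.comp ((Q.𝒮.preL (Q.𝒮.J _ _ ρ.b) Q.R).comp (Q.𝒮.postL X (Q.𝒮.J _ _ σ.a)))

lemma up_apply (f : Q.𝒮.T X Y) :
    up ρ σ f = Q.toA (Q.𝒮.comp (Q.𝒮.J _ _ ρ.b) (Q.𝒮.comp f (Q.𝒮.J _ _ σ.a))) := rfl

/-- corner projection -/
noncomputable def down : Q.A →ₗ[ℂ] Q.𝒮.T X Y :=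
  ((Q.𝒮.preL (Q.𝒮.J _ _ ρ.a) Y).comp (Q.𝒮.postL Q.R (Q.𝒮.J _ _ σ.b))).comp
    Q.toA.symm.toLinearMap

lemma down_toA (f : Q.𝒮.T Q.R Q.R) :
    down ρ σ (Q.toA f) = Q.𝒮.comp (Q.𝒮.J _ _ ρ.a) (Q.𝒮.comp f (Q.𝒮.J _ _ σ.b)) := rfl

lemma J_ab : Q.𝒮.comp (Q.𝒮.J _ _ ρ.a) (Q.𝒮.J _ _ ρ.b) = Q.𝒮.J _ _ (𝟙 X) := by
  rw [SSData.J_comp, ρ.ab]

lemma down_up (f : Q.𝒮.T X Y) : down ρ σ (up ρ σ f) = f := by
  rw [up_apply, down_toA, SSData.comp_assoc, SSData.comp_assoc, J_ab, SSData.comp_id_T,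
    ← SSData.comp_assoc, J_ab, SSData.id_comp_T]

lemma up_comp (f : Q.𝒮.T X Y) (g : Q.𝒮.T Y Z) :
    up ρ τ (Q.𝒮.comp f g) = up σ τ g * up ρ σ f := by
  rw [up_apply, up_apply, up_apply, ← toA_comp]
  simp only [SSData.comp_assoc]
  rw [← Q.𝒮.comp_assoc (Q.𝒮.J _ _ σ.a) (Q.𝒮.J _ _ σ.b), J_ab, SSData.id_comp_T]

/-- corner idempotent -/
noncomputable def idem : Q.A := up ρ ρ (Q.𝒮.J _ _ (𝟙 X))

lemma idem_eq : idem ρ = Q.toA (Q.𝒮.J _ _ (ρ.b ≫ ρ.a)) := by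
  rw [idem, up_apply, SSData.J_comp, SSData.J_comp, Category.id_comp]

lemma idem_mul_up (f : Q.𝒮.T X Y) : idem σ * up ρ σ f = up ρ σ f := by
  rw [idem, ← up_comp, SSData.comp_id_T]

lemma up_mul_idem (f : Q.𝒮.T X Y) : up ρ σ f * idem ρ = up ρ σ f := by
  rw [idem, ← up_comp, SSData.id_comp_T]

lemma idem_idem : idem ρ * idem ρ = idem ρ := up_mul_idem ρ ρ _

lemma up_down (x : Q.A) : up ρ σ (down ρ σ x) = idem σ * x * idem ρ := by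
  obtain ⟨x, rfl⟩ := Q.toA.surjective x
  rw [up_apply, down_toA, idem_eq, idem_eq, ← toA_comp, ← toA_comp, ← SSData.J_comp,
    ← SSData.J_comp]
  simp only [SSData.comp_assoc]

end up

instance : FiniteDimensional ℂ Q.A :=
  have := Q.𝒮.finiteDimensional_T Q.R Q.R
  Module.Finite.equiv Q.toA

/-- trace formula for corners -/
lemma trace_corner (B : Blocks Q.A) {X Y : C} (ρ : Q.Ret X) (σ : Q.Ret Y) (k : Q.𝒮.T X X)
    (g : Q.𝒮.T Y Y) (L : Q.𝒮.T X Y →ₗ[ℂ] Q.𝒮.T X Y)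
    (hL : ∀ f, L f = Q.𝒮.comp k (Q.𝒮.comp f g)) :
    LinearMap.trace ℂ _ L = ∑ j, B.tr j (up σ σ g) * B.tr j (up ρ ρ k) := by
  have := Q.𝒮.finiteDimensional_T X Y
  rw [← B.trace_mul_mul]
  have h1 : L = (L ∘ₗ down ρ σ) ∘ₗ up ρ σ := by
    refine LinearMap.ext fun f => ?_
    simp only [LinearMap.comp_apply, down_up]
  rw [h1, LinearMap.trace_comp_comm']
  congr 1
  refine LinearMap.ext fun x => ?_
  simp only [LinearMap.comp_apply, LinearMap.mulLeft_apply, LinearMap.mulRight_apply]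
  rw [hL, up_comp ρ ρ σ, up_comp ρ σ σ, up_down]
  calc _ = (up σ σ g * idem σ) * x * (idem ρ * up ρ ρ k) := by simp only [mul_assoc]
    _ = _ := by rw [up_mul_idem, idem_mul_up, mul_assoc]

/-- the twist of `R` as an element of the tube algebra -/
noncomputable def tw : Q.A := Q.toA (Q.𝒮.t Q.R)

lemma tw_central (a : Q.A) : a * Q.tw = Q.tw * a := by
  obtain ⟨a, rfl⟩ := Q.toA.surjective a
  rw [tw, ← toA_comp, ← toA_comp, SSData.t_central]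

lemma tw_unit : ∃ c', Q.tw * c' = 1 := by
  refine ⟨Q.toA (Q.𝒮.π (Q.Rᘁ : C) (ε_ Q.R (Q.Rᘁ : C) ≫ η_ Q.R (Q.Rᘁ : C))), ?_⟩
  rw [← tw_central, tw, ← toA_comp, SSData.t_inv, toA_one]

lemma cor_t {X : C} (ρ : Q.Ret X) : up ρ ρ (Q.𝒮.t X) = idem ρ * Q.tw := by
  rw [up_apply, ← SSData.t_central, tw_central, tw, idem_eq, ← toA_comp, ← SSData.comp_assoc,
    SSData.J_comp]

/-- multiplicities -/
lemma exists_v (B : Blocks Q.A) (j : Fin B.n) {X : C} (ρ : Q.Ret X) :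
    ∃ k : ℕ, B.tr j (idem ρ) = k :=
  B.tr_idem j _ (idem_idem ρ)

/-- multiplicity of the simple object `i` in the block `j` -/
noncomputable def v (B : Blocks Q.A) (j : Fin B.n) (i : Q.𝒮.ι) : ℕ :=
  (Q.exists_v B j (Q.retS i)).choose

lemma v_spec (B : Blocks Q.A) (j : Fin B.n) (i : Q.𝒮.ι) :
    B.tr j (up (Q.retS i) (Q.retS i) (Q.𝒮.J _ _ (𝟙 (Q.𝒮.S i)))) = (Q.v B j i : ℂ) :=
  (Q.exists_v B j (Q.retS i)).choose_spec

/-- twists of the blocks -/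
noncomputable def th (B : Blocks Q.A) (j : Fin B.n) : ℂ := B.th Q.tw Q.tw_central j

lemma th_ne (B : Blocks Q.A) (j : Fin B.n) : Q.th B j ≠ 0 := by
  obtain ⟨c', hc'⟩ := Q.tw_unit
  exact B.th_ne_zero Q.tw Q.tw_central c' hc' j

/-- (T1) in terms of blocks -/
lemma T1 (B : Blocks Q.A) (x y : Q.𝒮.ι) :
    ∑ j, Q.th B j * Q.v B j x * Q.v B j y =
      ∑ j, (Q.v B j x : ℂ) * B.tr j (up Q.retU Q.retU (Q.𝒮.K (Q.𝒮.S y))) := by
  have h := Q.𝒮.trace_identity (Q.𝒮.S x) (Q.𝒮.S y)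
  rw [Q.trace_corner B (Q.retS y) (Q.retS x) (Q.𝒮.J _ _ (𝟙 _)) (Q.𝒮.t _) (Q.𝒮.postL _ _)
    (by intro f; rw [SSData.id_comp_T]; rfl),
    Q.trace_corner B Q.retU (Q.retS x) (Q.𝒮.K _) (Q.𝒮.J _ _ (𝟙 _)) (Q.𝒮.preL _ _)
    (by intro f; rw [SSData.comp_id_T]; rfl)] at h
  have h1 : ∀ j, B.tr j (up (Q.retS x) (Q.retS x) (Q.𝒮.t (Q.𝒮.S x))) =
      Q.th B j * Q.v B j x := by
    intro j
    rw [cor_t, B.tr_mul_central Q.tw Q.tw_central, idem, v_spec]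
    rfl
  simp only [v_spec, h1] at h
  exact h

/-- (T0): dimensions of tube spaces -/
lemma T0 (B : Blocks Q.A) (x y : Q.𝒮.ι) :
    (Module.finrank ℂ (Q.𝒮.T (Q.𝒮.S y) (Q.𝒮.S x)) : ℂ) =
      ∑ j, (Q.v B j x : ℂ) * Q.v B j y := by
  have := Q.𝒮.finiteDimensional_T (Q.𝒮.S y) (Q.𝒮.S x)
  rw [← LinearMap.trace_id,
    Q.trace_corner B (Q.retS y) (Q.retS x) (Q.𝒮.J _ _ (𝟙 _)) (Q.𝒮.J _ _ (𝟙 _)) LinearMap.id
    (by intro f; rw [SSData.id_comp_T, SSData.comp_id_T]; rfl)]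
  simp only [v_spec]

/-- eigenspaces of the twist -/
lemma finrank_eigT (B : Blocks Q.A) (x y : Q.𝒮.ι) (θ : ℂ) :
    (Module.finrank ℂ (Q.𝒮.eigT (Q.𝒮.S y) θ (Q.𝒮.S x)) : ℂ) =
      ∑ j, if Q.th B j = θ then (Q.v B j x : ℂ) * Q.v B j y else 0 := by
  have := Q.𝒮.finiteDimensional_T (Q.𝒮.S y) (Q.𝒮.S x)
  obtain ⟨z, hz⟩ := Q.toA.surjective (B.ze Q.tw Q.tw_central θ)
  let σ := Q.retS x
  let ρ := Q.retS y
  let g : Q.𝒮.T (Q.𝒮.S x) (Q.𝒮.S x) := down σ σ (Q.toA z)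
  have hg : up σ σ g = B.ze Q.tw Q.tw_central θ * idem σ := by
    have h1 : up σ σ g = idem σ * (B.ze Q.tw Q.tw_central θ) * idem σ := by
      rw [← up_down, ← hz]
    rw [h1, B.ze_central, mul_assoc, idem_idem]
  have hproj : LinearMap.IsProj (Q.𝒮.eigT (Q.𝒮.S y) θ (Q.𝒮.S x))
      (Q.𝒮.postL (Q.𝒮.S y) g) := by
    constructor
    · intro f
      rw [SSData.mem_eigT, SSData.postL_apply]
      have h1 : up ρ σ (Q.𝒮.comp (Q.𝒮.comp f g) (Q.𝒮.t (Q.𝒮.S x))) =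
          up ρ σ (θ • Q.𝒮.comp f g) := by
        rw [map_smul, up_comp ρ σ σ, up_comp ρ σ σ, hg, cor_t, mul_assoc, mul_assoc,
          idem_mul_up, ← mul_assoc Q.tw, ← tw_central, B.ze_mul, smul_mul_assoc, mul_smul_comm,
          ← mul_assoc (idem σ), B.ze_central, mul_assoc, idem_mul_up]
      have := congrArg (down ρ σ) h1
      rwa [down_up, down_up] at this
    · intro f hf
      rw [SSData.mem_eigT] at hf
      rw [SSData.postL_apply]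
      have h1 : up ρ σ (Q.𝒮.comp f g) = up ρ σ f := by
        rw [up_comp ρ σ σ, hg, mul_assoc, idem_mul_up, ← B.ze_central]
        refine B.mul_ze_of_eigen Q.tw Q.tw_central θ _ ?_
        have h3 := congrArg (up ρ σ) hf
        rwa [map_smul, up_comp ρ σ σ, cor_t, mul_assoc, ← tw_central, ← mul_assoc,
          idem_mul_up] at h3
      have := congrArg (down ρ σ) h1
      rwa [down_up, down_up] at this
  rw [← hproj.trace, Q.trace_corner B ρ σ (Q.𝒮.J _ _ (𝟙 _)) g _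
    (by intro f; rw [SSData.id_comp_T]; rfl)]
  refine Finset.sum_congr rfl fun j _ => ?_
  rw [hg, ← B.ze_central, B.tr_mul_ze]
  have h1 : B.tr j (idem σ) = Q.v B j x := Q.v_spec B j x
  have h2 : B.tr j (up ρ ρ (Q.𝒮.J _ _ (𝟙 (Q.𝒮.S y)))) = Q.v B j y := Q.v_spec B j y
  rw [h1, h2, ite_mul, zero_mul]
  rfl

end Sph

end Pool.Agent.Lib.MP_d1a06a_al
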