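import Pool.Agent.Lib.MP_d1a06a_al.Tube

set_option autoImplicit false

open CategoryTheory MonoidalCategory

namespace Pool.Agent.Lib.MP_d1a06a_al

universe v u w

/-- A linear functor `H` from `C` to finite-dimensional vector spaces with isomorphisms
`H (M ⊗ N) ≅ H (N ⊗ M)` that compose to the scalar `θ` (a module of the tube category on which
the twist acts by `θ`). -/
structure CycFunctor (C : Type u) [Category.{v} C] [Preadditive C] [Linear ℂ C]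
    [MonoidalCategory C] where
  H : C → Type w
  [acg : ∀ M, AddCommGroup (H M)]
  [mod : ∀ M, Module ℂ (H M)]
  [fd : ∀ M, FiniteDimensional ℂ (H M)]
  map : ∀ {M N : C}, (M ⟶ N) →ₗ[ℂ] H M →ₗ[ℂ] H N
  map_id : ∀ M, map (𝟙 M) = LinearMap.id
  map_comp : ∀ {M N P : C} (f : M ⟶ N) (g : N ⟶ P), map (f ≫ g) = map g ∘ₗ map f
  ρ : ∀ M N : C, H (M ⊗ N) →ₗ[ℂ] H (N ⊗ M)
  ρ_nat_left : ∀ {M M' : C} (N : C) (f : M ⟶ M'), map (N ◁ f) ∘ₗ ρ M N = ρ M' N ∘ₗ map (f ▷ N)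
  ρ_nat_right : ∀ (M : C) {N N' : C} (g : N ⟶ N'), map (g ▷ M) ∘ₗ ρ M N = ρ M N' ∘ₗ map (M ◁ g)
  θ : ℂ
  ρ_ρ : ∀ M N, ρ N M ∘ₗ ρ M N = θ • LinearMap.id
  hexagon : ∀ M N P, ρ M (N ⊗ P) = map (α_ N P M).inv ∘ₗ ρ (P ⊗ M) N ∘ₗ map (α_ P M N).inv ∘ₗ
    ρ (M ⊗ N) P ∘ₗ map (α_ M N P).inv

attribute [instance] CycFunctor.acg CycFunctor.mod CycFunctor.fd

variable {C : Type u} [Category.{v} C] [Preadditive C] [Linear ℂ C] [MonoidalCategory C]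
  [MonoidalPreadditive C] [MonoidalLinear ℂ C]

/-- fusion coefficients -/
def SSData.N (𝒮 : SSData C) (i j k : 𝒮.ι) : ℕ :=
  (Finset.univ.filter (fun l => 𝒮.c (𝒮.S i ⊗ 𝒮.S j) l = k)).card

end Pool.Agent.Lib.MP_d1a06a_al
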