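import Mathlib

set_option autoImplicit false

open CategoryTheory MonoidalCategory CategoryTheory.Limits

namespace Pool.Agent.Lib.MP_d1a06a_al

universe v u

attribute [local instance] Abelian.hasFiniteBiproducts

/-- `C` is a fusion category over `ℂ`: a `ℂ`-linear abelian rigid monoidal category (with
bilinear tensor product) which is semisimple (every object is a finite direct sum of simple
objects), has finite-dimensional morphism spaces, finitely many isomorphism classes of simple
objects, and a simple unit object. -/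
structure IsFusionCategory (C : Type u) [Category.{v} C] [Abelian C] [Linear ℂ C]
    [MonoidalCategory C] [MonoidalPreadditive C] [MonoidalLinear ℂ C] [RigidCategory C] :
    Prop where
  finiteDimensional_hom : ∀ X Y : C, FiniteDimensional ℂ (X ⟶ Y)
  simple_unit : Simple (𝟙_ C)
  finitely_many_simples : ∃ (n : ℕ) (S : Fin n → C), ∀ X : C, Simple X → ∃ i, Nonempty (X ≅ S i)
  semisimple : ∀ X : C, ∃ (n : ℕ) (S : Fin n → C), (∀ i, Simple (S i)) ∧ Nonempty (X ≅ ⨁ S)

/-- A pivotal structure on a rigid monoidal category: a tensor isomorphism `δ` from the identity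
functor to the double dual functor `X ↦ Xᘁᘁ`.  The tensor structure of the double dual functor is
given by the canonical isomorphism
`(X ⊗ Y)ᘁᘁ ≅ (Yᘁ ⊗ Xᘁ)ᘁ ≅ Xᘁᘁ ⊗ Yᘁᘁ`. -/
structure PivotalStructure (C : Type u) [Category.{v} C] [MonoidalCategory C]
    [RightRigidCategory C] where
  δ : ∀ X : C, X ≅ ((Xᘁ : C)ᘁ : C)
  naturality : ∀ {X Y : C} (f : X ⟶ Y), f ≫ (δ Y).hom = (δ X).hom ≫ (fᘁ)ᘁ
  tensor : ∀ X Y : C, (δ (X ⊗ Y)).hom ≫ ((rightDualTensorIso X Y).inv)ᘁ ≫
    (rightDualTensorIso (Yᘁ : C) (Xᘁ : C)).hom = (δ X).hom ⊗ₘ (δ Y).hom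

namespace PivotalStructure

variable {C : Type u} [Category.{v} C] [MonoidalCategory C] [RightRigidCategory C]

/-- The quantum dimension `dim_δ(X) = Tr(δ_X)`, as an endomorphism of the unit object: the
composite `𝟙 ⟶ X ⊗ X* ⟶ X** ⊗ X* ⟶ 𝟙`. -/
def dim (P : PivotalStructure C) (X : C) : 𝟙_ C ⟶ 𝟙_ C :=
  η_ X (Xᘁ : C) ≫ (P.δ X).hom ▷ (Xᘁ : C) ≫ ε_ (Xᘁ : C) ((Xᘁ : C)ᘁ : C)

/-- A pivotal structure is spherical if `dim(X) = dim(X*)` for all `X`. -/
def IsSpherical (P : PivotalStructure C) : Prop := ∀ X : C, P.dim X = P.dim (Xᘁ : C)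

end PivotalStructure

/-- The set `X_s` of global dimensions of spherical fusion categories: `D` belongs to it if there
are a fusion category `C`, a spherical structure `P` on `C` and a list `S` of representatives of
the isomorphism classes of simple objects such that `∑ dim(S i)² = D`. (`End(𝟙) = ℂ`, so this is
an equation between scalars.) -/
def sphericalDims : Set ℝ :=
  {D | ∃ (C : Type u) (_ : Category.{v} C) (_ : Abelian C) (_ : Linear ℂ C)
    (_ : MonoidalCategory C) (_ : MonoidalPreadditive C) (_ : MonoidalLinear ℂ C)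
    (_ : RigidCategory C) (P : PivotalStructure C) (n : ℕ) (S : Fin n → C),
    IsFusionCategory C ∧ P.IsSpherical ∧
    (∀ i, Simple (S i)) ∧ (∀ i j, Nonempty (S i ≅ S j) → i = j) ∧
    (∀ X : C, Simple X → ∃ i, Nonempty (X ≅ S i)) ∧
    ∑ i, P.dim (S i) ≫ P.dim (S i) = (D : ℂ) • 𝟙 (𝟙_ C)}

end Pool.Agent.Lib.MP_d1a06a_al
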