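import Pool.Agent.Lib.MP_d1a06a_al.Fusion

set_option autoImplicit false
set_option linter.unusedSectionVars false

open CategoryTheory MonoidalCategory CategoryTheory.Limits ExactPairing

namespace Pool.Agent.Lib.MP_d1a06a_al

open PivotalStructure

universe v u

section Frob

variable {C : Type u} [Category.{v} C] [Preadditive C] [Linear ℂ C] [MonoidalCategory C]
  [MonoidalPreadditive C] [MonoidalLinear ℂ C]

/-- linear version of `tensorRightHomEquiv` -/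
def frobR (X Y Y' Z : C) [ExactPairing Y Y'] : (X ⊗ Y ⟶ Z) ≃ₗ[ℂ] (X ⟶ Z ⊗ Y') where
  toFun := tensorRightHomEquiv X Y Y' Z
  invFun := (tensorRightHomEquiv X Y Y' Z).symm
  map_add' := by intros; simp [tensorRightHomEquiv]
  map_smul' := by intros; simp [tensorRightHomEquiv]
  left_inv := (tensorRightHomEquiv X Y Y' Z).left_inv
  right_inv := (tensorRightHomEquiv X Y Y' Z).right_inv

/-- linear version of `tensorLeftHomEquiv` -/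
def frobL (X Y Y' Z : C) [ExactPairing Y Y'] : (Y' ⊗ X ⟶ Z) ≃ₗ[ℂ] (X ⟶ Y ⊗ Z) where
  toFun := tensorLeftHomEquiv X Y Y' Z
  invFun := (tensorLeftHomEquiv X Y Y' Z).symm
  map_add' := by intros; simp [tensorLeftHomEquiv]
  map_smul' := by intros; simp [tensorLeftHomEquiv]
  left_inv := (tensorLeftHomEquiv X Y Y' Z).left_inv
  right_inv := (tensorLeftHomEquiv X Y Y' Z).right_inv

end Frob

/-- spherical data -/
structure Sph (C : Type u) [Category.{v} C] [Preadditive C] [Linear ℂ C] [MonoidalCategory C]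
    [MonoidalPreadditive C] [MonoidalLinear ℂ C] [RightRigidCategory C] where
  𝒮 : SSData C
  P : PivotalStructure C
  sph : P.IsSpherical
  unit_ne : (𝟙 (𝟙_ C) : 𝟙_ C ⟶ 𝟙_ C) ≠ 0
  unit_sc : ∀ f : 𝟙_ C ⟶ 𝟙_ C, ∃ z : ℂ, f = z • 𝟙 _
  R : C
  iR : ∀ i, 𝒮.S i ⟶ R
  pR : ∀ i, R ⟶ 𝒮.S i
  iR_pR_same : ∀ i, iR i ≫ pR i = 𝟙 _
  iR_pR_ne : ∀ i j, i ≠ j → iR i ≫ pR j = 0
  totalR : ∑ i, pR i ≫ iR i = 𝟙 R

namespace Sph

variable {C : Type u} [Category.{v} C] [Preadditive C] [Linear ℂ C] [MonoidalCategory C]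
  [MonoidalPreadditive C] [MonoidalLinear ℂ C] [RightRigidCategory C] (Q : Sph C)

lemma exists_o : ∃ i, Nonempty (𝟙_ C ≅ Q.𝒮.S i) := Q.𝒮.exists_iso _ Q.unit_ne Q.unit_sc

/-- the unit -/
noncomputable def o : Q.𝒮.ι := Q.exists_o.choose

/-- the iso with the unit -/
noncomputable def isoO : 𝟙_ C ≅ Q.𝒮.S Q.o := Q.exists_o.choose_spec.some

@[simp] lemma dim_one : Q.P.dim (𝟙_ C) = 𝟙 _ := Q.P.dim_unit Q.𝒮 Q.unit_ne Q.unit_sc

lemma mate_smul {X Y : C} (z : ℂ) (f : X ⟶ Y) : mate (z • f) = z • mate f := by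
  simp [mate, rightAdjointMate]

lemma mate_id (X : C) : mate (𝟙 X) = 𝟙 (D X) := rightAdjointMate_id

include Q in
lemma dual_scalar {X : C} (hX : ∀ f : X ⟶ X, ∃ z : ℂ, f = z • 𝟙 X) (f : D X ⟶ D X) :
    ∃ z : ℂ, f = z • 𝟙 (D X) := by
  obtain ⟨z, hz⟩ := hX ((Q.P.δ X).hom ≫ mate f ≫ (Q.P.δ X).inv)
  refine ⟨z, ?_⟩
  have h1 : mate f = z • 𝟙 _ := by
    calc mate f = (Q.P.δ X).inv ≫ ((Q.P.δ X).hom ≫ mate f ≫ (Q.P.δ X).inv) ≫ (Q.P.δ X).hom := by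
          simp
      _ = _ := by rw [hz]; simp
  have h2 : f = (Q.P.δ (D X)).hom ≫ mate (mate f) ≫ (Q.P.δ (D X)).inv := by
    have := Q.P.naturality f
    rw [← Category.assoc]
    change f = ((Q.P.δ (D X)).hom ≫ (fᘁ)ᘁ) ≫ (Q.P.δ (D X)).inv
    rw [← this]
    simp
  rw [h2, h1, mate_smul, mate_id]
  simp

lemma id_zero_of_dual (X : C) (h : 𝟙 (D X) = 0) : 𝟙 X = 0 := by
  apply id_zero_of_co
  calc co X = co X ≫ X ◁ (𝟙 (D X)) := by simp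
    _ = 0 := by rw [h]; simp

lemma exists_star (i : Q.𝒮.ι) : ∃ j, Nonempty (D (Q.𝒮.S i) ≅ Q.𝒮.S j) :=
  Q.𝒮.exists_iso _ (fun h => Q.𝒮.ne_zero i (id_zero_of_dual _ h))
    (Q.dual_scalar (Q.𝒮.scalar i))

/-- the dual simple object -/
noncomputable def star (i : Q.𝒮.ι) : Q.𝒮.ι := (Q.exists_star i).choose

/-- the isomorphism with the dual -/
noncomputable def isoStar (i : Q.𝒮.ι) : D (Q.𝒮.S i) ≅ Q.𝒮.S (Q.star i) :=
  (Q.exists_star i).choose_spec.some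

/-- left multiplication duality -/
lemma N_dual_left (i j k : Q.𝒮.ι) : Q.𝒮.N i j k = Q.𝒮.N (Q.star i) k j := by
  let _ : ExactPairing (D (Q.𝒮.S i)) (Q.𝒮.S i) := Q.P.pair (Q.𝒮.S i)
  rw [SSData.N_eq_cnt, SSData.N_eq_cnt, ← SSData.finrank_to_S,
    ← Q.𝒮.cnt_iso (whiskerRightIso (Q.isoStar i) (Q.𝒮.S k)), ← SSData.finrank_from_S]
  exact LinearEquiv.finrank_eq (frobL (Q.𝒮.S j) (D (Q.𝒮.S i)) (Q.𝒮.S i) (Q.𝒮.S k))

/-- right multiplication duality -/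
lemma N_dual_right (i j k : Q.𝒮.ι) : Q.𝒮.N i j k = Q.𝒮.N k (Q.star j) i := by
  rw [SSData.N_eq_cnt, SSData.N_eq_cnt, ← SSData.finrank_to_S,
    ← Q.𝒮.cnt_iso (whiskerLeftIso (Q.𝒮.S k) (Q.isoStar j)), ← SSData.finrank_from_S]
  exact LinearEquiv.finrank_eq (frobR (Q.𝒮.S i) (Q.𝒮.S j) (D (Q.𝒮.S j)) (Q.𝒮.S k))

/-- scalar of an endomorphism of the unit -/
noncomputable def us (f : 𝟙_ C ⟶ 𝟙_ C) : ℂ := (Q.unit_sc f).choose

lemma us_smul (f : 𝟙_ C ⟶ 𝟙_ C) : Q.us f • 𝟙 _ = f := (Q.unit_sc f).choose_spec.symm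

lemma us_eq_iff (f : 𝟙_ C ⟶ 𝟙_ C) (z : ℂ) : Q.us f = z ↔ f = z • 𝟙 _ := by
  constructor
  · rintro rfl
    rw [Q.us_smul]
  · intro h
    have h1 := Q.us_smul f
    have h2 : (Q.us f - z) • 𝟙 (𝟙_ C) = 0 := by rw [sub_smul, h1, h, sub_self]
    rcases smul_eq_zero.1 h2 with h3 | h3
    · exact sub_eq_zero.1 h3
    · exact absurd h3 Q.unit_ne

/-- dimension as a number -/
noncomputable def dn (X : C) : ℂ := Q.us (Q.P.dim X)

lemma dim_eq_dn (X : C) : Q.P.dim X = Q.dn X • 𝟙 _ := (Q.us_smul _).symm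

/-- the vacuum functional on tubes from `𝟙` to `𝟙` -/
lemma vac_K_sum (f : Q.𝒮.T (𝟙_ C) (𝟙_ C)) :
    Q.P.vac Q.𝒮 _ _ f (𝟙 _) = (∑ i, Q.𝒮.coef i f * Q.dn (Q.𝒮.S i)) • 𝟙 _ := by
  conv_lhs => rw [Q.𝒮.expand_coef f]
  rw [map_sum, LinearMap.sum_apply, Finset.sum_smul]
  refine Finset.sum_congr rfl fun i _ => ?_
  rw [map_smul, LinearMap.smul_apply, vac_K, dim_eq_dn, smul_smul]

lemma dn_iso {X Y : C} (f : X ≅ Y) : Q.dn X = Q.dn Y := by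
  have h := Q.P.vac_K Q.𝒮 X
  rw [Q.𝒮.K_iso f, vac_K] at h
  rw [dn, dn, h]

lemma dn_eq_sum (M : C) : Q.dn M = ∑ k, (Q.𝒮.cnt M k : ℂ) * Q.dn (Q.𝒮.S k) := by
  rw [dn, us_eq_iff]
  have h := Q.P.vac_K Q.𝒮 M
  rw [Q.𝒮.K_eq_sum', map_sum, LinearMap.sum_apply] at h
  rw [← h, Finset.sum_smul]
  refine Finset.sum_congr rfl fun i _ => ?_
  rw [map_smul, LinearMap.smul_apply, vac_K, dim_eq_dn, smul_smul]

lemma dn_tensor (X Y : C) : Q.dn (X ⊗ Y) = Q.dn X * Q.dn Y := by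
  rw [dn, us_eq_iff]
  have h := Q.P.vac_comp Q.𝒮 (Q.𝒮.K Y) (Q.𝒮.K X) (𝟙 _)
  rw [SSData.comp_K_K, vac_K, vac_K, dim_eq_dn Q Y, map_smul, vac_K, dim_eq_dn Q X] at h
  rw [h, smul_smul, mul_comm]

lemma dn_dual (X : C) : Q.dn (D X) = Q.dn X := by
  rw [dn, dn, Q.sph X]

@[simp] lemma dn_unit : Q.dn (𝟙_ C) = 1 := by
  rw [dn, us_eq_iff, dim_one, one_smul]

/-- dimensions of simple objects -/
noncomputable def d (i : Q.𝒮.ι) : ℂ := Q.dn (Q.𝒮.S i)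

lemma d_o : Q.d Q.o = 1 := by rw [d, ← Q.dn_iso Q.isoO, dn_unit]

lemma d_mul (i j : Q.𝒮.ι) : Q.d i * Q.d j = ∑ k, (Q.𝒮.N i j k : ℂ) * Q.d k := by
  rw [d, d, ← dn_tensor, dn_eq_sum]
  rfl

lemma d_star (i : Q.𝒮.ι) : Q.d (Q.star i) = Q.d i := by
  rw [d, ← Q.dn_iso (Q.isoStar i), dn_dual, d]

end Sph

end Pool.Agent.Lib.MP_d1a06a_al
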