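import Pool.Agent.Lib.MP_d1a06a_al.Vacuum

set_option autoImplicit false
set_option linter.unusedSectionVars false

open CategoryTheory MonoidalCategory CategoryTheory.Limits ExactPairing

namespace Pool.Agent.Lib.MP_d1a06a_al

universe v u

namespace SSData

variable {C : Type u} [Category.{v} C] [Preadditive C] [Linear ℂ C] [MonoidalCategory C]
  [MonoidalPreadditive C] [MonoidalLinear ℂ C] (𝒮 : SSData C)

@[simp] lemma sc_e (i j : 𝒮.ι) : 𝒮.sc (𝒮.e i j) = if i = j then 1 else 0 := by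
  split_ifs with h
  · subst h; simp
  · rw [𝒮.e_ne h, 𝒮.sc_zero]

/-- number of summands of type `k` -/
def cnt (M : C) (k : 𝒮.ι) : ℕ := (Finset.univ.filter (fun l => 𝒮.c M l = k)).card

lemma cnt_eq_sum (M : C) (k : 𝒮.ι) :
    (𝒮.cnt M k : ℂ) = ∑ l, if 𝒮.c M l = k then (1 : ℂ) else 0 := by
  simp [cnt]

lemma N_eq_cnt (i j k : 𝒮.ι) : 𝒮.N i j k = 𝒮.cnt (𝒮.S i ⊗ 𝒮.S j) k := rfl

lemma finrank_to_S (M : C) (k : 𝒮.ι) : Module.finrank ℂ (M ⟶ 𝒮.S k) = 𝒮.cnt M k := by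
  have := 𝒮.finiteDimensional_hom M (𝒮.S k)
  have h : LinearMap.trace ℂ (M ⟶ 𝒮.S k) LinearMap.id = (𝒮.cnt M k : ℂ) := by
    let e : Fin (𝒮.n M) → (M ⟶ 𝒮.S k) := fun l => 𝒮.proj M l ≫ 𝒮.e _ k
    let φ : Fin (𝒮.n M) → (M ⟶ 𝒮.S k) →ₗ[ℂ] ℂ := fun l =>
      { toFun := fun f => 𝒮.sc (𝒮.inc M l ≫ f)
        map_add' := by intros; simp
        map_smul' := by intros; simp }
    rw [trace_of_resolution e φ]
    · rw [cnt_eq_sum]
      refine Finset.sum_congr rfl fun l _ => ?_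
      simp only [φ, e, LinearMap.id_apply, LinearMap.coe_mk, AddHom.coe_mk]
      rw [← Category.assoc, 𝒮.inc_proj_same, Category.id_comp, sc_e]
    · intro f
      conv_rhs => rw [← Category.id_comp f, ← 𝒮.total M, Preadditive.sum_comp]
      refine Finset.sum_congr rfl fun l _ => ?_
      simp only [φ, e, LinearMap.coe_mk, AddHom.coe_mk]
      rw [Category.assoc, ← Linear.comp_smul, 𝒮.sc_smul]
  rw [LinearMap.trace_id] at h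
  exact_mod_cast h

lemma finrank_from_S (M : C) (k : 𝒮.ι) : Module.finrank ℂ (𝒮.S k ⟶ M) = 𝒮.cnt M k := by
  have := 𝒮.finiteDimensional_hom (𝒮.S k) M
  have h : LinearMap.trace ℂ (𝒮.S k ⟶ M) LinearMap.id = (𝒮.cnt M k : ℂ) := by
    let e : Fin (𝒮.n M) → (𝒮.S k ⟶ M) := fun l => 𝒮.e k _ ≫ 𝒮.inc M l
    let φ : Fin (𝒮.n M) → (𝒮.S k ⟶ M) →ₗ[ℂ] ℂ := fun l =>
      { toFun := fun f => 𝒮.sc (f ≫ 𝒮.proj M l)
        map_add' := by intros; simp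
        map_smul' := by intros; simp }
    rw [trace_of_resolution e φ]
    · rw [cnt_eq_sum]
      refine Finset.sum_congr rfl fun l _ => ?_
      simp only [φ, e, LinearMap.id_apply, LinearMap.coe_mk, AddHom.coe_mk]
      rw [Category.assoc, 𝒮.inc_proj_same, Category.comp_id, sc_e]
      simp only [eq_comm]
    · intro f
      conv_rhs => rw [← Category.comp_id f, ← 𝒮.total M, Preadditive.comp_sum]
      refine Finset.sum_congr rfl fun l _ => ?_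
      simp only [φ, e, LinearMap.coe_mk, AddHom.coe_mk]
      rw [← Category.assoc, ← Linear.smul_comp, 𝒮.sc_smul]
  rw [LinearMap.trace_id] at h
  exact_mod_cast h

lemma cnt_iso {M M' : C} (f : M ≅ M') (k : 𝒮.ι) : 𝒮.cnt M k = 𝒮.cnt M' k := by
  rw [← finrank_to_S, ← finrank_to_S]
  exact LinearEquiv.finrank_eq
    { toFun := fun g => f.inv ≫ g
      invFun := fun g => f.hom ≫ g
      map_add' := by intros; simp
      map_smul' := by intros; simp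
      left_inv := by intro g; simp
      right_inv := by intro g; simp }

lemma finrank_hom (M N : C) : (Module.finrank ℂ (M ⟶ N) : ℂ) =
    ∑ k, (𝒮.cnt M k : ℂ) * 𝒮.cnt N k := by
  have := 𝒮.finiteDimensional_hom M N
  have h : LinearMap.trace ℂ (M ⟶ N) LinearMap.id = ∑ k, (𝒮.cnt M k : ℂ) * 𝒮.cnt N k := by
    let α := Fin (𝒮.n M) × Fin (𝒮.n N)
    let e : α → (M ⟶ N) := fun a => 𝒮.proj M a.1 ≫ 𝒮.e _ _ ≫ 𝒮.inc N a.2
    let φ : α → (M ⟶ N) →ₗ[ℂ] ℂ := fun a =>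
      { toFun := fun f => 𝒮.sc (𝒮.inc M a.1 ≫ f ≫ 𝒮.proj N a.2)
        map_add' := by intros; simp
        map_smul' := by intros; simp }
    rw [trace_of_resolution e φ]
    · simp only [Fintype.sum_prod_type, α, cnt_eq_sum, Finset.sum_mul_sum]
      rw [Finset.sum_comm]
      conv_rhs => rw [Finset.sum_comm]
      rw [Finset.sum_comm]
      refine Finset.sum_congr rfl fun l _ => ?_
      rw [Finset.sum_comm]
      refine Finset.sum_congr rfl fun m _ => ?_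
      simp only [φ, e, LinearMap.id_apply, LinearMap.coe_mk, AddHom.coe_mk]
      rw [show 𝒮.inc M l ≫ (𝒮.proj M l ≫ 𝒮.e (𝒮.c M l) (𝒮.c N m) ≫ 𝒮.inc N m) ≫ 𝒮.proj N m =
        (𝒮.inc M l ≫ 𝒮.proj M l) ≫ 𝒮.e (𝒮.c M l) (𝒮.c N m) ≫ (𝒮.inc N m ≫ 𝒮.proj N m) by simp,
        𝒮.inc_proj_same, 𝒮.inc_proj_same, Category.comp_id, Category.id_comp, sc_e]
      simp [eq_comm]
    · intro f
      rw [Fintype.sum_prod_type]
      exact (𝒮.hom_expand f).symm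
  rw [LinearMap.trace_id] at h
  exact h

lemma finrank_T (X Y : C) : (Module.finrank ℂ (𝒮.T X Y) : ℂ) =
    ∑ w, ∑ k, (𝒮.cnt (𝒮.S w ⊗ X) k : ℂ) * 𝒮.cnt (Y ⊗ 𝒮.S w) k := by
  have := 𝒮.finiteDimensional_hom
  rw [Module.finrank_pi_fintype]
  push_cast
  exact Finset.sum_congr rfl fun w _ => 𝒮.finrank_hom _ _

/-- recognition of simple objects -/
lemma exists_iso (M : C) (h0 : 𝟙 M ≠ 0) (hs : ∀ f : M ⟶ M, ∃ z : ℂ, f = z • 𝟙 M) :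
    ∃ i, Nonempty (M ≅ 𝒮.S i) := by
  have h1 : ∃ k, 𝒮.proj M k ≫ 𝒮.inc M k ≠ 0 := by
    by_contra h
    push Not at h
    apply h0
    rw [← 𝒮.total M]
    exact Finset.sum_eq_zero fun k _ => h k
  obtain ⟨k, hk⟩ := h1
  obtain ⟨z, hz⟩ := hs (𝒮.proj M k ≫ 𝒮.inc M k)
  have h2 : z = 1 := by
    have h3 : (𝒮.proj M k ≫ 𝒮.inc M k) ≫ (𝒮.proj M k ≫ 𝒮.inc M k) =
        𝒮.proj M k ≫ 𝒮.inc M k := by
      rw [Category.assoc, ← Category.assoc (𝒮.inc M k), 𝒮.inc_proj_same, Category.id_comp]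
    rw [hz] at h3
    have h4 : (z * z) • 𝟙 M = z • 𝟙 M := by simpa [mul_smul] using h3
    have h5 : z * z = z := by
      have : (z * z - z) • 𝟙 M = 0 := by rw [sub_smul, h4, sub_self]
      rcases smul_eq_zero.1 this with h6 | h6
      · exact sub_eq_zero.1 h6
      · exact absurd h6 h0
    have h6 : z ≠ 0 := by
      rintro rfl
      rw [zero_smul] at hz
      exact hk hz
    exact mul_left_cancel₀ h6 (by rw [h5, mul_one])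
  exact ⟨𝒮.c M k, ⟨⟨𝒮.proj M k, 𝒮.inc M k, by rw [hz, h2, one_smul], 𝒮.inc_proj_same M k⟩⟩⟩

/-! ### classes of objects in `T 𝟙 𝟙` -/

lemma K_iso {M M' : C} (f : M ≅ M') : 𝒮.K M = 𝒮.K M' := by
  rw [K, K, ← 𝒮.π_iso f]
  congr 1
  simp

lemma K_eq_sum (M : C) : 𝒮.K M = ∑ l, 𝒮.K (𝒮.S (𝒮.c M l)) := by
  rw [K, π_apply]
  refine Finset.sum_congr rfl fun l _ => ?_
  rw [K, π_S]
  congr 1
  have h : 𝒮.inc M l ▷ 𝟙_ C ≫ ((ρ_ M).hom ≫ (λ_ M).inv) ≫ 𝟙_ C ◁ 𝒮.proj M l =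
      (ρ_ _).hom ≫ (𝒮.inc M l ≫ 𝒮.proj M l) ≫ (λ_ _).inv := by simp
  rw [h, 𝒮.inc_proj_same, Category.id_comp]

lemma K_eq_sum' (M : C) : 𝒮.K M = ∑ k, (𝒮.cnt M k : ℂ) • 𝒮.K (𝒮.S k) := by
  rw [K_eq_sum]
  simp only [cnt_eq_sum, Finset.sum_smul]
  rw [Finset.sum_comm]
  refine Finset.sum_congr rfl fun l _ => ?_
  simp [ite_smul]

lemma comp_K_K (Y Z : C) : 𝒮.comp (𝒮.K Y) (𝒮.K Z) = 𝒮.K (Z ⊗ Y) := by
  rw [K, K, comp_ππ, K]
  congr 1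
  simp only [tc]
  monoidal

lemma T_unit_expand (f : 𝒮.T (𝟙_ C) (𝟙_ C)) :
    f = ∑ i, 𝒮.sc ((ρ_ _).inv ≫ f i ≫ (λ_ _).hom) • 𝒮.K (𝒮.S i) := by
  conv_lhs => rw [← 𝒮.sum_sg f]
  refine Finset.sum_congr rfl fun i _ => ?_
  rw [K, π_S, ← map_smul]
  congr 1
  have h := 𝒮.sc_smul ((ρ_ (𝒮.S i)).inv ≫ f i ≫ (λ_ _).hom)
  rw [e_self] at h
  calc f i = (ρ_ _).hom ≫ ((ρ_ (𝒮.S i)).inv ≫ f i ≫ (λ_ _).hom) ≫ (λ_ _).inv := by simp
    _ = _ := by rw [← h]; simp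

/-- coefficient of `K (S i)` -/
noncomputable def coef (i : 𝒮.ι) : 𝒮.T (𝟙_ C) (𝟙_ C) →ₗ[ℂ] ℂ where
  toFun f := 𝒮.sc ((ρ_ _).inv ≫ f i ≫ (λ_ _).hom)
  map_add' := by intros; simp
  map_smul' := by intros; simp

lemma coef_K (i j : 𝒮.ι) : 𝒮.coef i (𝒮.K (𝒮.S j)) = if i = j then 1 else 0 := by
  change 𝒮.sc ((ρ_ _).inv ≫ (𝒮.K (𝒮.S j)) i ≫ (λ_ _).hom) = _
  rw [K, π_S]
  split_ifs with h
  · subst h
    simp
  · rw [𝒮.sg_ne h]
    simp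

lemma expand_coef (f : 𝒮.T (𝟙_ C) (𝟙_ C)) : f = ∑ i, 𝒮.coef i f • 𝒮.K (𝒮.S i) :=
  𝒮.T_unit_expand f

/-! ### the twist -/

lemma t_unit : 𝒮.t (𝟙_ C) = 𝒮.J _ _ (𝟙 (𝟙_ C)) := by
  rw [t, J_apply]
  congr 1
  monoidal

lemma t_inv [RightRigidCategory C] (X : C) :
    𝒮.comp (𝒮.t X) (𝒮.π (Xᘁ : C) (ε_ X (Xᘁ : C) ≫ η_ X (Xᘁ : C))) = 𝒮.J _ _ (𝟙 X) := by
  rw [t, comp_ππ, J_apply]
  have h1 : tc (𝟙 (X ⊗ X)) (ε_ X (Xᘁ : C) ≫ η_ X (Xᘁ : C)) =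
      ε_ X (Xᘁ : C) ▷ X ≫ (η_ X (Xᘁ : C) ▷ X ≫ (α_ _ _ _).hom) := by
    simp [tc]
  rw [h1, ← 𝒮.π_dinat]
  congr 1
  have h2 := PivotalStructure.zag X
  calc _ = (η_ X (Xᘁ : C) ▷ X ⊗≫ X ◁ ε_ X (Xᘁ : C)) := by monoidal
    _ = _ := by rw [h2]; monoidal

end SSData

end Pool.Agent.Lib.MP_d1a06a_al
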