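import Pool.Agent.Lib.MP_d1a06a_al.NumDefs
import Pool.Agent.Lib.MP_d1a06a_al.Analytic

set_option autoImplicit false
set_option linter.unusedSectionVars false

open scoped BigOperators ComplexConjugate
open Polynomial IntermediateField

namespace Pool.Agent.Lib.MP_d1a06a_al

/-- finitely many algebraic integers lie in a finite Galois extension of `ℚ` in `ℂ` -/
lemma exists_galois (S : Finset ℂ) (hS : ∀ s ∈ S, IsIntegral ℤ s) :
    ∃ L : IntermediateField ℚ ℂ, FiniteDimensional ℚ L ∧ IsGalois ℚ L ∧ ∀ s ∈ S, s ∈ L := by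
  classical
  let p : ℚ[X] := ∏ s ∈ S, minpoly ℚ s
  have hint : ∀ s ∈ S, IsIntegral ℚ s := fun s hs => (hS s hs).tower_top
  have hp : p ≠ 0 := Finset.prod_ne_zero_iff.2 fun s hs => minpoly.ne_zero (hint s hs)
  let L : IntermediateField ℚ ℂ := adjoin ℚ (p.rootSet ℂ)
  have hsf : p.IsSplittingField ℚ L :=
    adjoin_rootSet_isSplittingField (IsAlgClosed.splits _)
  have h1 : FiniteDimensional ℚ L := Polynomial.IsSplittingField.finiteDimensional L p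
  have h2 : Normal ℚ L := Normal.of_isSplittingField p
  refine ⟨L, h1, ⟨⟩, fun s hs => ?_⟩
  apply subset_adjoin
  rw [Polynomial.mem_rootSet]
  refine ⟨hp, ?_⟩
  rw [map_prod]
  exact Finset.prod_eq_zero hs (minpoly.aeval ℚ s)

section chars

variable {ι : Type} [Fintype ι] [DecidableEq ι] {o : ι} {N : ι → ι → ι → ℕ} {ψ : ι → ℂ}

lemma IsChar.isIntegral (h : IsChar o N ψ) (i : ι) : IsIntegral ℤ (ψ i) := by
  let M : Submodule ℤ ℂ := Submodule.span ℤ (Set.range ψ)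
  refine isIntegral_of_smul_mem_submodule (M := ℂ) M ?_ ?_ (ψ i) ?_
  · intro h0
    have : ψ o ∈ M := Submodule.subset_span ⟨o, rfl⟩
    rw [h0, h.1, Submodule.mem_bot] at this
    exact one_ne_zero this
  · exact Submodule.fg_span (Set.finite_range ψ)
  · intro n hn
    refine Submodule.span_induction (p := fun n _ => ψ i • n ∈ M) ?_ ?_ ?_ ?_ hn
    · rintro _ ⟨j, rfl⟩
      rw [smul_eq_mul, h.2]
      refine Submodule.sum_mem _ fun k _ => ?_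
      rw [← nsmul_eq_mul]
      exact Submodule.smul_of_tower_mem _ _ (Submodule.subset_span ⟨k, rfl⟩)
    · rw [smul_zero]; exact Submodule.zero_mem _
    · intro x y _ _ hx hy
      rw [smul_add]; exact Submodule.add_mem _ hx hy
    · intro a x _ hx
      rw [smul_comm]; exact Submodule.smul_mem _ _ hx

end chars

namespace NumData

variable (𝒩 : NumData)

/-- total dimension of a multiplicity vector -/
noncomputable def w (ψ : 𝒩.ι → ℂ) (j : 𝒩.J) : ℂ := ∑ i, (𝒩.v j i : ℂ) * ψ i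

lemma d_real (i : 𝒩.ι) : conj (𝒩.d i) = 𝒩.d i := by
  rw [← 𝒩.char_star 𝒩.d 𝒩.d_char, 𝒩.d_star]

variable {𝒩} in
lemma sq_real {ψ : 𝒩.ι → ℂ} (hψ : IsChar 𝒩.o 𝒩.N ψ) (hr : ∀ i, conj (ψ i) = ψ i) :
    ∃ r : ℝ, 1 ≤ r ∧ ∑ i, ψ i * ψ i = (r : ℂ) := by
  have h5 : ∀ j, ψ j * ψ j = ((Complex.normSq (ψ j) : ℝ) : ℂ) := fun j => by
    rw [← Complex.mul_conj, hr]
  refine ⟨∑ j, Complex.normSq (ψ j), ?_, ?_⟩
  · have h1 : Complex.normSq (ψ 𝒩.o) = 1 := by rw [hψ.1]; simp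
    rw [← h1]
    exact Finset.single_le_sum (f := fun j => Complex.normSq (ψ j))
      (fun j _ => Complex.normSq_nonneg _) (Finset.mem_univ _)
  · simp only [h5]
    push_cast
    rfl

variable {𝒩} in
lemma w_real {ψ : 𝒩.ι → ℂ} (hr : ∀ i, conj (ψ i) = ψ i) (j : 𝒩.J) :
    conj (𝒩.w ψ j) = 𝒩.w ψ j := by
  simp only [w, map_sum, map_mul, Complex.conj_natCast, hr]

variable {𝒩} in
/-- pairing of (M1) with another vector -/
lemma M1_pair {ψ : 𝒩.ι → ℂ} (hψ : IsChar 𝒩.o 𝒩.N ψ) (hr : ∀ i, conj (ψ i) = ψ i)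
    (φ : 𝒩.ι → ℂ) : ∑ j, 𝒩.θ j * 𝒩.w φ j * 𝒩.w ψ j =
      (∑ i, ψ i * ψ i) * 𝒩.w φ (𝒩.jj ψ) := by
  calc _ = ∑ x, φ x * ∑ j, 𝒩.θ j * 𝒩.v j x * (∑ i, 𝒩.v j i * ψ i) := by
        simp only [Finset.mul_sum (s := (Finset.univ : Finset 𝒩.J))]
        rw [Finset.sum_comm]
        refine Finset.sum_congr rfl fun j _ => ?_
        change 𝒩.θ j * (∑ x, (𝒩.v j x : ℂ) * φ x) * 𝒩.w ψ j =
          ∑ x, φ x * (𝒩.θ j * 𝒩.v j x * 𝒩.w ψ j)
        generalize 𝒩.w ψ j = c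
        rw [Finset.mul_sum, Finset.sum_mul]
        refine Finset.sum_congr rfl fun x _ => ?_
        ring
    _ = _ := by
        simp only [𝒩.M1_char ψ hψ hr, w]
        rw [Finset.mul_sum]
        refine Finset.sum_congr rfl fun x _ => ?_
        ring

lemma sum_w_sq : ∑ j, 𝒩.w 𝒩.d j * 𝒩.w 𝒩.d j = 𝒩.dim * 𝒩.dim := by
  calc _ = ∑ x, 𝒩.d x * ∑ j, 𝒩.v j x * (∑ i, 𝒩.v j i * 𝒩.d i) := by
        simp only [Finset.mul_sum (s := (Finset.univ : Finset 𝒩.J))]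
        rw [Finset.sum_comm]
        refine Finset.sum_congr rfl fun j _ => ?_
        simp only [w]
        rw [Finset.sum_mul]
        refine Finset.sum_congr rfl fun x _ => ?_
        ring
    _ = _ := by
        simp only [𝒩.M0_d]
        change _ = 𝒩.dim * ∑ i, 𝒩.d i * 𝒩.d i
        rw [Finset.mul_sum]
        refine Finset.sum_congr rfl fun x _ => ?_
        change 𝒩.d x * (𝒩.dim * 𝒩.d x) = _
        ring

lemma w_jj_d (ψ : 𝒩.ι → ℂ) : 𝒩.w ψ (𝒩.jj 𝒩.d) = ψ 𝒩.o := by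
  simp only [w, 𝒩.v_jj_d]
  simp

/-- a number field containing all the relevant numbers -/
structure Fld where
  L : IntermediateField ℚ ℂ
  fd : FiniteDimensional ℚ L
  gal : IsGalois ℚ L
  dL : 𝒩.ι → L
  hd : ∀ i, (dL i : ℂ) = 𝒩.d i
  θL : 𝒩.J → L
  hθ : ∀ j, 𝒩.w 𝒩.d j ≠ 0 → (θL j : ℂ) = 𝒩.θ j

attribute [instance] Fld.fd Fld.gal

lemma exists_fld : Nonempty 𝒩.Fld := by
  classical
  let S : Finset ℂ := Finset.univ.image 𝒩.d ∪
    (Finset.univ.filter (fun j => 𝒩.w 𝒩.d j ≠ 0)).image 𝒩.θ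
  obtain ⟨L, h1, h2, h3⟩ := exists_galois S (by
    intro s hs
    rcases Finset.mem_union.1 hs with h | h
    · obtain ⟨i, -, rfl⟩ := Finset.mem_image.1 h
      exact 𝒩.d_char.isIntegral i
    · obtain ⟨j, hj, rfl⟩ := Finset.mem_image.1 h
      obtain ⟨m, hm, hm'⟩ := 𝒩.root j (Finset.mem_filter.1 hj).2
      exact IsIntegral.of_pow hm (by rw [hm']; exact isIntegral_one))
  refine ⟨⟨L, h1, h2, fun i => ⟨𝒩.d i, h3 _ (Finset.mem_union_left _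
    (Finset.mem_image_of_mem _ (Finset.mem_univ _)))⟩, fun _ => rfl,
    fun j => if h : 𝒩.w 𝒩.d j ≠ 0 then ⟨𝒩.θ j, h3 _ (Finset.mem_union_right _
      (Finset.mem_image_of_mem _ (Finset.mem_filter.2 ⟨Finset.mem_univ _, h⟩)))⟩ else 1, ?_⟩⟩
  intro j hj
  rw [dif_pos hj]

namespace Fld

variable {𝒩} (K : 𝒩.Fld)

/-- dimension of a multiplicity vector in the field -/
noncomputable def wL (j : 𝒩.J) : K.L := ∑ i, (𝒩.v j i : K.L) * K.dL i

/-- global dimension in the field -/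
noncomputable def DL : K.L := ∑ i, K.dL i * K.dL i

lemma coe_wL (j : 𝒩.J) : (K.wL j : ℂ) = 𝒩.w 𝒩.d j := by
  simp [wL, w, K.hd]

lemma coe_DL : (K.DL : ℂ) = 𝒩.dim := by
  simp [DL, dim, K.hd]

lemma dL_o : K.dL 𝒩.o = 1 := by
  apply Subtype.ext
  rw [K.hd, 𝒩.d_char.1]
  rfl

lemma dL_mul (i j : 𝒩.ι) : K.dL i * K.dL j = ∑ k, (𝒩.N i j k : K.L) * K.dL k := by
  apply (algebraMap K.L ℂ).injective
  rw [map_mul, map_sum]
  change (K.dL i : ℂ) * (K.dL j : ℂ) = ∑ k, algebraMap K.L ℂ ((𝒩.N i j k : K.L) * K.dL k)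
  rw [K.hd, K.hd, 𝒩.d_char.2]
  refine Finset.sum_congr rfl fun k _ => ?_
  rw [map_mul, map_natCast]
  change _ = (𝒩.N i j k : ℂ) * (K.dL k : ℂ)
  rw [K.hd]

lemma dL_star (i : 𝒩.ι) : K.dL (𝒩.star i) = K.dL i := by
  apply Subtype.ext
  rw [K.hd, K.hd, 𝒩.d_star]

/-- conjugate characters -/
noncomputable def ch (σ : K.L ≃ₐ[ℚ] K.L) (i : 𝒩.ι) : ℂ := ((σ.symm (K.dL i) : K.L) : ℂ)

lemma ch_char (σ : K.L ≃ₐ[ℚ] K.L) : IsChar 𝒩.o 𝒩.N (K.ch σ) := by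
  constructor
  · rw [ch, dL_o, map_one]
    rfl
  · intro i j
    have h := congrArg (fun x => algebraMap K.L ℂ (σ.symm x)) (K.dL_mul i j)
    simp only [map_mul, map_sum, map_natCast] at h
    exact h

lemma ch_real (σ : K.L ≃ₐ[ℚ] K.L) (i : 𝒩.ι) : conj (K.ch σ i) = K.ch σ i := by
  rw [← 𝒩.char_star _ (K.ch_char σ), ch, ch, dL_star]

lemma w_ch (σ : K.L ≃ₐ[ℚ] K.L) (j : 𝒩.J) :
    𝒩.w (K.ch σ) j = ((σ.symm (K.wL j) : K.L) : ℂ) := by
  have : algebraMap K.L ℂ (σ.symm (K.wL j)) =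
      ∑ i, (𝒩.v j i : ℂ) * algebraMap K.L ℂ (σ.symm (K.dL i)) := by
    simp only [wL, map_sum, map_mul, map_natCast]
  exact this.symm

lemma sq_ch (σ : K.L ≃ₐ[ℚ] K.L) : ∑ i, K.ch σ i * K.ch σ i = ((σ.symm K.DL : K.L) : ℂ) := by
  have : algebraMap K.L ℂ (σ.symm K.DL) =
      ∑ i, algebraMap K.L ℂ (σ.symm (K.dL i)) * algebraMap K.L ℂ (σ.symm (K.dL i)) := by
    simp only [DL, map_sum, map_mul]
  exact this.symm

lemma jj_eq (σ : K.L ≃ₐ[ℚ] K.L) : σ.symm K.DL * K.wL (𝒩.jj (K.ch σ)) = K.DL := by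
  have h1 := M1_pair (K.ch_char σ) (K.ch_real σ) 𝒩.d
  have h2 := M1_pair 𝒩.d_char 𝒩.d_real (K.ch σ)
  rw [w_jj_d, (K.ch_char σ).1, mul_one] at h2
  apply (algebraMap K.L ℂ).injective
  rw [map_mul]
  change ((σ.symm K.DL : K.L) : ℂ) * (K.wL _ : ℂ) = (K.DL : ℂ)
  rw [← K.sq_ch, K.coe_wL, K.coe_DL, ← h1]
  change _ = ∑ i, 𝒩.d i * 𝒩.d i
  rw [← h2]
  refine Finset.sum_congr rfl fun j _ => ?_
  ring

lemma main_eq (σ : K.L ≃ₐ[ℚ] K.L) :
    σ.symm K.DL * ∑ j, σ (K.θL j) * (K.wL j * K.wL j) = K.DL * K.DL := by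
  have h1 := M1_pair (K.ch_char σ) (K.ch_real σ) (K.ch σ)
  have h2 : ∑ j, K.θL j * (σ.symm (K.wL j) * σ.symm (K.wL j)) =
      σ.symm K.DL * σ.symm (K.wL (𝒩.jj (K.ch σ))) := by
    apply (algebraMap K.L ℂ).injective
    rw [map_mul, map_sum]
    change ∑ j, algebraMap K.L ℂ (K.θL j * (σ.symm (K.wL j) * σ.symm (K.wL j))) =
      ((σ.symm K.DL : K.L) : ℂ) * ((σ.symm (K.wL (𝒩.jj (K.ch σ))) : K.L) : ℂ)
    rw [← K.sq_ch, ← K.w_ch, ← h1]
    refine Finset.sum_congr rfl fun j _ => ?_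
    rw [map_mul, map_mul]
    change (K.θL j : ℂ) * (((σ.symm (K.wL j) : K.L) : ℂ) * ((σ.symm (K.wL j) : K.L) : ℂ)) = _
    by_cases hj : 𝒩.w 𝒩.d j = 0
    · have h3 : K.wL j = 0 := by
        apply Subtype.ext
        rw [K.coe_wL, hj]
        rfl
      rw [K.w_ch, h3, map_zero]
      simp
    · rw [K.hθ j hj, ← K.w_ch]
      ring
  have h3 := congrArg σ h2
  simp only [map_sum, map_mul, AlgEquiv.apply_symm_apply] at h3
  rw [h3]
  calc _ = K.DL * (σ.symm K.DL * K.wL (𝒩.jj (K.ch σ))) := by ring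
    _ = _ := by rw [K.jj_eq]

end Fld

end NumData

end Pool.Agent.Lib.MP_d1a06a_al
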