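import Pool.Agent.Lib.MP_d1a06a_al.ToNum
import Pool.Agent.Lib.MP_d1a06a_al.Core

set_option autoImplicit false
set_option linter.unusedSectionVars false

open CategoryTheory MonoidalCategory CategoryTheory.Limits ExactPairing

namespace Pool.Agent.Lib.MP_d1a06a_al

open PivotalStructure

universe v u

attribute [local instance] Abelian.hasFiniteBiproducts

section glue

variable {C : Type u} [Category.{v} C] [Abelian C] [Linear ℂ C]

lemma scalar_of_simple (hfd : ∀ X Y : C, FiniteDimensional ℂ (X ⟶ Y)) (X : C) (hX : Simple X)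
    (f : X ⟶ X) : ∃ z : ℂ, f = z • 𝟙 X := by
  have := hfd X X
  obtain ⟨z, hz⟩ := endomorphism_simple_eq_smul_id ℂ f
  exact ⟨z, hz.symm⟩

lemma exists_decomposition {n : ℕ} (S : Fin n → C)
    (hS : ∀ X : C, Simple X → ∃ i, Nonempty (X ≅ S i))
    (hss : ∀ X : C, ∃ (n : ℕ) (S : Fin n → C), (∀ i, Simple (S i)) ∧ Nonempty (X ≅ ⨁ S))
    (M : C) : ∃ (m : ℕ) (c : Fin m → Fin n) (inc : ∀ k, S (c k) ⟶ M) (proj : ∀ k, M ⟶ S (c k)),
      (∀ k, inc k ≫ proj k = 𝟙 _) ∧ (∀ k l, k ≠ l → inc k ≫ proj l = 0) ∧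
      ∑ k, proj k ≫ inc k = 𝟙 M := by
  obtain ⟨m, T, hT, ⟨e⟩⟩ := hss M
  choose c hc using fun k => hS (T k) (hT k)
  let g : ∀ k, T k ≅ S (c k) := fun k => (hc k).some
  refine ⟨m, c, fun k => (g k).inv ≫ biproduct.ι T k ≫ e.inv,
    fun k => e.hom ≫ biproduct.π T k ≫ (g k).hom, ?_, ?_, ?_⟩
  · intro k
    simp
  · intro k l hkl
    simp only [Category.assoc, Iso.inv_hom_id_assoc]
    rw [biproduct.ι_π_ne_assoc _ hkl]
    simp
  · have h1 : ∀ k, (e.hom ≫ biproduct.π T k ≫ (g k).hom) ≫ (g k).inv ≫ biproduct.ι T k ≫ e.inv =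
        e.hom ≫ (biproduct.π T k ≫ biproduct.ι T k) ≫ e.inv := by
      intro k
      simp
    simp only [h1, ← Preadditive.comp_sum, ← Preadditive.sum_comp, biproduct.total]
    simp

/-- the working data of a semisimple category -/
noncomputable def mkSS (hfd : ∀ X Y : C, FiniteDimensional ℂ (X ⟶ Y)) {n : ℕ} (S : Fin n → C)
    (hs : ∀ i, Simple (S i)) (hne : ∀ i j, Nonempty (S i ≅ S j) → i = j)
    (hS : ∀ X : C, Simple X → ∃ i, Nonempty (X ≅ S i))
    (hss : ∀ X : C, ∃ (n : ℕ) (S : Fin n → C), (∀ i, Simple (S i)) ∧ Nonempty (X ≅ ⨁ S)) :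
    SSData C where
  ι := Fin n
  S := S
  ne_zero i := by
    have := hs i
    exact id_nonzero (S i)
  scalar i f := scalar_of_simple hfd (S i) (hs i) f
  hom_zero i j hij f := by
    by_contra hf
    have := hs i
    have := hs j
    have := isIso_of_hom_simple hf
    exact hij (hne i j ⟨asIso f⟩)
  n M := (exists_decomposition S hS hss M).choose
  c M := (exists_decomposition S hS hss M).choose_spec.choose
  inc M := (exists_decomposition S hS hss M).choose_spec.choose_spec.choose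
  proj M := (exists_decomposition S hS hss M).choose_spec.choose_spec.choose_spec.choose
  inc_proj_same M :=
    (exists_decomposition S hS hss M).choose_spec.choose_spec.choose_spec.choose_spec.1
  inc_proj_ne M :=
    (exists_decomposition S hS hss M).choose_spec.choose_spec.choose_spec.choose_spec.2.1
  total M :=
    (exists_decomposition S hS hss M).choose_spec.choose_spec.choose_spec.choose_spec.2.2

end glue

/-- the numeric data of an element of `sphericalDims` -/
lemma exists_numData {D : ℝ} (hD : D ∈ sphericalDims.{v, u}) :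
    ∃ 𝒩 : NumData, 𝒩.dim = (D : ℂ) := by
  obtain ⟨C, _, _, _, _, _, _, _, P, n, S, hC, hP, hs, hne, hS, hsum⟩ := hD
  have hu := hC.simple_unit
  have hb : HasFiniteBiproducts C := Abelian.hasFiniteBiproducts
  let Q : Sph C :=
    { 𝒮 := mkSS hC.finiteDimensional_hom S hs hne hS hC.semisimple
      P := P
      sph := hP
      unit_ne := id_nonzero (𝟙_ C)
      unit_sc := scalar_of_simple hC.finiteDimensional_hom _ hu
      R := ⨁ S
      iR := fun (i : Fin n) => biproduct.ι S i
      pR := fun (i : Fin n) => biproduct.π S i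
      iR_pR_same := fun (i : Fin n) => biproduct.ι_π_self S i
      iR_pR_ne := fun (i j : Fin n) hij => biproduct.ι_π_ne S hij
      totalR := biproduct.total (f := S) }
  refine ⟨Q.toNum, ?_⟩
  have h1 : (∑ i, Q.d i * Q.d i) • 𝟙 (𝟙_ C) = (D : ℂ) • 𝟙 (𝟙_ C) := by
    rw [← hsum, Finset.sum_smul]
    refine Finset.sum_congr rfl fun i _ => ?_
    have h2 : P.dim (S i) = Q.d i • 𝟙 _ := Q.dim_eq_dn (S i)
    rw [h2, Linear.smul_comp, Linear.comp_smul, Category.comp_id, smul_smul]
  have h2 : ((∑ i, Q.d i * Q.d i) - (D : ℂ)) • 𝟙 (𝟙_ C) = 0 := by rw [sub_smul, h1, sub_self]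
  rcases smul_eq_zero.1 h2 with h3 | h3
  · exact sub_eq_zero.1 h3
  · exact absurd h3 Q.unit_ne

/-- the global dimensions of spherical fusion categories do not accumulate at `√2` -/
theorem not_accPt : ¬ AccPt (Real.sqrt 2) (Filter.principal sphericalDims.{v, u}) := by
  obtain ⟨F, hF, ε, hε, h⟩ := core
  rw [accPt_iff_nhds]
  push Not
  refine ⟨Metric.ball (Real.sqrt 2) ε ∩ (F \ {Real.sqrt 2})ᶜ, ?_, ?_⟩
  · refine Filter.inter_mem (Metric.ball_mem_nhds _ hε) ?_
    refine (hF.subset Set.sdiff_subset).isClosed.isOpen_compl.mem_nhds ?_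
    simp
  · rintro y ⟨⟨hy1, hy2⟩, hy3⟩
    by_contra hne
    apply hy2
    obtain ⟨𝒩, h𝒩⟩ := exists_numData hy3
    refine ⟨h 𝒩 y h𝒩 ?_, hne⟩
    rw [Metric.mem_ball, Real.dist_eq] at hy1
    exact hy1

end Pool.Agent.Lib.MP_d1a06a_al
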