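import Mathlib

set_option autoImplicit false
set_option linter.unusedSectionVars false

open Matrix

namespace Pool.Agent.Lib.MP_d1a06a_al

/-- a homomorphism from nonzero complex numbers to rational numbers -/
structure LogQ where
  l : ℂ → ℚ
  mul : ∀ a b, a ≠ 0 → b ≠ 0 → l (a * b) = l a + l b

namespace LogQ

variable (L : LogQ)

lemma one : L.l 1 = 0 := by
  have := L.mul 1 1 one_ne_zero one_ne_zero
  rw [mul_one] at this
  linarith

lemma neg_one : L.l (-1) = 0 := by
  have := L.mul (-1) (-1) (neg_ne_zero.2 one_ne_zero) (neg_ne_zero.2 one_ne_zero)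
  rw [neg_mul_neg, one_mul, L.one] at this
  linarith

lemma neg (x : ℂ) : L.l (-x) = L.l x := by
  by_cases hx : x = 0
  · rw [hx, neg_zero]
  · rw [← neg_one_mul, L.mul _ _ (neg_ne_zero.2 one_ne_zero) hx, L.neg_one, zero_add]

lemma prod {α : Type*} (s : Finset α) (f : α → ℂ) (hf : ∀ a ∈ s, f a ≠ 0) :
    L.l (∏ a ∈ s, f a) = ∑ a ∈ s, L.l (f a) := by
  classical
  induction s using Finset.induction_on with
  | empty => simp [L.one]
  | insert a s ha ih =>
    rw [Finset.prod_insert ha, Finset.sum_insert ha, L.mul _ _ (hf a (by simp))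
      (Finset.prod_ne_zero_iff.2 fun b hb => hf b (Finset.mem_insert_of_mem hb)),
      ih fun b hb => hf b (Finset.mem_insert_of_mem hb)]

lemma pow (x : ℂ) (hx : x ≠ 0) (n : ℕ) : L.l (x ^ n) = n * L.l x := by
  have := L.prod (Finset.range n) (fun _ => x) (fun _ _ => hx)
  simpa using this

/-- existence of a homomorphism not killing a given element of infinite order -/
lemma exists_log (θ : ℂ) (h0 : θ ≠ 0) (h : ∀ m : ℕ, 0 < m → θ ^ m ≠ 1) :
    ∃ L : LogQ, L.l θ ≠ 0 := by
  have hinj : Module.Injective ℤ ℚ := (Module.Baer.of_divisible ℚ).injective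
  let t : Additive ℂˣ := Additive.ofMul (Units.mk0 θ h0)
  let f : ℤ →ₗ[ℤ] Additive ℂˣ := LinearMap.toSpanSingleton ℤ (Additive ℂˣ) t
  have hf : Function.Injective f := by
    rw [injective_iff_map_eq_zero]
    intro n hn
    have h1 : n • t = 0 := hn
    have h2 : (Units.mk0 θ h0) ^ n = 1 := by
      have := congrArg Additive.toMul h1
      simpa [t] using this
    have h3 : θ ^ n = 1 := by
      have := congrArg Units.val h2
      simpa using this
    by_contra hn0
    rcases Int.natAbs_eq n with h4 | h4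
    · rw [h4, zpow_natCast] at h3
      exact h _ (Int.natAbs_pos.2 hn0) h3
    · rw [h4, _root_.zpow_neg, zpow_natCast, inv_eq_one] at h3
      exact h _ (Int.natAbs_pos.2 hn0) h3
  let g : ℤ →ₗ[ℤ] ℚ := LinearMap.toSpanSingleton ℤ ℚ 1
  obtain ⟨k, hk⟩ := hinj.out f hf g
  refine ⟨⟨fun x => if hx : x = 0 then 0 else k (Additive.ofMul (Units.mk0 x hx)), ?_⟩, ?_⟩
  · intro a b ha hb
    have hab : a * b ≠ 0 := mul_ne_zero ha hb
    rw [dif_neg ha, dif_neg hb, dif_neg hab, ← map_add]
    congr 1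
    rw [← ofMul_mul]
    congr 1
    ext
    simp
  · change (if hx : θ = 0 then 0 else k (Additive.ofMul (Units.mk0 θ hx))) ≠ 0
    rw [dif_neg h0]
    have := hk 1
    have h1 : f 1 = t := by simp [f]
    rw [h1] at this
    change k t ≠ 0
    rw [this]
    simp [g]

section ldet

variable {m n p : Type*} [Fintype m] [Fintype n] [Fintype p] [DecidableEq m] [DecidableEq n]
  [DecidableEq p]

open Classical in
/-- logarithm of the determinant of a matrix whose index types are only equivalent -/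
noncomputable def ldet (A : Matrix m n ℂ) : ℚ :=
  if h : Nonempty (m ≃ n) then L.l ((A.submatrix id h.some).det) else 0

lemma l_sign (x : ℂ) (σ : Equiv.Perm m) : L.l ((Equiv.Perm.sign σ : ℤ) * x) = L.l x := by
  rcases Int.units_eq_one_or (Equiv.Perm.sign σ) with h | h
  · rw [h]; simp
  · rw [h]; simp [L.neg]

lemma l_det_submatrix (A : Matrix m n ℂ) (e e' : m ≃ n) :
    L.l ((A.submatrix id e).det) = L.l ((A.submatrix id e').det) := by
  have h : A.submatrix id e' = (A.submatrix id e).submatrix id (e'.trans e.symm) := by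
    ext i j
    simp
  rw [h, Matrix.det_permute', L.l_sign]

lemma ldet_eq (A : Matrix m n ℂ) (e : m ≃ n) : L.ldet A = L.l ((A.submatrix id e).det) := by
  have h : Nonempty (m ≃ n) := ⟨e⟩
  rw [ldet, dif_pos h]
  exact L.l_det_submatrix _ _ _

/-- invertible matrices -/
def InvM (A : Matrix m n ℂ) : Prop := ∃ e : m ≃ n, (A.submatrix id e).det ≠ 0

lemma InvM.det_ne {A : Matrix m n ℂ} (h : InvM A) (e : m ≃ n) : (A.submatrix id e).det ≠ 0 := by
  obtain ⟨e', h'⟩ := h
  have h1 : A.submatrix id e' = (A.submatrix id e).submatrix id (e'.trans e.symm) := by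
    ext i j
    simp
  rw [h1, Matrix.det_permute'] at h'
  exact right_ne_zero_of_mul h'

lemma invM_of {A : Matrix m n ℂ} {B : Matrix n m ℂ} (h1 : A * B = 1) (h2 : B * A = 1) :
    InvM A := by
  have hcard : Fintype.card m = Fintype.card n := by
    have e : (n → ℂ) ≃ₗ[ℂ] (m → ℂ) :=
      LinearEquiv.ofLinearMap (Matrix.toLin' A) (Matrix.toLin' B)
        (by rw [← Matrix.toLin'_mul, h1, Matrix.toLin'_one])
        (by rw [← Matrix.toLin'_mul, h2, Matrix.toLin'_one])
    have := e.finrank_eq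
    simpa using this.symm
  obtain ⟨e⟩ : Nonempty (m ≃ n) := ⟨Fintype.equivOfCardEq hcard⟩
  refine ⟨e, ?_⟩
  have h3 : A.submatrix id e * B.submatrix e id = 1 := by
    rw [← Matrix.submatrix_mul _ _ _ _ _ e.bijective, h1, Matrix.submatrix_id_id]
  intro h0
  have h4 := congrArg Matrix.det h3
  rw [Matrix.det_mul, h0, zero_mul, Matrix.det_one] at h4
  exact zero_ne_one h4

lemma ldet_mul {A : Matrix m n ℂ} {B : Matrix n p ℂ} (hA : InvM A) (hB : InvM B) :
    L.ldet (A * B) = L.ldet A + L.ldet B := by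
  obtain ⟨e, hA⟩ := hA
  obtain ⟨f, hB⟩ := hB
  have h1 : (A * B).submatrix id (e.trans f) =
      A.submatrix id e * (B.submatrix id f).submatrix e e := by
    ext i j
    simp only [Matrix.submatrix_apply, Matrix.mul_apply, id, Equiv.trans_apply]
    exact (Equiv.sum_comp e fun k => A i k * B k (f (e j))).symm
  rw [L.ldet_eq _ (e.trans f), L.ldet_eq A e, L.ldet_eq B f, h1, Matrix.det_mul,
    Matrix.det_submatrix_equiv_self, L.mul _ _ hA hB]

lemma InvM.mul {A : Matrix m n ℂ} {B : Matrix n p ℂ} (hA : InvM A) (hB : InvM B) :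
    InvM (A * B) := by
  obtain ⟨e, hA⟩ := hA
  obtain ⟨f, hB⟩ := hB
  refine ⟨e.trans f, ?_⟩
  have h1 : (A * B).submatrix id (e.trans f) =
      A.submatrix id e * (B.submatrix id f).submatrix e e := by
    ext i j
    simp only [Matrix.submatrix_apply, Matrix.mul_apply, id, Equiv.trans_apply]
    exact (Equiv.sum_comp e fun k => A i k * B k (f (e j))).symm
  rw [h1, Matrix.det_mul, Matrix.det_submatrix_equiv_self]
  exact mul_ne_zero hA hB

lemma ldet_submatrix {m' n' : Type*} [Fintype m'] [Fintype n'] [DecidableEq m'] [DecidableEq n']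
    {A : Matrix m n ℂ} (hA : InvM A) (f : m' ≃ m) (g : n' ≃ n) :
    L.ldet (A.submatrix f g) = L.ldet A := by
  obtain ⟨e, hA⟩ := hA
  rw [L.ldet_eq A e, L.ldet_eq _ ((f.trans e).trans g.symm)]
  have h : (A.submatrix f g).submatrix id ((f.trans e).trans g.symm) =
      (A.submatrix id e).submatrix f f := by
    ext i j
    simp
  rw [h, Matrix.det_submatrix_equiv_self]

end ldet

section blocks

variable {S : Type*} [Fintype S] [DecidableEq S] {m n : S → Type*} [∀ s, Fintype (m s)]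
  [∀ s, Fintype (n s)] [∀ s, DecidableEq (m s)] [∀ s, DecidableEq (n s)]

lemma det_sigma (A : Matrix (Σ s, m s) (Σ s, m s) ℂ) (h : ∀ x y, x.1 ≠ y.1 → A x y = 0) :
    A.det = ∏ s, (A.submatrix (Sigma.mk s) (Sigma.mk s)).det := by
  classical
  let _ : LinearOrder S := linearOrderOfSTO (WellOrderingRel (α := S))
  have h1 : A.BlockTriangular Sigma.fst := by
    intro x y hxy
    exact h x y (ne_of_gt hxy)
  rw [h1.det_fintype]
  refine Finset.prod_congr rfl fun s _ => ?_
  let e : m s ≃ {x : Σ s, m s // x.1 = s} :=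
    { toFun := fun p => ⟨⟨s, p⟩, rfl⟩
      invFun := fun x => x.2 ▸ x.1.2
      left_inv := fun p => rfl
      right_inv := by
        rintro ⟨⟨s', p⟩, hs⟩
        subst hs
        rfl }
  rw [← Matrix.det_submatrix_equiv_self e]
  rfl

lemma ldet_sigma (A : Matrix (Σ s, m s) (Σ s, n s) ℂ) (h : ∀ x y, x.1 ≠ y.1 → A x y = 0)
    (hA : ∀ s, InvM (A.submatrix (Sigma.mk s) (Sigma.mk s))) :
    L.ldet A = ∑ s, L.ldet (A.submatrix (Sigma.mk s) (Sigma.mk s)) := by
  choose e he using hA
  rw [L.ldet_eq A (Equiv.sigmaCongrRight e), det_sigma]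
  · rw [L.prod]
    · refine Finset.sum_congr rfl fun s _ => ?_
      rw [L.ldet_eq _ (e s)]
      rfl
    · intro s _
      exact he s
  · intro x y hxy
    exact h _ _ hxy

end blocks

section lm

variable {κ κ' κ'' : Type} [Fintype κ] [Fintype κ'] [Fintype κ''] [DecidableEq κ]
  [DecidableEq κ'] [DecidableEq κ'']
  {V W U : Type*} [AddCommGroup V] [Module ℂ V] [AddCommGroup W] [Module ℂ W] [AddCommGroup U]
  [Module ℂ U]

/-- logarithmic determinant of a linear map with respect to bases -/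
noncomputable def lm (b : Module.Basis κ ℂ V) (b' : Module.Basis κ' ℂ W) (ψ : V →ₗ[ℂ] W) : ℚ :=
  L.ldet (LinearMap.toMatrix b b' ψ)

lemma invM_toMatrix (b : Module.Basis κ ℂ V) (b' : Module.Basis κ' ℂ W) {ψ : V →ₗ[ℂ] W}
    (hψ : Function.Bijective ψ) : InvM (LinearMap.toMatrix b b' ψ) := by
  let e := LinearEquiv.ofBijective ψ hψ
  refine invM_of (B := LinearMap.toMatrix b' b e.symm.toLinearMap) ?_ ?_
  · rw [← LinearMap.toMatrix_comp b' b b', ← LinearMap.toMatrix_id b']
    congr 1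
    refine LinearMap.ext fun x => ?_
    exact e.apply_symm_apply x
  · rw [← LinearMap.toMatrix_comp b b' b, ← LinearMap.toMatrix_id b]
    congr 1
    refine LinearMap.ext fun x => ?_
    exact e.symm_apply_apply x

lemma lm_comp (b : Module.Basis κ ℂ V) (b' : Module.Basis κ' ℂ W) (b'' : Module.Basis κ'' ℂ U)
    {ψ : V →ₗ[ℂ] W} {φ : W →ₗ[ℂ] U} (hψ : Function.Bijective ψ) (hφ : Function.Bijective φ) :
    L.lm b b'' (φ ∘ₗ ψ) = L.lm b b' ψ + L.lm b' b'' φ := by
  rw [lm, LinearMap.toMatrix_comp b b' b'', L.ldet_mul (invM_toMatrix b' b'' hφ)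
    (invM_toMatrix b b' hψ), add_comm]
  rfl

lemma lm_smul_id (b : Module.Basis κ ℂ V) (θ : ℂ) (hθ : θ ≠ 0) :
    L.lm b b (θ • LinearMap.id) = Fintype.card κ * L.l θ := by
  rw [lm, L.ldet_eq _ (Equiv.refl κ)]
  have h : (LinearMap.toMatrix b b (θ • LinearMap.id)).submatrix id (Equiv.refl κ) =
      θ • (1 : Matrix κ κ ℂ) := by
    rw [map_smul, LinearMap.toMatrix_id]
    rfl
  rw [h, Matrix.det_smul, Matrix.det_one, mul_one, L.pow _ hθ]

lemma lm_sum {S : Type} [Fintype S] [DecidableEq S] {k k' : S → Type} [∀ s, Fintype (k s)]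
    [∀ s, Fintype (k' s)] [∀ s, DecidableEq (k s)] [∀ s, DecidableEq (k' s)]
    {Vs Ws : S → Type*} [∀ s, AddCommGroup (Vs s)] [∀ s, Module ℂ (Vs s)]
    [∀ s, AddCommGroup (Ws s)] [∀ s, Module ℂ (Ws s)]
    (b : Module.Basis κ ℂ V) (b' : Module.Basis κ' ℂ W) (ψ : V →ₗ[ℂ] W)
    (bs : ∀ s, Module.Basis (k s) ℂ (Vs s)) (bs' : ∀ s, Module.Basis (k' s) ℂ (Ws s))
    (ψs : ∀ s, Vs s →ₗ[ℂ] Ws s) (i : ∀ s, Vs s →ₗ[ℂ] V) (i' : ∀ s, Ws s →ₗ[ℂ] W)
    (e : (Σ s, k s) ≃ κ) (e' : (Σ s, k' s) ≃ κ')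
    (he : ∀ s p, b (e ⟨s, p⟩) = i s (bs s p)) (he' : ∀ s p, b' (e' ⟨s, p⟩) = i' s (bs' s p))
    (hψ : ∀ s v, ψ (i s v) = i' s (ψs s v)) (hb : ∀ s, Function.Bijective (ψs s))
    (hb' : Function.Bijective ψ) :
    L.lm b b' ψ = ∑ s, L.lm (bs s) (bs' s) (ψs s) := by
  have h1 : ∀ s p, ψ (b (e ⟨s, p⟩)) =
      ∑ q, ((bs' s).repr (ψs s (bs s p)) q) • b' (e' ⟨s, q⟩) := by
    intro s p
    rw [he, hψ]
    conv_lhs => rw [← (bs' s).sum_repr (ψs s (bs s p)), map_sum]
    refine Finset.sum_congr rfl fun q _ => ?_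
    rw [map_smul, he']
  have h2 : ∀ (s : S) (p : k s) (t : S) (q : k' t),
      LinearMap.toMatrix b b' ψ (e' ⟨t, q⟩) (e ⟨s, p⟩) =
        if h : s = t then (bs' t).repr (ψs t (bs t (h ▸ p))) q else 0 := by
    intro s p t q
    rw [LinearMap.toMatrix_apply, h1]
    rw [map_sum, Finset.sum_apply']
    split_ifs with h
    · subst h
      rw [Finset.sum_eq_single q]
      · simp
      · intro q' _ hq'
        have : e' ⟨s, q'⟩ ≠ e' ⟨s, q⟩ := by
          intro h
          have := e'.injective h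
          simp at this
          exact hq' this
        simp [this]
      · simp
    · refine Finset.sum_eq_zero fun q' _ => ?_
      have : e' ⟨s, q'⟩ ≠ e' ⟨t, q⟩ := by
        intro h'
        have := e'.injective h'
        simp at this
        exact h this.1
      simp [this]
  have h3 : L.lm b b' ψ = L.ldet ((LinearMap.toMatrix b b' ψ).submatrix e' e) :=
    (L.ldet_submatrix (invM_toMatrix b b' hb') e' e).symm
  have h4 : ∀ s, ((LinearMap.toMatrix b b' ψ).submatrix e' e).submatrix (Sigma.mk s)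
      (Sigma.mk s) = LinearMap.toMatrix (bs s) (bs' s) (ψs s) := by
    intro s
    ext q p
    rw [Matrix.submatrix_apply, Matrix.submatrix_apply, h2, dif_pos rfl,
      LinearMap.toMatrix_apply]
  rw [h3, L.ldet_sigma]
  · refine Finset.sum_congr rfl fun s _ => ?_
    rw [h4]
    rfl
  · rintro ⟨t, q⟩ ⟨s, p⟩ h
    rw [Matrix.submatrix_apply, h2, dif_neg]
    exact fun h' => h h'.symm
  · intro s
    rw [h4]
    exact invM_toMatrix _ _ (hb s)

/-- independence of the ordering of bases -/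
lemma lm_reindex (b : Module.Basis κ ℂ V) (b' : Module.Basis κ' ℂ W) {ψ : V →ₗ[ℂ] W}
    (hψ : Function.Bijective ψ) {m m' : Type} [Fintype m] [Fintype m'] [DecidableEq m]
    [DecidableEq m'] (c : Module.Basis m ℂ V) (c' : Module.Basis m' ℂ W) (e : m ≃ κ)
    (e' : m' ≃ κ') (he : ∀ p, b (e p) = c p) (he' : ∀ p, b' (e' p) = c' p) :
    L.lm b b' ψ = L.lm c c' ψ := by
  have h : LinearMap.toMatrix c c' ψ = (LinearMap.toMatrix b b' ψ).submatrix e' e := by
    have h1 : c = b.reindex e.symm := by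
      ext p
      rw [← he]
      simp
    have h2 : c' = b'.reindex e'.symm := by
      ext p
      rw [← he']
      simp
    ext p q
    rw [LinearMap.toMatrix_apply, Matrix.submatrix_apply, LinearMap.toMatrix_apply, ← he, h2]
    simp
  rw [lm, lm, h, L.ldet_submatrix (invM_toMatrix b b' hψ)]

end lm

end LogQ

end Pool.Agent.Lib.MP_d1a06a_al
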