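import Pool.Agent.Lib.MP_d1a06a_al.Comp

set_option autoImplicit false
set_option linter.unusedSectionVars false

open CategoryTheory MonoidalCategory CategoryTheory.Limits ExactPairing

namespace Pool.Agent.Lib.MP_d1a06a_al

open PivotalStructure

universe v u

variable {C : Type u} [Category.{v} C] [Preadditive C] [Linear ℂ C] [MonoidalCategory C]
  [MonoidalPreadditive C] [MonoidalLinear ℂ C] [RightRigidCategory C]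

namespace SSData

variable (𝒮 : SSData C)

lemma comp_zero_T {X Y Z : C} (f : 𝒮.T X Y) : 𝒮.comp f (0 : 𝒮.T Y Z) = 0 := by
  simp [SSData.comp]

lemma zero_comp_T {X Y Z : C} (f : 𝒮.T Y Z) : 𝒮.comp (0 : 𝒮.T X Y) f = 0 := by
  simp [SSData.comp]

lemma comp_J_J {X Y Z W : C} (f : 𝒮.T X Y) (g : Y ⟶ Z) (h : Z ⟶ W) :
    𝒮.comp (𝒮.comp f (𝒮.J _ _ g)) (𝒮.J _ _ h) = 𝒮.comp f (𝒮.J _ _ (g ≫ h)) := by
  rw [comp_assoc, J_comp]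

lemma left_expand {M N : C} (g : M ⟶ N) (l : Fin (𝒮.n M)) : 𝒮.inc M l ≫ g =
    ∑ m, 𝒮.sc (𝒮.inc M l ≫ g ≫ 𝒮.proj N m) • (𝒮.e (𝒮.c M l) (𝒮.c N m) ≫ 𝒮.inc N m) := by
  conv_lhs => rw [← Category.comp_id g, ← 𝒮.total N, Preadditive.comp_sum, Preadditive.comp_sum]
  refine Finset.sum_congr rfl fun m _ => ?_
  conv_lhs => rw [← Category.assoc g, ← Category.assoc (𝒮.inc M l),
    ← 𝒮.sc_smul (𝒮.inc M l ≫ g ≫ 𝒮.proj N m)]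
  rw [Linear.smul_comp]

lemma right_expand {M N : C} (g : M ⟶ N) (m : Fin (𝒮.n N)) : g ≫ 𝒮.proj N m =
    ∑ l, 𝒮.sc (𝒮.inc M l ≫ g ≫ 𝒮.proj N m) • (𝒮.proj M l ≫ 𝒮.e (𝒮.c M l) (𝒮.c N m)) := by
  conv_lhs => rw [← Category.id_comp g, ← 𝒮.total M, Preadditive.sum_comp, Preadditive.sum_comp]
  refine Finset.sum_congr rfl fun l _ => ?_
  conv_lhs => rw [Category.assoc, Category.assoc,
    ← 𝒮.sc_smul (𝒮.inc M l ≫ g ≫ 𝒮.proj N m)]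
  rw [Linear.comp_smul]

end SSData

namespace Sph

variable (Q : Sph C)

/-- the tube algebra (multiplication is composition in the usual order) -/
def A : Type v := Q.𝒮.T Q.R Q.R

noncomputable instance : Ring Q.A := inferInstanceAs (Ring (End (Tub.mk Q.R : Tub Q.𝒮)))

noncomputable instance : Algebra ℂ Q.A :=
  inferInstanceAs (Algebra ℂ (End (Tub.mk Q.R : Tub Q.𝒮)))

/-- the identification of tubes from `R` to `R` with the tube algebra -/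
noncomputable def toA : Q.𝒮.T Q.R Q.R ≃ₗ[ℂ] Q.A where
  toFun x := x
  invFun x := x
  map_add' _ _ := rfl
  map_smul' _ _ := rfl
  left_inv _ := rfl
  right_inv _ := rfl

lemma toA_comp (a b : Q.𝒮.T Q.R Q.R) : Q.toA (Q.𝒮.comp a b) = Q.toA b * Q.toA a := rfl

lemma toA_one : Q.toA (Q.𝒮.J Q.R Q.R (𝟙 Q.R)) = 1 := rfl

/-- global dimension -/
noncomputable def gd : ℂ := ∑ w, Q.d w * Q.d w

/-- extension of a linear map to tubes with other targets -/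
noncomputable def ext (p : Q.𝒮.T Q.R Q.R →ₗ[ℂ] Q.𝒮.T Q.R Q.R) (Y : C) :
    Q.𝒮.T Q.R Y →ₗ[ℂ] Q.𝒮.T Q.R Y :=
  ∑ l, (Q.𝒮.postL Q.R (Q.𝒮.J _ _ (Q.pR (Q.𝒮.c Y l) ≫ Q.𝒮.inc Y l))).comp
    (LinearMap.comp p (Q.𝒮.postL Q.R (Q.𝒮.J _ _ (Q.𝒮.proj Y l ≫ Q.iR (Q.𝒮.c Y l)))))

lemma ext_apply (p : Q.𝒮.T Q.R Q.R →ₗ[ℂ] Q.𝒮.T Q.R Q.R) (Y : C) (f : Q.𝒮.T Q.R Y) :
    Q.ext p Y f =
    ∑ l, Q.𝒮.comp (p (Q.𝒮.comp f (Q.𝒮.J _ _ (Q.𝒮.proj Y l ≫ Q.iR (Q.𝒮.c Y l)))))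
      (Q.𝒮.J _ _ (Q.pR (Q.𝒮.c Y l) ≫ Q.𝒮.inc Y l)) := by
  simp [ext]

lemma ext_nat_aux (p : Q.𝒮.T Q.R Q.R →ₗ[ℂ] Q.𝒮.T Q.R Q.R) {Y Y' : C} (i j : Q.𝒮.ι)
    (f : Q.𝒮.T Q.R Y) (a : Y ⟶ Q.𝒮.S i) (b : Q.𝒮.S j ⟶ Y') :
    Q.𝒮.comp (p (Q.𝒮.comp f (Q.𝒮.J _ _ (a ≫ Q.iR i)))) (Q.𝒮.J _ _ (Q.pR i ≫ Q.𝒮.e i j ≫ b)) =
    Q.𝒮.comp (p (Q.𝒮.comp f (Q.𝒮.J _ _ ((a ≫ Q.𝒮.e i j) ≫ Q.iR j))))
      (Q.𝒮.J _ _ (Q.pR j ≫ b)) := by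
  by_cases h : i = j
  · subst h
    simp
  · rw [Q.𝒮.e_ne h]
    simp only [zero_comp, comp_zero, map_zero, SSData.comp_zero_T, SSData.zero_comp_T]

lemma ext_nat (p : Q.𝒮.T Q.R Q.R →ₗ[ℂ] Q.𝒮.T Q.R Q.R) {Y Y' : C} (f : Q.𝒮.T Q.R Y)
    (g : Y ⟶ Y') :
    Q.𝒮.comp (Q.ext p Y f) (Q.𝒮.J _ _ g) = Q.ext p Y' (Q.𝒮.comp f (Q.𝒮.J _ _ g)) := by
  rw [ext_apply, ext_apply, SSData.comp_sum_left]
  have h1 : ∀ l, Q.𝒮.comp (Q.𝒮.comp (p (Q.𝒮.comp f (Q.𝒮.J _ _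
      (Q.𝒮.proj Y l ≫ Q.iR (Q.𝒮.c Y l))))) (Q.𝒮.J _ _ (Q.pR (Q.𝒮.c Y l) ≫ Q.𝒮.inc Y l)))
        (Q.𝒮.J _ _ g) = ∑ m, Q.𝒮.sc (Q.𝒮.inc Y l ≫ g ≫ Q.𝒮.proj Y' m) •
      Q.𝒮.comp (p (Q.𝒮.comp f (Q.𝒮.J _ _ (Q.𝒮.proj Y l ≫ Q.iR (Q.𝒮.c Y l)))))
        (Q.𝒮.J _ _ (Q.pR (Q.𝒮.c Y l) ≫ Q.𝒮.e _ _ ≫ Q.𝒮.inc Y' m)) := by
    intro l
    rw [SSData.comp_J_J, Category.assoc, SSData.left_expand]
    simp only [Preadditive.comp_sum, Linear.comp_smul, map_sum, map_smul, SSData.comp_sum_right,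
      SSData.comp_smul_right]
  have h2 : ∀ m, Q.𝒮.comp (p (Q.𝒮.comp (Q.𝒮.comp f (Q.𝒮.J _ _ g)) (Q.𝒮.J _ _
      (Q.𝒮.proj Y' m ≫ Q.iR (Q.𝒮.c Y' m))))) (Q.𝒮.J _ _ (Q.pR (Q.𝒮.c Y' m) ≫ Q.𝒮.inc Y' m)) =
      ∑ l, Q.𝒮.sc (Q.𝒮.inc Y l ≫ g ≫ Q.𝒮.proj Y' m) •
      Q.𝒮.comp (p (Q.𝒮.comp f (Q.𝒮.J _ _ ((Q.𝒮.proj Y l ≫ Q.𝒮.e _ _) ≫ Q.iR (Q.𝒮.c Y' m)))))
        (Q.𝒮.J _ _ (Q.pR (Q.𝒮.c Y' m) ≫ Q.𝒮.inc Y' m)) := by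
    intro m
    conv_lhs => rw [SSData.comp_J_J, ← Category.assoc g, SSData.right_expand]
    simp only [Preadditive.sum_comp, Linear.smul_comp, map_sum, map_smul, SSData.comp_sum_right,
      SSData.comp_smul_right, SSData.comp_sum_left, SSData.comp_smul_left]
  simp only [h1, h2]
  rw [Finset.sum_comm]
  refine Finset.sum_congr rfl fun m _ => Finset.sum_congr rfl fun l _ => ?_
  rw [ext_nat_aux]

/-- the averaged map -/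
noncomputable def avg (p : Q.𝒮.T Q.R Q.R →ₗ[ℂ] Q.𝒮.T Q.R Q.R) :
    Q.𝒮.T Q.R Q.R →ₗ[ℂ] Q.𝒮.T Q.R Q.R :=
  ∑ w, Q.d w • (Q.𝒮.postL Q.R (Q.eps w Q.R)).comp
    ((Q.ext p (Q.Z w Q.R)).comp (Q.𝒮.postL Q.R (Q.eta w Q.R)))

lemma avg_apply (p : Q.𝒮.T Q.R Q.R →ₗ[ℂ] Q.𝒮.T Q.R Q.R) (x : Q.𝒮.T Q.R Q.R) :
    Q.avg p x = ∑ w, Q.d w • Q.𝒮.comp (Q.ext p (Q.Z w Q.R) (Q.𝒮.comp x (Q.eta w Q.R)))
      (Q.eps w Q.R) := by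
  simp [avg]

lemma avg_comp (p : Q.𝒮.T Q.R Q.R →ₗ[ℂ] Q.𝒮.T Q.R Q.R) (x b : Q.𝒮.T Q.R Q.R) :
    Q.avg p (Q.𝒮.comp x b) = Q.𝒮.comp (Q.avg p x) b := by
  refine Q.𝒮.T_induction b ?_ ?_ ?_
  · intro b b' h h'
    rw [SSData.comp_add_right, map_add, h, h', SSData.comp_add_right]
  · simp [SSData.comp_zero_T]
  intro V g
  rw [avg_apply, avg_apply, SSData.comp_sum_left]
  have h1 : ∀ w', Q.d w' • Q.𝒮.comp (Q.ext p (Q.Z w' Q.R) (Q.𝒮.comp (Q.𝒮.comp x (Q.𝒮.π V g))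
      (Q.eta w' Q.R))) (Q.eps w' Q.R) = ∑ w, Q.d w • Q.𝒮.comp (Q.𝒮.comp (Q.ext p (Q.Z w Q.R)
        (Q.𝒮.comp x (Q.eta w Q.R))) (Q.𝒮.J _ _ (Q.HH g w w'))) (Q.eps w' Q.R) := by
    intro w'
    rw [SSData.comp_assoc, ← SSData.comp_smul_left, ← map_smul, ← SSData.comp_smul_right,
      comp_eta]
    simp only [SSData.comp_sum_right, SSData.comp_smul_right, map_sum, map_smul,
      SSData.comp_sum_left, SSData.comp_smul_left]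
    refine Finset.sum_congr rfl fun w _ => ?_
    rw [ext_nat, SSData.comp_assoc]
  have h2 : ∀ w, Q.𝒮.comp (Q.d w • Q.𝒮.comp (Q.ext p (Q.Z w Q.R) (Q.𝒮.comp x (Q.eta w Q.R)))
      (Q.eps w Q.R)) (Q.𝒮.π V g) = ∑ w', Q.d w • Q.𝒮.comp (Q.𝒮.comp (Q.ext p (Q.Z w Q.R)
        (Q.𝒮.comp x (Q.eta w Q.R))) (Q.𝒮.J _ _ (Q.HH g w w'))) (Q.eps w' Q.R) := by
    intro w
    rw [SSData.comp_smul_left, SSData.comp_assoc, eps_comp, SSData.comp_sum_right,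
      Finset.smul_sum]
    refine Finset.sum_congr rfl fun w' _ => ?_
    rw [SSData.comp_assoc]
  simp only [h1, h2]
  rw [Finset.sum_comm]

lemma ext_id_of (p : Q.𝒮.T Q.R Q.R →ₗ[ℂ] Q.𝒮.T Q.R Q.R) {Y : C} (f : Q.𝒮.T Q.R Y)
    (h : ∀ g : Q.𝒮.T Y Q.R, p (Q.𝒮.comp f g) = Q.𝒮.comp f g) : Q.ext p Y f = f := by
  rw [ext_apply]
  have h1 : ∀ l, Q.𝒮.comp (p (Q.𝒮.comp f (Q.𝒮.J _ _ (Q.𝒮.proj Y l ≫ Q.iR (Q.𝒮.c Y l)))))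
      (Q.𝒮.J _ _ (Q.pR (Q.𝒮.c Y l) ≫ Q.𝒮.inc Y l)) =
      Q.𝒮.comp f (Q.𝒮.J _ _ (Q.𝒮.proj Y l ≫ Q.𝒮.inc Y l)) := by
    intro l
    rw [h, SSData.comp_J_J]
    congr 2
    rw [Category.assoc, ← Category.assoc (Q.iR _), Q.iR_pR_same, Category.id_comp]
  simp only [h1, ← SSData.comp_sum_right, ← map_sum, Q.𝒮.total]
  rw [SSData.comp_id_T]

lemma avg_id_of (p : Q.𝒮.T Q.R Q.R →ₗ[ℂ] Q.𝒮.T Q.R Q.R) (x : Q.𝒮.T Q.R Q.R)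
    (h : ∀ g : Q.𝒮.T Q.R Q.R, p (Q.𝒮.comp x g) = Q.𝒮.comp x g) : Q.avg p x = Q.gd • x := by
  rw [avg_apply, gd, Finset.sum_smul]
  refine Finset.sum_congr rfl fun w _ => ?_
  rw [ext_id_of, SSData.comp_assoc, eta_eps, SSData.comp_smul_right, SSData.comp_id_T, smul_smul]
  intro g
  rw [SSData.comp_assoc]
  exact h _

lemma avg_mem (p : Q.𝒮.T Q.R Q.R →ₗ[ℂ] Q.𝒮.T Q.R Q.R) (L : Submodule Q.A Q.A)
    (h : ∀ x : Q.𝒮.T Q.R Q.R, Q.toA (p x) ∈ L) (x : Q.𝒮.T Q.R Q.R) :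
    Q.toA (Q.avg p x) ∈ L := by
  have hL : ∀ (x b : Q.𝒮.T Q.R Q.R), Q.toA x ∈ L → Q.toA (Q.𝒮.comp x b) ∈ L := by
    intro x b hx
    rw [toA_comp]
    exact L.smul_mem (Q.toA b) hx
  have hs : ∀ (z : ℂ) (x : Q.𝒮.T Q.R Q.R), Q.toA x ∈ L → Q.toA (z • x) ∈ L := by
    intro z x hx
    rw [map_smul]
    exact (L.restrictScalars ℂ).smul_mem z hx
  rw [avg_apply, map_sum]
  refine Submodule.sum_mem L fun w _ => ?_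
  refine hs _ _ ?_
  rw [ext_apply, SSData.comp_sum_left, map_sum]
  refine Submodule.sum_mem L fun l _ => ?_
  rw [SSData.comp_assoc]
  exact hL _ _ (h _)

lemma isSemisimpleRing (hD : Q.gd ≠ 0) : IsSemisimpleRing Q.A := by
  refine (isSemisimpleModule_iff Q.A Q.A).2 ⟨fun L => ?_⟩
  obtain ⟨p0, hp0⟩ := LinearMap.exists_leftInverse_of_injective (L.restrictScalars ℂ).subtype
    (Submodule.ker_subtype _)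
  let p : Q.𝒮.T Q.R Q.R →ₗ[ℂ] Q.𝒮.T Q.R Q.R :=
    Q.toA.symm.toLinearMap.comp (((L.restrictScalars ℂ).subtype.comp p0).comp Q.toA.toLinearMap)
  have hp1 : ∀ x : Q.𝒮.T Q.R Q.R, Q.toA (p x) ∈ L := by
    intro x
    simp only [p, LinearMap.comp_apply, LinearEquiv.coe_coe, LinearEquiv.apply_symm_apply]
    exact (p0 (Q.toA x)).2
  have hp2 : ∀ x : Q.𝒮.T Q.R Q.R, Q.toA x ∈ L → p x = x := by
    intro x hx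
    have := LinearMap.congr_fun hp0 ⟨Q.toA x, hx⟩
    apply Q.toA.injective
    simp only [p, LinearMap.comp_apply, LinearEquiv.coe_coe, LinearEquiv.apply_symm_apply]
    exact congrArg Subtype.val this
  let P : Q.A →ₗ[Q.A] L :=
    { toFun := fun x => ⟨Q.toA ((Q.gd)⁻¹ • Q.avg p (Q.toA.symm x)), by
        rw [map_smul]
        exact (L.restrictScalars ℂ).smul_mem _ (Q.avg_mem p L hp1 _)⟩
      map_add' := by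
        intro x y
        ext1
        simp only [map_add, smul_add, Submodule.coe_add]
      map_smul' := by
        intro a x
        ext1
        have h1 : Q.toA.symm (a • x) = Q.𝒮.comp (Q.toA.symm x) (Q.toA.symm a) := rfl
        change Q.toA ((Q.gd)⁻¹ • Q.avg p (Q.toA.symm (a • x))) =
          a * Q.toA ((Q.gd)⁻¹ • Q.avg p (Q.toA.symm x))
        rw [h1, avg_comp, ← SSData.comp_smul_left, toA_comp, LinearEquiv.apply_symm_apply] }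
  refine ⟨LinearMap.ker P, LinearMap.isCompl_of_proj (f := P) fun x => ?_⟩
  ext1
  change Q.toA ((Q.gd)⁻¹ • Q.avg p (Q.toA.symm (x : Q.A))) = (x : Q.A)
  rw [avg_id_of, smul_smul, inv_mul_cancel₀ hD, one_smul, LinearEquiv.apply_symm_apply]
  intro g
  apply hp2
  rw [toA_comp, LinearEquiv.apply_symm_apply]
  exact L.smul_mem (Q.toA g) x.2

end Sph

end Pool.Agent.Lib.MP_d1a06a_al
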