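import Pool.Agent.Lib.MP_d1a06a_al.Tube

set_option autoImplicit false
set_option linter.unusedSectionVars false

open CategoryTheory MonoidalCategory CategoryTheory.Limits

namespace Pool.Agent.Lib.MP_d1a06a_al

universe v u

namespace SSData

variable {C : Type u} [Category.{v} C] [Preadditive C] [Linear ℂ C] [MonoidalCategory C]
  [MonoidalPreadditive C] [MonoidalLinear ℂ C] (𝒮 : SSData C)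

/-- tubes from `X` to `Y` -/
abbrev T (X Y : C) : Type v := (i : 𝒮.ι) → (𝒮.S i ⊗ X ⟶ Y ⊗ 𝒮.S i)

/-- tube supported on a single simple object -/
noncomputable def sg {X Y : C} (i : 𝒮.ι) : (𝒮.S i ⊗ X ⟶ Y ⊗ 𝒮.S i) →ₗ[ℂ] 𝒮.T X Y :=
  LinearMap.single ℂ (fun i => (𝒮.S i ⊗ X ⟶ Y ⊗ 𝒮.S i)) i

@[simp] lemma sg_same {X Y : C} (i : 𝒮.ι) (f : 𝒮.S i ⊗ X ⟶ Y ⊗ 𝒮.S i) : 𝒮.sg i f i = f := by
  simp [sg]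

lemma sg_ne {X Y : C} {i j : 𝒮.ι} (h : j ≠ i) (f : 𝒮.S i ⊗ X ⟶ Y ⊗ 𝒮.S i) :
    𝒮.sg i f j = 0 := by
  simp [sg, Pi.single_eq_of_ne h]

lemma sum_sg {X Y : C} (f : 𝒮.T X Y) : ∑ i, 𝒮.sg i (f i) = f := by
  unfold sg
  exact LinearMap.sum_single_apply _ f

/-- dinaturality for simple objects -/
lemma sg_dinat {X Y : C} {i j : 𝒮.ι} (s : 𝒮.S i ⟶ 𝒮.S j) (G : 𝒮.S j ⊗ X ⟶ Y ⊗ 𝒮.S i) :
    𝒮.sg j (G ≫ Y ◁ s) = 𝒮.sg i (s ▷ X ≫ G) := by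
  rw [← 𝒮.sc_smul s]
  by_cases h : i = j
  · subst h
    simp
  · rw [𝒮.e_ne h]
    simp

/-- the class in `T X Y` of a tube with arbitrary circumference object `M` -/
noncomputable def π {X Y : C} (M : C) : (M ⊗ X ⟶ Y ⊗ M) →ₗ[ℂ] 𝒮.T X Y where
  toFun F := ∑ k, 𝒮.sg (𝒮.c M k) (𝒮.inc M k ▷ X ≫ F ≫ Y ◁ 𝒮.proj M k)
  map_add' F G := by
    simp [Finset.sum_add_distrib]
  map_smul' z F := by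
    simp [Finset.smul_sum]

lemma π_apply {X Y : C} (M : C) (F : M ⊗ X ⟶ Y ⊗ M) :
    𝒮.π M F = ∑ k, 𝒮.sg (𝒮.c M k) (𝒮.inc M k ▷ X ≫ F ≫ Y ◁ 𝒮.proj M k) := rfl

lemma π_dinat {X Y : C} {M M' : C} (u : M' ⟶ M) (F : M ⊗ X ⟶ Y ⊗ M') :
    𝒮.π M (F ≫ Y ◁ u) = 𝒮.π M' (u ▷ X ≫ F) := by
  rw [π_apply, π_apply]
  have h1 : ∀ k, 𝒮.sg (𝒮.c M k) (𝒮.inc M k ▷ X ≫ (F ≫ Y ◁ u) ≫ Y ◁ 𝒮.proj M k) =
      ∑ l, 𝒮.sg (𝒮.c M k) ((𝒮.inc M k ▷ X ≫ F ≫ Y ◁ 𝒮.proj M' l) ≫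
        Y ◁ (𝒮.inc M' l ≫ u ≫ 𝒮.proj M k)) := by
    intro k
    rw [← map_sum]
    congr 1
    calc 𝒮.inc M k ▷ X ≫ (F ≫ Y ◁ u) ≫ Y ◁ 𝒮.proj M k
        = (𝒮.inc M k ▷ X ≫ F) ≫ Y ◁ (𝟙 M' ≫ u ≫ 𝒮.proj M k) := by simp
      _ = (𝒮.inc M k ▷ X ≫ F) ≫ Y ◁ ((∑ l, 𝒮.proj M' l ≫ 𝒮.inc M' l) ≫ u ≫ 𝒮.proj M k) := by
          rw [𝒮.total]
      _ = _ := by
          rw [Preadditive.sum_comp, whiskerLeft_sum, Preadditive.comp_sum]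
          refine Finset.sum_congr rfl fun l _ => ?_
          simp
  have h2 : ∀ l, 𝒮.sg (𝒮.c M' l) (𝒮.inc M' l ▷ X ≫ (u ▷ X ≫ F) ≫ Y ◁ 𝒮.proj M' l) =
      ∑ k, 𝒮.sg (𝒮.c M' l) ((𝒮.inc M' l ≫ u ≫ 𝒮.proj M k) ▷ X ≫
        (𝒮.inc M k ▷ X ≫ F ≫ Y ◁ 𝒮.proj M' l)) := by
    intro l
    rw [← map_sum]
    congr 1
    calc 𝒮.inc M' l ▷ X ≫ (u ▷ X ≫ F) ≫ Y ◁ 𝒮.proj M' l
        = ((𝒮.inc M' l ≫ u) ≫ 𝟙 M) ▷ X ≫ (F ≫ Y ◁ 𝒮.proj M' l) := by simp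
      _ = ((𝒮.inc M' l ≫ u) ≫ (∑ k, 𝒮.proj M k ≫ 𝒮.inc M k)) ▷ X ≫ (F ≫ Y ◁ 𝒮.proj M' l) := by
          rw [𝒮.total]
      _ = _ := by
          rw [Preadditive.comp_sum, sum_whiskerRight, Preadditive.sum_comp]
          refine Finset.sum_congr rfl fun l _ => ?_
          simp
  rw [Finset.sum_congr rfl fun k _ => h1 k, Finset.sum_congr rfl fun l _ => h2 l,
    Finset.sum_comm]
  refine Finset.sum_congr rfl fun l _ => Finset.sum_congr rfl fun k _ => ?_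
  exact 𝒮.sg_dinat _ _

/-- a tube with simple circumference -/
lemma π_S {X Y : C} (i : 𝒮.ι) (F : 𝒮.S i ⊗ X ⟶ Y ⊗ 𝒮.S i) : 𝒮.π (𝒮.S i) F = 𝒮.sg i F := by
  rw [π_apply]
  have : ∀ k, 𝒮.sg (𝒮.c (𝒮.S i) k) (𝒮.inc (𝒮.S i) k ▷ X ≫ F ≫ Y ◁ 𝒮.proj (𝒮.S i) k) =
      𝒮.sg i (((𝒮.proj (𝒮.S i) k ≫ 𝒮.inc (𝒮.S i) k) ▷ X) ≫ F) := by
    intro k
    have := 𝒮.sg_dinat (X := X) (Y := Y) (𝒮.proj (𝒮.S i) k) (𝒮.inc (𝒮.S i) k ▷ X ≫ F)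
    simpa using this
  rw [Finset.sum_congr rfl fun k _ => this k, ← map_sum, ← Preadditive.sum_comp,
    ← sum_whiskerRight, 𝒮.total]
  simp

/-- composite of two tubes, before decomposing the circumference -/
def tc {X Y Z V W : C} (F : W ⊗ X ⟶ Y ⊗ W) (G : V ⊗ Y ⟶ Z ⊗ V) : (V ⊗ W) ⊗ X ⟶ Z ⊗ (V ⊗ W) :=
  (α_ V W X).hom ≫ V ◁ F ≫ (α_ V Y W).inv ≫ G ▷ W ≫ (α_ Z V W).hom

/-- `tc` as a bilinear map -/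
noncomputable def tcL (X Y Z V W : C) :
    (W ⊗ X ⟶ Y ⊗ W) →ₗ[ℂ] (V ⊗ Y ⟶ Z ⊗ V) →ₗ[ℂ] ((V ⊗ W) ⊗ X ⟶ Z ⊗ (V ⊗ W)) :=
  LinearMap.mk₂ ℂ tc (by intros; simp [tc]) (by intros; simp [tc]) (by intros; simp [tc])
    (by intros; simp [tc])

@[simp] lemma tcL_apply {X Y Z V W : C} (F : W ⊗ X ⟶ Y ⊗ W) (G : V ⊗ Y ⟶ Z ⊗ V) :
    tcL X Y Z V W F G = tc F G := rfl

/-- composition of tubes (diagrammatic order), as a bilinear map -/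
noncomputable def compL (X Y Z : C) : 𝒮.T X Y →ₗ[ℂ] 𝒮.T Y Z →ₗ[ℂ] 𝒮.T X Z :=
  ∑ w, ∑ v, ((tcL X Y Z (𝒮.S v) (𝒮.S w)).compl₁₂ (LinearMap.proj w) (LinearMap.proj v)).compr₂
    (𝒮.π (𝒮.S v ⊗ 𝒮.S w))

/-- composition of tubes (diagrammatic order) -/
noncomputable def comp {X Y Z : C} (f : 𝒮.T X Y) (g : 𝒮.T Y Z) : 𝒮.T X Z := 𝒮.compL X Y Z f g

lemma comp_def {X Y Z : C} (f : 𝒮.T X Y) (g : 𝒮.T Y Z) :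
    𝒮.comp f g = ∑ w, ∑ v, 𝒮.π (𝒮.S v ⊗ 𝒮.S w) (tc (f w) (g v)) := by
  simp [comp, compL]

lemma comp_sg {X Y Z : C} (i j : 𝒮.ι) (f : 𝒮.S i ⊗ X ⟶ Y ⊗ 𝒮.S i)
    (g : 𝒮.S j ⊗ Y ⟶ Z ⊗ 𝒮.S j) :
    𝒮.comp (𝒮.sg i f) (𝒮.sg j g) = 𝒮.π (𝒮.S j ⊗ 𝒮.S i) (tc f g) := by
  rw [comp_def, Finset.sum_eq_single i, Finset.sum_eq_single j]
  · simp
  · intro b _ hb
    rw [𝒮.sg_ne hb, ← tcL_apply, map_zero, map_zero]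
  · simp
  · intro b _ hb
    refine Finset.sum_eq_zero fun v _ => ?_
    rw [𝒮.sg_ne hb, ← tcL_apply, map_zero, LinearMap.zero_apply, map_zero]
  · simp

lemma tc_whisker {X Y Z V W V' W' : C} (F : W ⊗ X ⟶ Y ⊗ W) (G : V ⊗ Y ⟶ Z ⊗ V)
    (i : W' ⟶ W) (p : W ⟶ W') (j : V' ⟶ V) (q : V ⟶ V') :
    tc (i ▷ X ≫ F ≫ Y ◁ p) (j ▷ Y ≫ G ≫ Z ◁ q) =
      (j ⊗ₘ i) ▷ X ≫ tc F G ≫ Z ◁ (q ⊗ₘ p) := by
  calc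
    _ = 𝟙 _ ⊗≫ V' ◁ i ▷ X ⊗≫ V' ◁ F ⊗≫
          ((V' ⊗ Y) ◁ p ≫ (j ▷ Y ≫ G ≫ Z ◁ q) ▷ W') ⊗≫ 𝟙 _ := by
      simp only [tc]; monoidal
    _ = 𝟙 _ ⊗≫ V' ◁ i ▷ X ⊗≫ (V' ◁ F ≫ j ▷ (Y ⊗ W)) ⊗≫ G ▷ W ⊗≫
          (Z ◁ q) ▷ W ⊗≫ (Z ⊗ V') ◁ p ⊗≫ 𝟙 _ := by
      rw [whisker_exchange]; monoidal
    _ = _ := by
      rw [whisker_exchange, MonoidalCategory.tensorHom_def' j i,
        MonoidalCategory.tensorHom_def q p]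
      simp only [tc]; monoidal

lemma comp_ππ {X Y Z : C} {V W : C} (F : W ⊗ X ⟶ Y ⊗ W) (G : V ⊗ Y ⟶ Z ⊗ V) :
    𝒮.comp (𝒮.π W F) (𝒮.π V G) = 𝒮.π (V ⊗ W) (tc F G) := by
  rw [π_apply, π_apply]
  simp only [comp, map_sum, LinearMap.sum_apply]
  have h : ∀ k l, 𝒮.compL X Y Z (𝒮.sg (𝒮.c W k) (𝒮.inc W k ▷ X ≫ F ≫ Y ◁ 𝒮.proj W k))
      (𝒮.sg (𝒮.c V l) (𝒮.inc V l ▷ Y ≫ G ≫ Z ◁ 𝒮.proj V l)) =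
      𝒮.π (V ⊗ W) (tc F G ≫ Z ◁ ((𝒮.proj V l ≫ 𝒮.inc V l) ⊗ₘ (𝒮.proj W k ≫ 𝒮.inc W k))) := by
    intro k l
    have := 𝒮.comp_sg (𝒮.c W k) (𝒮.c V l) (𝒮.inc W k ▷ X ≫ F ≫ Y ◁ 𝒮.proj W k)
      (𝒮.inc V l ▷ Y ≫ G ≫ Z ◁ 𝒮.proj V l)
    rw [comp] at this
    rw [this, tc_whisker, ← 𝒮.π_dinat, Category.assoc, ← whiskerLeft_comp,
      tensorHom_comp_tensorHom]
  simp only [h, ← map_sum, ← Preadditive.comp_sum, ← whiskerLeft_sum, ← tensor_sum, ← sum_tensor,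
    𝒮.total]
  simp

lemma π_iso {X Y M M' : C} (e : M ≅ M') (H : M' ⊗ X ⟶ Y ⊗ M') :
    𝒮.π M (e.hom ▷ X ≫ H ≫ Y ◁ e.inv) = 𝒮.π M' H := by
  have := 𝒮.π_dinat (X := X) (Y := Y) e.inv (e.hom ▷ X ≫ H)
  rw [Category.assoc] at this
  rw [this, inv_hom_whiskerRight_assoc]

/-- a morphism of `C` as a tube -/
noncomputable def J (X Y : C) : (X ⟶ Y) →ₗ[ℂ] 𝒮.T X Y where
  toFun f := 𝒮.π (𝟙_ C) ((λ_ X).hom ≫ f ≫ (ρ_ Y).inv)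
  map_add' f g := by simp
  map_smul' z f := by simp

lemma J_apply {X Y : C} (f : X ⟶ Y) :
    𝒮.J X Y f = 𝒮.π (𝟙_ C) ((λ_ X).hom ≫ f ≫ (ρ_ Y).inv) := rfl

lemma comp_add_left {X Y Z : C} (f f' : 𝒮.T X Y) (g : 𝒮.T Y Z) :
    𝒮.comp (f + f') g = 𝒮.comp f g + 𝒮.comp f' g := by simp [comp]

lemma comp_add_right {X Y Z : C} (f : 𝒮.T X Y) (g g' : 𝒮.T Y Z) :
    𝒮.comp f (g + g') = 𝒮.comp f g + 𝒮.comp f g' := by simp [comp]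

lemma comp_smul_left {X Y Z : C} (z : ℂ) (f : 𝒮.T X Y) (g : 𝒮.T Y Z) :
    𝒮.comp (z • f) g = z • 𝒮.comp f g := by simp [comp]

lemma comp_smul_right {X Y Z : C} (z : ℂ) (f : 𝒮.T X Y) (g : 𝒮.T Y Z) :
    𝒮.comp f (z • g) = z • 𝒮.comp f g := by simp [comp]

lemma comp_sum_left {X Y Z : C} {α : Type*} (s : Finset α) (f : α → 𝒮.T X Y) (g : 𝒮.T Y Z) :
    𝒮.comp (∑ a ∈ s, f a) g = ∑ a ∈ s, 𝒮.comp (f a) g := by simp [comp]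

lemma comp_sum_right {X Y Z : C} {α : Type*} (s : Finset α) (f : 𝒮.T X Y) (g : α → 𝒮.T Y Z) :
    𝒮.comp f (∑ a ∈ s, g a) = ∑ a ∈ s, 𝒮.comp f (g a) := by simp [comp]

/-- every tube is a sum of tubes `π (S i) F` -/
@[elab_as_elim]
lemma T_induction {X Y : C} {P : 𝒮.T X Y → Prop} (f : 𝒮.T X Y)
    (hadd : ∀ f g, P f → P g → P (f + g))
    (h0 : P 0) (hπ : ∀ (M : C) (F : M ⊗ X ⟶ Y ⊗ M), P (𝒮.π M F)) : P f := by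
  rw [← 𝒮.sum_sg f]
  refine Finset.sum_induction _ P hadd h0 fun i _ => ?_
  rw [← 𝒮.π_S]
  exact hπ _ _

lemma tc_J {X Y Z V : C} (f : X ⟶ Y) (G : V ⊗ Y ⟶ Z ⊗ V) :
    tc ((λ_ X).hom ≫ f ≫ (ρ_ Y).inv) G =
      (ρ_ V).hom ▷ X ≫ (V ◁ f ≫ G) ≫ Z ◁ (ρ_ V).inv := by
  simp only [tc]
  calc
    _ = 𝟙 _ ⊗≫ V ◁ f ⊗≫ (G ▷ 𝟙_ C) ⊗≫ 𝟙 _ := by monoidal
    _ = _ := by rw [whiskerRight_id]; monoidal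

lemma tc_J' {X Y Z V : C} (F : V ⊗ X ⟶ Y ⊗ V) (g : Y ⟶ Z) :
    tc F ((λ_ Y).hom ≫ g ≫ (ρ_ Z).inv) =
      (λ_ V).hom ▷ X ≫ (F ≫ g ▷ V) ≫ Z ◁ (λ_ V).inv := by
  simp only [tc]
  calc
    _ = 𝟙 _ ⊗≫ (𝟙_ C ◁ F) ⊗≫ g ▷ V ⊗≫ 𝟙 _ := by monoidal
    _ = _ := by rw [id_whiskerLeft]; monoidal

lemma comp_J_π {X Y Z V : C} (f : X ⟶ Y) (G : V ⊗ Y ⟶ Z ⊗ V) :
    𝒮.comp (𝒮.J X Y f) (𝒮.π V G) = 𝒮.π V (V ◁ f ≫ G) := by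
  rw [J_apply, comp_ππ, tc_J, 𝒮.π_iso]

lemma comp_π_J {X Y Z V : C} (F : V ⊗ X ⟶ Y ⊗ V) (g : Y ⟶ Z) :
    𝒮.comp (𝒮.π V F) (𝒮.J Y Z g) = 𝒮.π V (F ≫ g ▷ V) := by
  rw [J_apply, comp_ππ, tc_J', 𝒮.π_iso]

lemma J_comp {X Y Z : C} (f : X ⟶ Y) (g : Y ⟶ Z) :
    𝒮.comp (𝒮.J X Y f) (𝒮.J Y Z g) = 𝒮.J X Z (f ≫ g) := by
  rw [𝒮.J_apply g, comp_J_π, J_apply]
  congr 1
  simp

lemma id_comp_T {X Y : C} (f : 𝒮.T X Y) : 𝒮.comp (𝒮.J X X (𝟙 X)) f = f := by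
  refine 𝒮.T_induction f ?_ ?_ ?_
  · intro f g hf hg
    rw [comp_add_right, hf, hg]
  · simp [comp]
  · intro M F
    rw [comp_J_π]
    simp

lemma comp_id_T {X Y : C} (f : 𝒮.T X Y) : 𝒮.comp f (𝒮.J Y Y (𝟙 Y)) = f := by
  refine 𝒮.T_induction f ?_ ?_ ?_
  · intro f g hf hg
    rw [comp_add_left, hf, hg]
  · simp [comp]
  · intro M F
    rw [comp_π_J]
    simp

lemma tc_assoc {X Y Z A U V W : C} (F : U ⊗ X ⟶ Y ⊗ U) (G : V ⊗ Y ⟶ Z ⊗ V)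
    (H : W ⊗ Z ⟶ A ⊗ W) :
    tc F (tc G H) = (α_ W V U).hom ▷ X ≫ tc (tc F G) H ≫ A ◁ (α_ W V U).inv := by
  simp only [tc]
  monoidal

lemma comp_assoc {X Y Z A : C} (f : 𝒮.T X Y) (g : 𝒮.T Y Z) (h : 𝒮.T Z A) :
    𝒮.comp (𝒮.comp f g) h = 𝒮.comp f (𝒮.comp g h) := by
  refine 𝒮.T_induction f ?_ ?_ ?_
  · intro f f' hf hg
    simp only [comp_add_left, hf, hg]
  · simp [comp]
  intro U F
  refine 𝒮.T_induction g ?_ ?_ ?_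
  · intro f f' hf hg
    simp only [comp_add_left, comp_add_right, hf, hg]
  · simp [comp]
  intro V G
  refine 𝒮.T_induction h ?_ ?_ ?_
  · intro f f' hf hg
    simp only [comp_add_right, hf, hg]
  · simp [comp]
  intro W H
  rw [comp_ππ, comp_ππ, comp_ππ, comp_ππ, tc_assoc, 𝒮.π_iso]

end SSData

/-- the tube category -/
structure Tub {C : Type u} [Category.{v} C] [Preadditive C] [Linear ℂ C] (𝒮 : SSData C) where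
  as : C

namespace Tub

variable {C : Type u} [Category.{v} C] [Preadditive C] [Linear ℂ C] [MonoidalCategory C]
  [MonoidalPreadditive C] [MonoidalLinear ℂ C] (𝒮 : SSData C)

noncomputable instance : Category (Tub 𝒮) where
  Hom X Y := 𝒮.T X.as Y.as
  id X := 𝒮.J X.as X.as (𝟙 X.as)
  comp f g := 𝒮.comp f g
  id_comp f := 𝒮.id_comp_T f
  comp_id f := 𝒮.comp_id_T f
  assoc f g h := 𝒮.comp_assoc f g h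

noncomputable instance : Preadditive (Tub 𝒮) where
  homGroup X Y := inferInstanceAs (AddCommGroup (𝒮.T X.as Y.as))
  add_comp := fun _ _ _ f f' g => 𝒮.comp_add_left f f' g
  comp_add := fun _ _ _ f g g' => 𝒮.comp_add_right f g g'

noncomputable instance : Linear ℂ (Tub 𝒮) where
  homModule X Y := inferInstanceAs (Module ℂ (𝒮.T X.as Y.as))
  smul_comp := fun _ _ _ z f g => 𝒮.comp_smul_left z f g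
  comp_smul := fun _ _ _ f z g => 𝒮.comp_smul_right z f g

end Tub

end Pool.Agent.Lib.MP_d1a06a_al
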