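import Pool.Agent.Lib.MP_d1a06a_al.Defs
import Pool.Agent.Lib.MP_d1a06a_al.TubCat

set_option autoImplicit false
set_option linter.unusedSectionVars false

open CategoryTheory MonoidalCategory CategoryTheory.Limits ExactPairing

namespace Pool.Agent.Lib.MP_d1a06a_al

universe v u

namespace PivotalStructure

variable {C : Type u} [Category.{v} C] [MonoidalCategory C] [RightRigidCategory C]
  (P : PivotalStructure C)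

/-- the right dual -/
abbrev D (X : C) : C := (Xᘁ : C)

/-- coevaluation `𝟙 ⟶ X ⊗ X*` -/
abbrev co (X : C) : 𝟙_ C ⟶ X ⊗ D X := η_ X (D X)

/-- evaluation `X* ⊗ X ⟶ 𝟙` -/
abbrev ev (X : C) : D X ⊗ X ⟶ 𝟙_ C := ε_ X (D X)

/-- coevaluation `𝟙 ⟶ X* ⊗ X` -/
def co' (X : C) : 𝟙_ C ⟶ D X ⊗ X := η_ (D X) (D (D X)) ≫ D X ◁ (P.δ X).inv

/-- evaluation `X ⊗ X* ⟶ 𝟙` -/
def ev' (X : C) : X ⊗ D X ⟶ 𝟙_ C := (P.δ X).hom ▷ D X ≫ ε_ (D X) (D (D X))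

/-- the adjoint mate, with respect to the chosen duals -/
abbrev mate {M' M : C} (u : M' ⟶ M) : D M ⟶ D M' := uᘁ

lemma dim_eq (X : C) : P.dim X = co X ≫ P.ev' X := rfl

lemma zig (X : C) : D X ◁ co X ⊗≫ ev X ▷ D X = ⊗𝟙.hom := coevaluation_evaluation'' _ _

lemma zag (X : C) : co X ▷ X ⊗≫ X ◁ ev X = ⊗𝟙.hom := evaluation_coevaluation'' _ _

/-- the other exact pairing -/
@[implicit_reducible]
def pair (X : C) : ExactPairing (D X) X := exactPairingCongrRight (P.δ X)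

lemma zig' (X : C) : X ◁ P.co' X ⊗≫ P.ev' X ▷ X = ⊗𝟙.hom := by
  let _ := P.pair X
  exact coevaluation_evaluation'' (D X) X

lemma zag' (X : C) : P.co' X ▷ D X ⊗≫ D X ◁ P.ev' X = ⊗𝟙.hom := by
  let _ := P.pair X
  exact evaluation_coevaluation'' (D X) X

@[reassoc]
lemma ev'_nat {M M' : C} (u : M' ⟶ M) :
    u ▷ D M ≫ P.ev' M = M' ◁ (uᘁ : D M ⟶ D M') ≫ P.ev' M' := by
  unfold ev'
  rw [← comp_whiskerRight_assoc, P.naturality, comp_whiskerRight_assoc,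
    rightAdjointMate_comp_evaluation, whisker_exchange_assoc]

@[reassoc]
lemma co_nat {M M' : C} (u : M' ⟶ M) :
    co M ≫ M ◁ (uᘁ : D M ⟶ D M') = co M' ≫ u ▷ D M' :=
  coevaluation_comp_rightAdjointMate u

/-- the canonical isomorphism `(V ⊗ W)* ≅ W* ⊗ V*` -/
abbrev κ (V W : C) : D (V ⊗ W) ≅ D W ⊗ D V := rightDualTensorIso V W

@[reassoc]
lemma co_tensor (V W : C) : co (V ⊗ W) ≫ (V ⊗ W) ◁ (κ V W).hom =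
    co V ⊗≫ (V ◁ co W) ▷ D V ⊗≫ 𝟙 _ := by
  have := @coevaluation_comp_rightAdjointMate C _ _ (V ⊗ W) (V ⊗ W) ⟨D W ⊗ D V⟩
    ⟨D (V ⊗ W)⟩ (𝟙 _)
  rw [id_whiskerRight, Category.comp_id] at this
  exact this

@[reassoc]
lemma ev_tensor (V W : C) : (κ V W).hom ▷ (V ⊗ W) ≫ ε_ (V ⊗ W) (D W ⊗ D V) = ev (V ⊗ W) := by
  have := @rightAdjointMate_comp_evaluation C _ _ (V ⊗ W) (V ⊗ W) ⟨D W ⊗ D V⟩
    ⟨D (V ⊗ W)⟩ (𝟙 _)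
  rw [whiskerLeft_id, Category.id_comp] at this
  exact this

/-- the evaluation `(V ⊗ W) ⊗ (W* ⊗ V*) ⟶ 𝟙` built from `ev'` -/
def ev'T (V W : C) : (V ⊗ W) ⊗ (D W ⊗ D V) ⟶ 𝟙_ C :=
  𝟙 _ ⊗≫ V ◁ (P.ev' W ▷ D V) ⊗≫ P.ev' V

lemma ev'_tensor (V W : C) :
    P.ev' (V ⊗ W) = (V ⊗ W) ◁ (κ V W).hom ≫ P.ev'T V W := by
  have h1 := rightAdjointMate_comp_evaluation (κ V W).inv
  have h2 := ev_tensor (D W) (D V)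
  have h3 : ε_ (D (V ⊗ W)) (D (D (V ⊗ W))) = D (D (V ⊗ W)) ◁ (κ V W).hom ≫
      ((κ V W).inv)ᘁ ▷ (D W ⊗ D V) ≫ (κ (D W) (D V)).hom ▷ (D W ⊗ D V) ≫
      ε_ (D W ⊗ D V) (D (D V) ⊗ D (D W)) := by
    rw [h2, h1, ← whiskerLeft_comp_assoc, Iso.hom_inv_id, whiskerLeft_id, Category.id_comp]
  have h4 := P.tensor V W
  unfold ev' ev'T
  rw [h3]
  calc
    _ = (V ⊗ W) ◁ (κ V W).hom ≫
        ((P.δ (V ⊗ W)).hom ≫ ((κ V W).inv)ᘁ ≫ (κ (D W) (D V)).hom) ▷ (D W ⊗ D V) ≫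
        ε_ (D W ⊗ D V) (D (D V) ⊗ D (D W)) := by
      rw [← whisker_exchange_assoc]
      simp only [comp_whiskerRight, Category.assoc]
    _ = (V ⊗ W) ◁ (κ V W).hom ≫
        ((P.δ V).hom ⊗ₘ (P.δ W).hom) ▷ (D W ⊗ D V) ≫
        ε_ (D W ⊗ D V) (D (D V) ⊗ D (D W)) := by
      rw [h4]
    _ = _ := by
      congr 1
      rw [ExactPairing.tensor_evaluation, MonoidalCategory.tensorHom_def']
      unfold ev'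
      calc
        _ = 𝟙 _ ⊗≫ (V ◁ (P.δ W).hom) ▷ D W ▷ D V ⊗≫ ((P.δ V).hom ▷ ((D (D W) ⊗ D W) ⊗ D V) ≫
              D (D V) ◁ (ε_ (D W) (D (D W)) ▷ D V)) ⊗≫ ε_ (D V) (D (D V)) := by
          monoidal
        _ = _ := by
          rw [← whisker_exchange]; monoidal

/-- partial trace of `F : M ⟶ Y ⊗ M` -/
def ptr {Y : C} (M : C) (F : M ⟶ Y ⊗ M) : 𝟙_ C ⟶ Y :=
  co M ≫ F ▷ D M ≫ (α_ Y M (D M)).hom ≫ Y ◁ P.ev' M ≫ (ρ_ Y).hom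

lemma ptr_dinat {Y M M' : C} (u : M' ⟶ M) (F : M ⟶ Y ⊗ M') :
    P.ptr M (F ≫ Y ◁ u) = P.ptr M' (u ≫ F) := by
  unfold ptr
  calc
    _ = co M ≫ F ▷ D M ≫ (α_ Y M' (D M)).hom ≫ Y ◁ (u ▷ D M ≫ P.ev' M) ≫ (ρ_ Y).hom := by
      monoidal
    _ = (co M ≫ M ◁ (uᘁ : D M ⟶ D M')) ≫ F ▷ D M' ≫ (α_ Y M' (D M')).hom ≫
          Y ◁ (P.ev' M') ≫ (ρ_ Y).hom := by
      rw [P.ev'_nat, whiskerLeft_comp, Category.assoc, Category.assoc]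
      congr 1
      rw [whisker_exchange_assoc]
      simp
    _ = _ := by
      rw [co_nat]; simp

/-- a tube acts on morphisms out of the unit by partial trace -/
def act {X Y : C} (M : C) (F : M ⊗ X ⟶ Y ⊗ M) (x : 𝟙_ C ⟶ X) : 𝟙_ C ⟶ Y :=
  P.ptr M ((ρ_ M).inv ≫ M ◁ x ≫ F)

lemma act_tc {X Y Z V W : C} (F : W ⊗ X ⟶ Y ⊗ W) (G : V ⊗ Y ⟶ Z ⊗ V) (x : 𝟙_ C ⟶ X) :
    P.act (V ⊗ W) (SSData.tc F G) x = P.act V G (P.act W F x) := by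
  unfold act ptr
  calc
    _ = co (V ⊗ W) ≫ ((ρ_ (V ⊗ W)).inv ≫ (V ⊗ W) ◁ x ≫ SSData.tc F G) ▷ D (V ⊗ W) ≫
          (α_ Z (V ⊗ W) (D (V ⊗ W))).hom ≫ Z ◁ ((V ⊗ W) ◁ (κ V W).hom ≫ P.ev'T V W) ≫
          (ρ_ Z).hom := by
      rw [ev'_tensor]
    _ = (co (V ⊗ W) ≫ (V ⊗ W) ◁ (κ V W).hom) ≫
          ((ρ_ (V ⊗ W)).inv ≫ (V ⊗ W) ◁ x ≫ SSData.tc F G) ▷ (D W ⊗ D V) ≫
          (α_ Z (V ⊗ W) _).hom ≫ Z ◁ (P.ev'T V W) ≫ (ρ_ Z).hom := by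
      rw [Category.assoc]
      congr 1
      rw [whisker_exchange_assoc]
      simp
    _ = co V ⊗≫ (V ◁ (co W ⊗≫ (W ◁ x) ▷ D W ⊗≫ F ▷ D W)) ▷ D V ⊗≫
          (G ▷ (W ⊗ D W) ≫ (Z ⊗ V) ◁ P.ev' W) ▷ D V ⊗≫ Z ◁ P.ev' V ⊗≫ 𝟙 _ := by
      rw [co_tensor]
      simp only [SSData.tc, ev'T]
      monoidal
    _ = co V ⊗≫ (V ◁ (co W ⊗≫ (W ◁ x) ▷ D W ⊗≫ F ▷ D W)) ▷ D V ⊗≫
          ((V ⊗ Y) ◁ P.ev' W ≫ G ▷ 𝟙_ C) ▷ D V ⊗≫ Z ◁ P.ev' V ⊗≫ 𝟙 _ := by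
      rw [whisker_exchange]
    _ = _ := by
      rw [whiskerRight_id]
      monoidal

lemma snake_δ (X : C) : 𝟙 _ ⊗≫ X ◁ co (D X) ⊗≫ P.ev' X ▷ D (D X) ⊗≫ 𝟙 _ = (P.δ X).hom := by
  unfold ev'
  calc
    _ = 𝟙 _ ⊗≫ (X ◁ co (D X) ≫ (P.δ X).hom ▷ (D X ⊗ D (D X))) ⊗≫
          ε_ (D X) (D (D X)) ▷ D (D X) ⊗≫ 𝟙 _ := by monoidal
    _ = 𝟙 _ ⊗≫ (P.δ X).hom ⊗≫ (D (D X) ◁ co (D X) ⊗≫ ev (D X) ▷ D (D X)) ⊗≫ 𝟙 _ := by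
      rw [whisker_exchange]; monoidal
    _ = _ := by rw [zig]; monoidal

lemma dual_ev (X : C) : co (𝟙_ C) ≫ (λ_ _).hom ≫ mate (ev X) ≫ (κ (D X) X).hom = co (D X) := by
  have h1 := co_nat (M := 𝟙_ C) (u := ev X)
  calc
    _ = (co (𝟙_ C) ≫ 𝟙_ C ◁ (mate (ev X))) ≫ (λ_ _).hom ≫ (κ (D X) X).hom := by
      rw [Category.assoc, leftUnitor_naturality_assoc]
    _ = (co (D X ⊗ X) ≫ (D X ⊗ X) ◁ (κ (D X) X).hom) ≫ ev X ▷ (D X ⊗ D (D X)) ≫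
          (λ_ _).hom := by
      rw [h1, Category.assoc, Category.assoc, whisker_exchange_assoc, leftUnitor_naturality]
    _ = co (D X) ⊗≫ (D X ◁ co X ⊗≫ ev X ▷ D X) ▷ D (D X) ⊗≫ 𝟙 _ := by
      rw [co_tensor]; monoidal
    _ = _ := by rw [zig]; monoidal

/-- the two evaluations `X* ⊗ X ⟶ 𝟙` agree up to the dimension of the unit -/
lemma ev_dim_unit (X : C) : ev X ≫ P.dim (𝟙_ C) = D X ◁ (P.δ X).hom ≫ P.ev' (D X) := by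
  have h1 := P.ev'_nat (M := 𝟙_ C) (u := ev X)
  calc
    _ = (ρ_ _).inv ≫ (D X ⊗ X) ◁ (co (𝟙_ C) ≫ (λ_ _).hom) ≫
          (ev X ▷ D (𝟙_ C) ≫ P.ev' (𝟙_ C)) := by
      rw [whisker_exchange_assoc, dim_eq]
      monoidal
    _ = (ρ_ _).inv ≫ (D X ⊗ X) ◁ (co (𝟙_ C) ≫ (λ_ _).hom ≫ mate (ev X) ≫ (κ (D X) X).hom) ≫
          P.ev'T (D X) X := by
      rw [h1, ev'_tensor]; simp
    _ = D X ◁ (𝟙 _ ⊗≫ X ◁ co (D X) ⊗≫ P.ev' X ▷ D (D X) ⊗≫ 𝟙 _) ≫ P.ev' (D X) := by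
      rw [dual_ev]
      simp only [ev'T]
      monoidal
    _ = _ := by rw [snake_δ]

lemma dim'_eq (X : C) : P.co' X ≫ ev X ≫ P.dim (𝟙_ C) = P.dim (D X) := by
  rw [ev_dim_unit, dim_eq]
  unfold co'
  rw [Category.assoc, ← whiskerLeft_comp_assoc, Iso.inv_hom_id, whiskerLeft_id,
    Category.id_comp]

end PivotalStructure

end Pool.Agent.Lib.MP_d1a06a_al
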