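import Pool.Agent.Lib.MP_d1a06a_al.BFun2
import Pool.Agent.Lib.MP_d1a06a_al.CycDefs

set_option autoImplicit false
set_option linter.unusedSectionVars false

open CategoryTheory MonoidalCategory

namespace Pool.Agent.Lib.MP_d1a06a_al

universe v u w

variable {C : Type u} [Category.{v} C] [Preadditive C] [Linear ℂ C] [MonoidalCategory C]
  [MonoidalPreadditive C] [MonoidalLinear ℂ C]

lemma sum_c (𝒮 : SSData C) (i j : 𝒮.ι) (φ : 𝒮.ι → ℂ) :
    ∑ l, φ (𝒮.c (𝒮.S i ⊗ 𝒮.S j) l) = ∑ k, (𝒮.N i j k : ℂ) * φ k := by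
  have h : ∀ k, (𝒮.N i j k : ℂ) * φ k =
      ∑ l, if 𝒮.c (𝒮.S i ⊗ 𝒮.S j) l = k then φ k else 0 := by
    intro k
    rw [← Finset.sum_filter, Finset.sum_const, nsmul_eq_mul]
    rfl
  simp only [h]
  rw [Finset.sum_comm]
  refine Finset.sum_congr rfl fun l _ => ?_
  simp

namespace BF

variable {𝒮 : SSData C} (G : BF.{v, u, w} 𝒮) (L : LogQ)

lemma g_hx (a x : 𝒮.ι) : (hx 𝒮 a).g x = if a = x then 1 else 0 := by
  unfold g
  split_ifs with h
  · subst h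
    exact Fintype.card_eq_one_iff.2 ⟨⟨rfl⟩, fun _ => Subsingleton.elim _ _⟩
  · exact Fintype.card_eq_zero_iff.2 ⟨fun ⟨h'⟩ => h h'⟩

lemma card_K (x z : 𝒮.ι) : (Fintype.card (G.K (𝒮.S x ⊗ 𝒮.S z)) : ℂ) =
    ∑ u, (𝒮.N x z u : ℂ) * G.g u := by
  rw [← sum_c 𝒮 x z (fun u => (G.g u : ℂ)), Fintype.card_sigma]
  push_cast
  rfl

lemma g_R (x z : 𝒮.ι) : ((G.R z).g x : ℂ) = ∑ u, (𝒮.N x z u : ℂ) * G.g u := G.card_K x z

lemma g_Lf (x z : 𝒮.ι) : ((G.Lf z).g x : ℂ) = ∑ u, (𝒮.N z x u : ℂ) * G.g u := G.card_K z x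

lemma fa_eqC (i j k : 𝒮.ι) :
    (G.fa L i j k : ℂ) = ∑ x, (G.g x : ℂ) * ((hx 𝒮 x).fa L i j k : ℂ) := by
  rw [G.fa_eq]
  push_cast
  rfl

lemma pentC (a w x y z : 𝒮.ι) :
    ∑ u, (𝒮.N u z a : ℂ) * ((hx 𝒮 u).fa L w x y : ℂ) +
      ∑ u, (𝒮.N x y u : ℂ) * ((hx 𝒮 a).fa L w u z : ℂ) +
      ∑ u, (𝒮.N w u a : ℂ) * ((hx 𝒮 u).fa L x y z : ℂ) =
    ∑ u, (𝒮.N w x u : ℂ) * ((hx 𝒮 a).fa L u y z : ℂ) +
      ∑ u, (𝒮.N y z u : ℂ) * ((hx 𝒮 a).fa L w x u : ℂ) := by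
  have h := congrArg (fun q : ℚ => (q : ℂ)) ((hx 𝒮 a).pent L w x y z)
  simp only [Rat.cast_add, Rat.cast_sum] at h
  rw [fa_eqC, fa_eqC ((hx 𝒮 a).Lf w)] at h
  have h1 : ∀ u, (((hx 𝒮 a).R z).g u : ℂ) = (𝒮.N u z a : ℂ) := by
    intro u
    rw [g_R]
    simp [g_hx]
  have h2 : ∀ u, (((hx 𝒮 a).Lf w).g u : ℂ) = (𝒮.N w u a : ℂ) := by
    intro u
    rw [g_Lf]
    simp [g_hx]
  simp only [h1, h2] at h
  rw [sum_c 𝒮 x y (fun u => ((hx 𝒮 a).fa L w u z : ℂ)),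
    sum_c 𝒮 w x (fun u => ((hx 𝒮 a).fa L u y z : ℂ)),
    sum_c 𝒮 y z (fun u => ((hx 𝒮 a).fa L w x u : ℂ))] at h
  exact h

end BF

section weights

variable {ι : Type} [Fintype ι] (d : ι → ℂ)

/-- weighted sum -/
def E (φ : ι → ℂ) : ℂ := ∑ i, d i * φ i

lemma E_comm (φ : ι → ι → ℂ) : E d (fun i => E d (fun j => φ i j)) =
    E d (fun j => E d (fun i => φ i j)) := by
  simp only [E, Finset.mul_sum]
  rw [Finset.sum_comm]
  refine Finset.sum_congr rfl fun i _ => Finset.sum_congr rfl fun j _ => ?_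
  ring

lemma E_add (φ ψ : ι → ℂ) : E d (fun i => φ i + ψ i) = E d φ + E d ψ := by
  simp only [E, mul_add, Finset.sum_add_distrib]

lemma E_neg (φ : ι → ℂ) : E d (fun i => - φ i) = - E d φ := by
  simp only [E, mul_neg, Finset.sum_neg_distrib]

lemma E_mul (c : ℂ) (φ : ι → ℂ) : E d (fun i => c * φ i) = c * E d φ := by
  simp only [E, Finset.mul_sum]
  refine Finset.sum_congr rfl fun i _ => ?_
  ring

lemma E_sum (N : ι → ℂ) (φ : ι → ι → ℂ) : E d (fun i => ∑ u, N u * φ u i) =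
    ∑ u, N u * E d (φ u) := by
  simp only [E, Finset.mul_sum]
  rw [Finset.sum_comm]
  refine Finset.sum_congr rfl fun i _ => Finset.sum_congr rfl fun j _ => ?_
  ring

variable (N : ι → ι → ι → ℂ)

lemma EB (h2 : ∀ i k, ∑ j, d j * N i j k = d i * d k) (a : ι) (ψ : ι → ℂ) :
    E d (fun z => ∑ u, N u z a * ψ u) = d a * E d ψ := by
  calc _ = ∑ u, (∑ z, d z * N u z a) * ψ u := by
        simp only [E, Finset.mul_sum, Finset.sum_mul]
        rw [Finset.sum_comm]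
        refine Finset.sum_congr rfl fun i _ => Finset.sum_congr rfl fun j _ => ?_
        ring
    _ = _ := by
        simp only [h2, E, Finset.mul_sum]
        refine Finset.sum_congr rfl fun i _ => ?_
        ring

lemma EC (h1 : ∀ j k, ∑ i, d i * N i j k = d j * d k) (a : ι) (ψ : ι → ℂ) :
    E d (fun w => ∑ u, N w u a * ψ u) = d a * E d ψ := by
  calc _ = ∑ u, (∑ w, d w * N w u a) * ψ u := by
        simp only [E, Finset.mul_sum, Finset.sum_mul]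
        rw [Finset.sum_comm]
        refine Finset.sum_congr rfl fun i _ => Finset.sum_congr rfl fun j _ => ?_
        ring
    _ = _ := by
        simp only [h1, E, Finset.mul_sum]
        refine Finset.sum_congr rfl fun i _ => ?_
        ring

lemma EA (h1 : ∀ j k, ∑ i, d i * N i j k = d j * d k) (φ : ι → ℂ) :
    E d (fun x => E d (fun y => ∑ u, N x y u * φ u)) = (∑ i, d i * d i) * E d φ := by
  have h : ∀ y, E d (fun x => ∑ u, N x y u * φ u) = d y * E d φ := by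
    intro y
    calc _ = ∑ u, (∑ x, d x * N x y u) * φ u := by
          simp only [E, Finset.mul_sum, Finset.sum_mul]
          rw [Finset.sum_comm]
          refine Finset.sum_congr rfl fun i _ => Finset.sum_congr rfl fun j _ => ?_
          ring
      _ = _ := by
          simp only [h1, E, Finset.mul_sum]
          refine Finset.sum_congr rfl fun i _ => ?_
          ring
  rw [E_comm]
  simp only [h]
  rw [Finset.sum_mul]
  change ∑ y, d y * (d y * E d φ) = _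
  refine Finset.sum_congr rfl fun i _ => ?_
  ring

/-- the pentagon identity forces the weighted sums to vanish -/
lemma pent_zero (h1 : ∀ j k, ∑ i, d i * N i j k = d j * d k)
    (h2 : ∀ i k, ∑ j, d j * N i j k = d i * d k) (hD : ∑ i, d i * d i ≠ 0)
    (f : ι → ι → ι → ι → ℂ)
    (hp : ∀ a w x y z, ∑ u, N u z a * f u w x y + ∑ u, N x y u * f a w u z +
      ∑ u, N w u a * f u x y z = ∑ u, N w x u * f a u y z + ∑ u, N y z u * f a w x u) (a : ι) :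
    E d (fun i => E d fun j => E d fun k => f a i j k) = 0 := by
  set D := ∑ i, d i * d i with hDdef
  let FF : ι → ℂ := fun a => E d (fun i => E d fun j => E d fun k => f a i j k)
  have hG : ∀ a, D * FF a = 2 * (d a * E d FF) := by
    intro a
    have key : (E d fun w => E d fun x => E d fun y => E d fun z =>
        (∑ u, N u z a * f u w x y + ∑ u, N x y u * f a w u z + ∑ u, N w u a * f u x y z)) =
        (E d fun w => E d fun x => E d fun y => E d fun z =>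
          (∑ u, N w x u * f a u y z + ∑ u, N y z u * f a w x u)) := by
      simp only [hp]
    simp only [E_add] at key
    have t1 : (E d fun w => E d fun x => E d fun y => E d fun z =>
        ∑ u, N u z a * f u w x y) = d a * E d FF := by
      have e1 : ∀ w x y, (E d fun z => ∑ u, N u z a * f u w x y) =
          d a * E d fun u => f u w x y := fun w x y => EB d N h2 a _
      simp only [e1, E_mul]
      congr 1
      calc _ = E d fun w => E d fun x => E d fun u => E d fun y => f u w x y := by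
            congr 1; funext w; congr 1; funext x
            rw [E_comm]
        _ = E d fun w => E d fun u => E d fun x => E d fun y => f u w x y := by
            congr 1; funext w
            rw [E_comm]
        _ = _ := by
            rw [E_comm]
    have t2 : (E d fun w => E d fun x => E d fun y => E d fun z =>
        ∑ u, N x y u * f a w u z) = D * FF a := by
      have e1 : ∀ w x y, (E d fun z => ∑ u, N x y u * f a w u z) =
          ∑ u, N x y u * E d fun z => f a w u z := fun w x y => E_sum d _ _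
      have e2 : ∀ w, (E d fun x => E d fun y => ∑ u, N x y u *
          E d fun z => f a w u z) = D * E d fun u => E d fun z => f a w u z := fun w =>
        EA d N h1 _
      simp only [e1, e2, E_mul]
      rfl
    have t3 : (E d fun w => E d fun x => E d fun y => E d fun z =>
        ∑ u, N w u a * f u x y z) = d a * E d FF := by
      have e1 : ∀ w x y, (E d fun z => ∑ u, N w u a * f u x y z) =
          ∑ u, N w u a * E d fun z => f u x y z := fun w x y => E_sum d _ _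
      have e2 : ∀ w x, (E d fun y => ∑ u, N w u a * E d fun z => f u x y z) =
          ∑ u, N w u a * E d fun y => E d fun z => f u x y z := fun w x => E_sum d _ _
      have e3 : ∀ w, (E d fun x => ∑ u, N w u a * E d fun y => E d fun z => f u x y z) =
          ∑ u, N w u a * E d fun x => E d fun y => E d fun z => f u x y z :=
        fun w => E_sum d _ _
      simp only [e1, e2, e3]
      exact EC d N h1 a _
    have t4 : (E d fun w => E d fun x => E d fun y => E d fun z =>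
        ∑ u, N w x u * f a u y z) = D * FF a := by
      have e1 : ∀ w x y, (E d fun z => ∑ u, N w x u * f a u y z) =
          ∑ u, N w x u * E d fun z => f a u y z := fun w x y => E_sum d _ _
      have e2 : ∀ w x, (E d fun y => ∑ u, N w x u * E d fun z => f a u y z) =
          ∑ u, N w x u * E d fun y => E d fun z => f a u y z := fun w x => E_sum d _ _
      simp only [e1, e2]
      exact EA d N h1 _
    have t5 : (E d fun w => E d fun x => E d fun y => E d fun z =>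
        ∑ u, N y z u * f a w x u) = D * FF a := by
      have e2 : ∀ w x, (E d fun y => E d fun z => ∑ u, N y z u * f a w x u) =
          D * E d fun u => f a w x u := fun w x => EA d N h1 _
      simp only [e2, E_mul]
      rfl
    rw [t1, t2, t3, t4, t5] at key
    linear_combination -key
  have hE : D * E d FF = 2 * (D * E d FF) := by
    have e1 : E d (fun a => D * FF a) = E d (fun a => 2 * (d a * E d FF)) := by
      simp only [hG]
    rw [E_mul, E_mul] at e1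
    conv_lhs => rw [e1]
    congr 1
    rw [hDdef, Finset.sum_mul]
    change ∑ i, d i * (d i * E d FF) = _
    refine Finset.sum_congr rfl fun i _ => ?_
    ring
  have hE0 : E d FF = 0 := by
    have : D * E d FF = 0 := by linear_combination -hE
    exact (mul_eq_zero.1 this).resolve_left hD
  have := hG a
  rw [hE0, mul_zero, mul_zero] at this
  exact (mul_eq_zero.1 this).resolve_left hD

/-- the hexagon identity forces the weighted sum of the `a i j` to vanish -/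
lemma hex_zero (h1 : ∀ j k, ∑ i, d i * N i j k = d j * d k) (hD : ∑ i, d i * d i ≠ 0)
    (f : ι → ι → ι → ℂ) (a : ι → ι → ℂ)
    (hf : E d (fun i => E d fun j => E d fun k => f i j k) = 0)
    (hh : ∀ i j k, ∑ u, N j k u * a i u = -f i j k + (∑ u, N i j u * a u k + (-f k i j +
      (∑ u, N k i u * a u j + - f j k i)))) :
    E d (fun i => E d fun j => a i j) = 0 := by
  set D := ∑ i, d i * d i with hDdef
  set A := E d (fun i => E d fun j => a i j) with hA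
  have key : (E d fun i => E d fun j => E d fun k => ∑ u, N j k u * a i u) =
      (E d fun i => E d fun j => E d fun k => (-f i j k + (∑ u, N i j u * a u k + (-f k i j +
      (∑ u, N k i u * a u j + - f j k i))))) := by
    simp only [hh]
  simp only [E_add, E_neg] at key
  have t1 : (E d fun i => E d fun j => E d fun k => ∑ u, N j k u * a i u) = D * A := by
    have e2 : ∀ i, (E d fun j => E d fun k => ∑ u, N j k u * a i u) =
        D * E d fun u => a i u := fun i => EA d N h1 _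
    simp only [e2, E_mul]
    rfl
  have t2 : (E d fun i => E d fun j => E d fun k => ∑ u, N i j u * a u k) = D * A := by
    have e1 : ∀ i j, (E d fun k => ∑ u, N i j u * a u k) = ∑ u, N i j u * E d fun k => a u k :=
      fun i j => E_sum d _ _
    simp only [e1]
    exact EA d N h1 _
  have t3 : (E d fun i => E d fun j => E d fun k => f k i j) = 0 := by
    rw [← hf]
    calc _ = E d fun i => E d fun k => E d fun j => f k i j := by
          congr 1; funext i; rw [E_comm]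
      _ = _ := by rw [E_comm]
  have t4 : (E d fun i => E d fun j => E d fun k => ∑ u, N k i u * a u j) = D * A := by
    calc _ = E d fun i => E d fun k => E d fun j => ∑ u, N k i u * a u j := by
          congr 1; funext i; rw [E_comm]
      _ = E d fun k => E d fun i => E d fun j => ∑ u, N k i u * a u j := by rw [E_comm]
      _ = E d fun k => E d fun i => ∑ u, N k i u * E d fun j => a u j := by
          congr 1; funext k; congr 1; funext i
          exact E_sum d _ _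
      _ = _ := EA d N h1 _
  have t5 : (E d fun i => E d fun j => E d fun k => f j k i) = 0 := by
    rw [← hf]
    calc _ = E d fun j => E d fun i => E d fun k => f j k i := by rw [E_comm]
      _ = _ := by congr 1; funext j; rw [E_comm]
  rw [t1, t2, t3, t4, t5, hf] at key
  have : D * A = 0 := by linear_combination -key
  exact (mul_eq_zero.1 this).resolve_left hD

end weights

/-- the based functor of a cyclic functor -/
noncomputable abbrev cycBF (𝒮 : SSData C) (H : CycFunctor.{v, u, w} C) : BF.{v, u, w} 𝒮 where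
  V := H.H
  map := H.map
  map_id := H.map_id
  map_comp := H.map_comp
  κ x := Fin (Module.finrank ℂ (H.H (𝒮.S x)))
  b x := Module.finBasis ℂ (H.H (𝒮.S x))

namespace CycFunctor

variable (𝒮 : SSData C) (H : CycFunctor.{v, u, w} C) (hθ : H.θ ≠ 0) (L : LogQ)

include hθ in
lemma ρ_bij (M N : C) : Function.Bijective (H.ρ M N) := by
  constructor
  · intro x y hxy
    have h1 := LinearMap.congr_fun (H.ρ_ρ M N) x
    have h2 := LinearMap.congr_fun (H.ρ_ρ M N) y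
    simp only [LinearMap.comp_apply, LinearMap.smul_apply, LinearMap.id_apply] at h1 h2
    rw [hxy, h2] at h1
    exact (smul_right_injective _ hθ h1).symm
  · intro x
    refine ⟨H.θ⁻¹ • H.ρ N M x, ?_⟩
    have h1 := LinearMap.congr_fun (H.ρ_ρ N M) x
    simp only [LinearMap.comp_apply, LinearMap.smul_apply, LinearMap.id_apply] at h1
    rw [map_smul, h1, smul_smul, inv_mul_cancel₀ hθ, one_smul]

/-- logarithmic determinant of the rotation -/
noncomputable def aa (i j : 𝒮.ι) : ℚ :=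
  L.lm ((cycBF 𝒮 H).B (𝒮.S i ⊗ 𝒮.S j)) ((cycBF 𝒮 H).B (𝒮.S j ⊗ 𝒮.S i)) (H.ρ (𝒮.S i) (𝒮.S j))

include hθ in
lemma aa_add (i j : 𝒮.ι) : (H.aa 𝒮 L i j : ℂ) + H.aa 𝒮 L j i =
    (L.l H.θ : ℂ) * ∑ u, (𝒮.N i j u : ℂ) * (Module.finrank ℂ (H.H (𝒮.S u)) : ℂ) := by
  have h := L.lm_comp ((cycBF 𝒮 H).B (𝒮.S i ⊗ 𝒮.S j)) ((cycBF 𝒮 H).B (𝒮.S j ⊗ 𝒮.S i))
    ((cycBF 𝒮 H).B (𝒮.S i ⊗ 𝒮.S j)) (H.ρ_bij hθ (𝒮.S i) (𝒮.S j)) (H.ρ_bij hθ (𝒮.S j) (𝒮.S i))
  rw [H.ρ_ρ, L.lm_smul_id _ _ hθ] at h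
  have h2 := congrArg (fun q : ℚ => (q : ℂ)) h
  simp only [Rat.cast_mul, Rat.cast_add, Rat.cast_natCast, BF.card_K] at h2
  rw [aa, aa, ← h2, mul_comm]
  congr 1
  refine Finset.sum_congr rfl fun u _ => ?_
  simp [BF.g]

include 𝒮 in
lemma lm_inv {κ κ' : Type} [Fintype κ] [Fintype κ'] [DecidableEq κ] [DecidableEq κ'] {M N : C}
    (b : Module.Basis κ ℂ (H.H M)) (b' : Module.Basis κ' ℂ (H.H N)) (f : M ≅ N) :
    L.lm b' b (H.map f.inv) = - L.lm b b' (H.map f.hom) := by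
  have h1 := L.lm_comp b b' b ((cycBF 𝒮 H).map_bij f) ((cycBF 𝒮 H).map_bij f.symm)
  have h2 : (cycBF 𝒮 H).map f.symm.hom ∘ₗ (cycBF 𝒮 H).map f.hom = LinearMap.id := by
    rw [← (cycBF 𝒮 H).map_comp, Iso.symm_hom, Iso.hom_inv_id, (cycBF 𝒮 H).map_id]
  have h3 := L.lm_comp b b b Function.bijective_id (φ := LinearMap.id) (ψ := LinearMap.id)
    Function.bijective_id
  rw [LinearMap.comp_id] at h3
  rw [h2] at h1
  have h4 : L.lm b b (LinearMap.id) = 0 := by linarith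
  rw [h4] at h1
  change 0 = L.lm b b' (H.map f.hom) + L.lm b' b (H.map f.inv) at h1
  linarith

include hθ in
lemma aa_right (i j k : 𝒮.ι) :
    L.lm (((cycBF 𝒮 H).Lf i).B (𝒮.S j ⊗ 𝒮.S k)) (((cycBF 𝒮 H).R i).B (𝒮.S j ⊗ 𝒮.S k))
      (H.ρ (𝒮.S i) (𝒮.S j ⊗ 𝒮.S k)) = ∑ l, H.aa 𝒮 L i (𝒮.c (𝒮.S j ⊗ 𝒮.S k) l) := by
  refine ((cycBF 𝒮 H).Lf i).lm_nat L (G' := (cycBF 𝒮 H).R i) (fun M => H.ρ (𝒮.S i) M) ?_ ?_
    (𝒮.S j ⊗ 𝒮.S k)
  · intro M N f v
    exact (LinearMap.congr_fun (H.ρ_nat_right (𝒮.S i) f) v).symm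
  · intro M
    exact H.ρ_bij hθ _ _

include hθ in
lemma aa_left (i j k : 𝒮.ι) :
    L.lm (((cycBF 𝒮 H).R k).B (𝒮.S i ⊗ 𝒮.S j)) (((cycBF 𝒮 H).Lf k).B (𝒮.S i ⊗ 𝒮.S j))
      (H.ρ (𝒮.S i ⊗ 𝒮.S j) (𝒮.S k)) = ∑ l, H.aa 𝒮 L (𝒮.c (𝒮.S i ⊗ 𝒮.S j) l) k := by
  refine ((cycBF 𝒮 H).R k).lm_nat L (G' := (cycBF 𝒮 H).Lf k) (fun M => H.ρ M (𝒮.S k)) ?_ ?_
    (𝒮.S i ⊗ 𝒮.S j)
  · intro M N f v
    exact (LinearMap.congr_fun (H.ρ_nat_left (𝒮.S k) f) v).symm
  · intro M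
    exact H.ρ_bij hθ _ _

include hθ in
lemma hexQ (i j k : 𝒮.ι) : ∑ l, H.aa 𝒮 L i (𝒮.c (𝒮.S j ⊗ 𝒮.S k) l) =
    -((cycBF 𝒮 H).fa L i j k) + (∑ l, H.aa 𝒮 L (𝒮.c (𝒮.S i ⊗ 𝒮.S j) l) k +
      (-((cycBF 𝒮 H).fa L k i j) + (∑ l, H.aa 𝒮 L (𝒮.c (𝒮.S k ⊗ 𝒮.S i) l) j +
        -((cycBF 𝒮 H).fa L j k i)))) := by
  have b1 : Function.Bijective (H.map (α_ (𝒮.S i) (𝒮.S j) (𝒮.S k)).inv) :=
    (cycBF 𝒮 H).map_bij (α_ (𝒮.S i) (𝒮.S j) (𝒮.S k)).symm
  have b2 := H.ρ_bij hθ (𝒮.S i ⊗ 𝒮.S j) (𝒮.S k)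
  have b3 : Function.Bijective (H.map (α_ (𝒮.S k) (𝒮.S i) (𝒮.S j)).inv) :=
    (cycBF 𝒮 H).map_bij (α_ (𝒮.S k) (𝒮.S i) (𝒮.S j)).symm
  have b4 := H.ρ_bij hθ (𝒮.S k ⊗ 𝒮.S i) (𝒮.S j)
  have b5 : Function.Bijective (H.map (α_ (𝒮.S j) (𝒮.S k) (𝒮.S i)).inv) :=
    (cycBF 𝒮 H).map_bij (α_ (𝒮.S j) (𝒮.S k) (𝒮.S i)).symm
  have b21 : Function.Bijective (H.ρ (𝒮.S i ⊗ 𝒮.S j) (𝒮.S k) ∘ₗ
      H.map (α_ (𝒮.S i) (𝒮.S j) (𝒮.S k)).inv) := by
    rw [LinearMap.coe_comp]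
    exact b2.comp b1
  have b321 : Function.Bijective (H.map (α_ (𝒮.S k) (𝒮.S i) (𝒮.S j)).inv ∘ₗ
      (H.ρ (𝒮.S i ⊗ 𝒮.S j) (𝒮.S k) ∘ₗ H.map (α_ (𝒮.S i) (𝒮.S j) (𝒮.S k)).inv)) := by
    rw [LinearMap.coe_comp]
    exact b3.comp b21
  have b4321 : Function.Bijective (H.ρ (𝒮.S k ⊗ 𝒮.S i) (𝒮.S j) ∘ₗ
      (H.map (α_ (𝒮.S k) (𝒮.S i) (𝒮.S j)).inv ∘ₗ
      (H.ρ (𝒮.S i ⊗ 𝒮.S j) (𝒮.S k) ∘ₗ H.map (α_ (𝒮.S i) (𝒮.S j) (𝒮.S k)).inv))) := by
    rw [LinearMap.coe_comp]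
    exact b4.comp b321
  let B0 := ((cycBF 𝒮 H).Lf i).B (𝒮.S j ⊗ 𝒮.S k)
  let B1 := ((cycBF 𝒮 H).R k).B (𝒮.S i ⊗ 𝒮.S j)
  let B2 := ((cycBF 𝒮 H).Lf k).B (𝒮.S i ⊗ 𝒮.S j)
  let B3 := ((cycBF 𝒮 H).R j).B (𝒮.S k ⊗ 𝒮.S i)
  let B4 := ((cycBF 𝒮 H).Lf j).B (𝒮.S k ⊗ 𝒮.S i)
  let B5 := ((cycBF 𝒮 H).R i).B (𝒮.S j ⊗ 𝒮.S k)
  have e1 := L.lm_comp B0 B1 B2 b1 b2
  have e2 := L.lm_comp B0 B2 B3 b21 b3
  have e3 := L.lm_comp B0 B3 B4 b321 b4
  have e4 := L.lm_comp B0 B4 B5 b4321 b5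
  rw [← H.aa_right 𝒮 hθ L i j k, ← H.aa_left 𝒮 hθ L i j k, ← H.aa_left 𝒮 hθ L k i j, H.hexagon]
  have f1 : L.lm B0 B1 (H.map (α_ (𝒮.S i) (𝒮.S j) (𝒮.S k)).inv) = -((cycBF 𝒮 H).fa L i j k) :=
    H.lm_inv 𝒮 L B1 B0 (α_ (𝒮.S i) (𝒮.S j) (𝒮.S k))
  have f2 : L.lm B2 B3 (H.map (α_ (𝒮.S k) (𝒮.S i) (𝒮.S j)).inv) = -((cycBF 𝒮 H).fa L k i j) :=
    H.lm_inv 𝒮 L B3 B2 (α_ (𝒮.S k) (𝒮.S i) (𝒮.S j))
  have f3 : L.lm B4 B5 (H.map (α_ (𝒮.S j) (𝒮.S k) (𝒮.S i)).inv) = -((cycBF 𝒮 H).fa L j k i) :=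
    H.lm_inv 𝒮 L B5 B4 (α_ (𝒮.S j) (𝒮.S k) (𝒮.S i))
  rw [← f1, ← f2, ← f3]
  refine e4.trans ?_
  rw [e3, e2, e1]
  ring

include hθ in
lemma hex (i j k : 𝒮.ι) : ∑ u, (𝒮.N j k u : ℂ) * (H.aa 𝒮 L i u : ℂ) =
    -((cycBF 𝒮 H).fa L i j k : ℂ) + (∑ u, (𝒮.N i j u : ℂ) * (H.aa 𝒮 L u k : ℂ) +
      (-((cycBF 𝒮 H).fa L k i j : ℂ) + (∑ u, (𝒮.N k i u : ℂ) * (H.aa 𝒮 L u j : ℂ) +
        -((cycBF 𝒮 H).fa L j k i : ℂ)))) := by
  have h := congrArg (fun q : ℚ => (q : ℂ)) (H.hexQ 𝒮 hθ L i j k)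
  simp only [Rat.cast_add, Rat.cast_sum, Rat.cast_neg] at h
  rw [sum_c 𝒮 j k (fun u => (H.aa 𝒮 L i u : ℂ)), sum_c 𝒮 i j (fun u => (H.aa 𝒮 L u k : ℂ)),
    sum_c 𝒮 k i (fun u => (H.aa 𝒮 L u j : ℂ))] at h
  exact h

end CycFunctor

/-- VAFA'S THEOREM -/
theorem vafa (𝒮 : SSData C) (H : CycFunctor.{v, u, w} C) (hθ : H.θ ≠ 0) (d : 𝒮.ι → ℂ)
    (h1 : ∀ j k, ∑ i, d i * (𝒮.N i j k : ℂ) = d j * d k)
    (h2 : ∀ i k, ∑ j, d j * (𝒮.N i j k : ℂ) = d i * d k)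
    (hD : ∑ i, d i * d i ≠ 0)
    (hne : ∑ i, d i * (Module.finrank ℂ (H.H (𝒮.S i)) : ℂ) ≠ 0) :
    ∃ m : ℕ, 0 < m ∧ H.θ ^ m = 1 := by
  by_contra hcon
  push Not at hcon
  obtain ⟨L, hL⟩ := LogQ.exists_log H.θ hθ hcon
  have hF : ∀ a, E d (fun i => E d fun j => E d fun k => ((hx 𝒮 a).fa L i j k : ℂ)) = 0 :=
    fun a => pent_zero d (fun i j k => (𝒮.N i j k : ℂ)) h1 h2 hD
      (fun a i j k => ((hx 𝒮 a).fa L i j k : ℂ)) (fun a w x y z => BF.pentC L a w x y z) a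
  have hFH : E d (fun i => E d fun j => E d fun k => ((cycBF 𝒮 H).fa L i j k : ℂ)) = 0 := by
    have e1 : ∀ i j, (E d fun k => ((cycBF 𝒮 H).fa L i j k : ℂ)) =
        ∑ x, ((cycBF 𝒮 H).g x : ℂ) * E d fun k => ((hx 𝒮 x).fa L i j k : ℂ) := by
      intro i j
      rw [← E_sum]
      congr 1
      funext k
      exact BF.fa_eqC _ L i j k
    have e2 : ∀ i, (E d fun j => ∑ x, ((cycBF 𝒮 H).g x : ℂ) *
        E d fun k => ((hx 𝒮 x).fa L i j k : ℂ)) =
        ∑ x, ((cycBF 𝒮 H).g x : ℂ) * E d fun j => E d fun k => ((hx 𝒮 x).fa L i j k : ℂ) :=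
      fun i => E_sum d _ _
    have e3 : (E d fun i => ∑ x, ((cycBF 𝒮 H).g x : ℂ) *
        E d fun j => E d fun k => ((hx 𝒮 x).fa L i j k : ℂ)) =
        ∑ x, ((cycBF 𝒮 H).g x : ℂ) *
          E d fun i => E d fun j => E d fun k => ((hx 𝒮 x).fa L i j k : ℂ) := E_sum d _ _
    simp only [e1, e2, e3, hF, mul_zero, Finset.sum_const_zero]
  have hA := hex_zero d (fun i j k => (𝒮.N i j k : ℂ)) h1 hD
    (fun i j k => ((cycBF 𝒮 H).fa L i j k : ℂ)) (fun i j => (H.aa 𝒮 L i j : ℂ)) hFH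
    (fun i j k => H.hex 𝒮 hθ L i j k)
  have hA2 : E d (fun i => E d fun j => ((H.aa 𝒮 L i j : ℂ) + H.aa 𝒮 L j i)) = 0 := by
    simp only [E_add]
    rw [hA, zero_add, E_comm]
    exact hA
  have hA3 : E d (fun i => E d fun j => (L.l H.θ : ℂ) *
      ∑ u, (𝒮.N i j u : ℂ) * (Module.finrank ℂ (H.H (𝒮.S u)) : ℂ)) = 0 := by
    rw [← hA2]
    simp only [H.aa_add 𝒮 hθ L]
  simp only [E_mul] at hA3
  rw [EA d (fun i j k => (𝒮.N i j k : ℂ)) h1] at hA3
  rcases mul_eq_zero.1 hA3 with h | h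
  · exact hL (by exact_mod_cast h)
  · rcases mul_eq_zero.1 h with h' | h'
    · exact hD h'
    · exact hne h'

end Pool.Agent.Lib.MP_d1a06a_al
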