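import Pool.Agent.Lib.MP_d1a06a_al.Chars
import Pool.Agent.Lib.MP_d1a06a_al.Vafa

set_option autoImplicit false
set_option linter.unusedSectionVars false

open CategoryTheory MonoidalCategory CategoryTheory.Limits ExactPairing
open scoped ComplexConjugate

namespace Pool.Agent.Lib.MP_d1a06a_al

open PivotalStructure

universe v u

variable {C : Type u} [Category.{v} C] [Preadditive C] [Linear ℂ C] [MonoidalCategory C]
  [MonoidalPreadditive C] [MonoidalLinear ℂ C] [RightRigidCategory C]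

namespace Sph

variable (Q : Sph C)

/-- `us` as a linear map -/
noncomputable def usL : (𝟙_ C ⟶ 𝟙_ C) →ₗ[ℂ] ℂ where
  toFun := Q.us
  map_add' f g := by
    rw [us_eq_iff, add_smul, us_smul, us_smul]
  map_smul' z f := by
    rw [us_eq_iff, RingHom.id_apply, smul_eq_mul, mul_smul, us_smul]

lemma usL_smul (f : 𝟙_ C ⟶ 𝟙_ C) : Q.usL f • 𝟙 _ = f := Q.us_smul f

@[simp] lemma usL_id : Q.usL (𝟙 _) = 1 := by
  change Q.us _ = _
  rw [us_eq_iff, one_smul]

lemma from_unit_zero {i : Q.𝒮.ι} (hi : Q.o ≠ i) (f : 𝟙_ C ⟶ Q.𝒮.S i) : f = 0 := by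
  have h := Q.𝒮.hom_zero _ _ hi (Q.isoO.inv ≫ f)
  calc f = Q.isoO.hom ≫ Q.isoO.inv ≫ f := by simp
    _ = 0 := by rw [h, comp_zero]

lemma hom_unit_R (φ : 𝟙_ C ⟶ Q.R) : φ = Q.usL (φ ≫ Q.retU.b) • Q.retU.a := by
  have h1 : φ = (φ ≫ Q.retU.b) ≫ Q.retU.a := by
    conv_lhs => rw [← Category.comp_id φ, ← Q.totalR, Preadditive.comp_sum]
    rw [Finset.sum_eq_single Q.o]
    · simp [retU]
    · intro i _ hi
      rw [← Category.assoc, Q.from_unit_zero (Ne.symm hi) (φ ≫ Q.pR i), zero_comp]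
    · simp
  conv_lhs => rw [h1, ← Q.usL_smul (φ ≫ Q.retU.b), Linear.smul_comp, Category.id_comp]

/-- the vacuum character on tubes -/
noncomputable def chiL : Q.𝒮.T Q.R Q.R →ₗ[ℂ] ℂ where
  toFun x := Q.usL (Q.P.vac Q.𝒮 _ _ x Q.retU.a ≫ Q.retU.b)
  map_add' := by intros; simp
  map_smul' := by intros; simp

lemma vac_a (x : Q.𝒮.T Q.R Q.R) : Q.P.vac Q.𝒮 _ _ x Q.retU.a = Q.chiL x • Q.retU.a :=
  Q.hom_unit_R _

/-- the vacuum character -/
noncomputable def chi : Q.A →ₐ[ℂ] ℂ :=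
  AlgHom.ofLinearMap (Q.chiL.comp Q.toA.symm.toLinearMap)
    (by
      change Q.usL (Q.P.vac Q.𝒮 _ _ (Q.𝒮.J Q.R Q.R (𝟙 Q.R)) Q.retU.a ≫ Q.retU.b) = 1
      rw [vac_J, dim_one, Category.id_comp, Category.comp_id, Q.retU.ab, usL_id])
    (by
      intro x y
      obtain ⟨x, rfl⟩ := Q.toA.surjective x
      obtain ⟨y, rfl⟩ := Q.toA.surjective y
      rw [← toA_comp]
      simp only [LinearMap.comp_apply, LinearEquiv.coe_coe, LinearEquiv.symm_apply_apply]
      change Q.usL (Q.P.vac Q.𝒮 _ _ (Q.𝒮.comp y x) Q.retU.a ≫ Q.retU.b) = _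
      rw [vac_comp, vac_a, map_smul, vac_a, Linear.smul_comp, Linear.smul_comp, Q.retU.ab,
        map_smul, map_smul, usL_id, smul_eq_mul, smul_eq_mul, mul_one, mul_comm])

lemma chi_toA (x : Q.𝒮.T Q.R Q.R) :
    Q.chi (Q.toA x) = Q.usL (Q.P.vac Q.𝒮 _ _ x Q.retU.a ≫ Q.retU.b) := rfl

lemma chi_up (k : Q.𝒮.T (𝟙_ C) (𝟙_ C)) : Q.chi (up Q.retU Q.retU k) = Q.fn Q.d k := by
  rw [up_apply, chi_toA, vac_comp, vac_comp, vac_J, vac_J, dim_one, Category.id_comp,
    Category.id_comp, Q.retU.ab, vac_K_sum, Category.assoc, Q.retU.ab, Category.comp_id,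
    map_smul, usL_id, smul_eq_mul, mul_one, fn_apply]
  refine Finset.sum_congr rfl fun i _ => ?_
  rw [mul_comm]
  rfl

lemma chi_idem (x : Q.𝒮.ι) : Q.chi (idem (Q.retS x)) = if x = Q.o then 1 else 0 := by
  rw [idem_eq, chi_toA, vac_J, dim_one, Category.id_comp]
  split_ifs with h
  · subst h
    have : (Q.retU.a ≫ (Q.retS Q.o).b ≫ (Q.retS Q.o).a) ≫ Q.retU.b = 𝟙 _ := by
      have h1 : Q.retU.a ≫ (Q.retS Q.o).b = Q.isoO.hom := by
        simp only [retU, retS, Category.assoc, Q.iR_pR_same, Category.comp_id]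
      have h2 : (Q.retS Q.o).a ≫ Q.retU.b = Q.isoO.inv := by
        simp only [retU, retS]
        rw [← Category.assoc, Q.iR_pR_same, Category.id_comp]
      calc _ = (Q.retU.a ≫ (Q.retS Q.o).b) ≫ ((Q.retS Q.o).a ≫ Q.retU.b) := by
            simp only [Category.assoc]
        _ = _ := by rw [h1, h2, Iso.hom_inv_id]
    rw [this, usL_id]
  · have : Q.retU.a ≫ (Q.retS x).b = 0 := Q.from_unit_zero (Ne.symm h) _
    rw [← Category.assoc, this, zero_comp, zero_comp, map_zero]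

lemma v_jj_d (x : Q.𝒮.ι) : Q.v Q.B (Q.jj Q.d) x = if x = Q.o then 1 else 0 := by
  obtain ⟨j, hj⟩ := Q.B.exists_tr_eq Q.chi
  have h1 : Q.te Q.d j = 1 := by
    rw [te, ← hj, chi_up, fn_ee Q.d_char Q.d_real]
  have h2 : j = Q.jj Q.d := by
    by_contra hne
    rw [te_eq Q.d_char Q.d_real, if_neg hne] at h1
    exact zero_ne_one h1
  have h3 : (Q.v Q.B (Q.jj Q.d) x : ℂ) = if x = Q.o then 1 else 0 := by
    rw [← v_spec, ← h2, ← hj]
    exact Q.chi_idem x
  split_ifs at h3 ⊢ with h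
  · exact_mod_cast h3
  · exact_mod_cast h3

lemma root (j : Fin Q.B.n) (hj : (∑ i, (Q.v Q.B j i : ℂ) * Q.d i) ≠ 0) :
    ∃ m : ℕ, 0 < m ∧ Q.th Q.B j ^ m = 1 := by
  set θ := Q.th Q.B j with hθ
  let w : Fin Q.B.n → ℂ := fun j' => ∑ i, (Q.v Q.B j' i : ℂ) * Q.d i
  have hw : ∀ j', w j' * w j' = ((Complex.normSq (w j') : ℝ) : ℂ) := by
    intro j'
    rw [← Complex.mul_conj]
    congr 1
    simp only [w, map_sum, map_mul, Complex.conj_natCast, d_real]
  have hx : ∃ x, ∑ i, Q.d i *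
      (Module.finrank ℂ (Q.𝒮.eigT (Q.𝒮.S x) θ (Q.𝒮.S i)) : ℂ) ≠ 0 := by
    by_contra hcon
    push Not at hcon
    have h1 : ∑ x, Q.d x * ∑ i, Q.d i *
        (Module.finrank ℂ (Q.𝒮.eigT (Q.𝒮.S x) θ (Q.𝒮.S i)) : ℂ) = 0 := by
      simp only [hcon, mul_zero, Finset.sum_const_zero]
    have h2 : ∑ x, Q.d x * ∑ i, Q.d i *
        (Module.finrank ℂ (Q.𝒮.eigT (Q.𝒮.S x) θ (Q.𝒮.S i)) : ℂ) =
        ∑ j', if Q.th Q.B j' = θ then w j' * w j' else 0 := by
      simp only [Q.finrank_eigT Q.B, Finset.mul_sum]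
      calc _ = ∑ x, ∑ j', ∑ i, Q.d x * (Q.d i * if Q.th Q.B j' = θ then
              (Q.v Q.B j' i : ℂ) * Q.v Q.B j' x else 0) := by
            refine Finset.sum_congr rfl fun x _ => ?_
            rw [Finset.sum_comm]
        _ = ∑ j', ∑ x, ∑ i, Q.d x * (Q.d i * if Q.th Q.B j' = θ then
              (Q.v Q.B j' i : ℂ) * Q.v Q.B j' x else 0) := by
            rw [Finset.sum_comm]
        _ = _ := by
            refine Finset.sum_congr rfl fun j' _ => ?_
            split_ifs with h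
            · simp only [w]
              rw [Finset.sum_mul_sum]
              refine Finset.sum_congr rfl fun x _ => Finset.sum_congr rfl fun i _ => ?_
              ring
            · simp
    rw [h1] at h2
    have h3 : ∀ j', (if Q.th Q.B j' = θ then w j' * w j' else 0) =
        (((if Q.th Q.B j' = θ then Complex.normSq (w j') else 0 : ℝ)) : ℂ) := by
      intro j'
      split_ifs
      · exact hw j'
      · simp
    simp only [h3, ← Complex.ofReal_sum] at h2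
    have h4 : (0 : ℝ) < ∑ j', if Q.th Q.B j' = θ then Complex.normSq (w j') else 0 := by
      refine Finset.sum_pos' (fun j' _ => ?_) ⟨j, Finset.mem_univ _, ?_⟩
      · split_ifs
        · exact Complex.normSq_nonneg _
        · exact le_refl _
      · rw [if_pos rfl]
        exact Complex.normSq_pos.2 hj
    have h5 := Complex.ofReal_eq_zero.1 h2.symm
    exact h4.ne' h5
  obtain ⟨x, hx⟩ := hx
  refine vafa Q.𝒮 (Q.𝒮.eigF (Q.𝒮.S x) θ) (Q.th_ne Q.B j) Q.d ?_ ?_ Q.gd_ne hx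
  · intro j k
    rw [mul_comm (Q.d j), ← Q.d_star j, Q.d_mul]
    refine Finset.sum_congr rfl fun i _ => ?_
    rw [Q.N_dual_right i j k, mul_comm]
  · intro i k
    rw [← Q.d_star i, Q.d_mul]
    refine Finset.sum_congr rfl fun j _ => ?_
    rw [Q.N_dual_left i j k, mul_comm]

/-- the numeric data of a spherical fusion category -/
noncomputable def toNum : NumData where
  ι := Q.𝒮.ι
  o := Q.o
  star := Q.star
  N := Q.𝒮.N
  J := Fin Q.B.n
  v := Q.v Q.B
  θ := Q.th Q.B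
  d := Q.d
  char_star _ hψ i := char_star hψ i
  d_char := Q.d_char
  d_star := Q.d_star
  jj := Q.jj
  jj_inj _ _ hψ hψ' hr hr' h := jj_inj hψ hψ' hr hr' h
  θ_jj _ hψ hr := th_jj hψ hr
  M1_char _ hψ hr x := M1_char hψ hr x
  v_jj_d := Q.v_jj_d
  M0_d := Q.M0_d
  root := Q.root

end Sph

end Pool.Agent.Lib.MP_d1a06a_al
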