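import Pool.Agent.Lib.MP_d1a06a_al.Twist

set_option autoImplicit false
set_option linter.unusedSectionVars false

open CategoryTheory MonoidalCategory CategoryTheory.Limits

namespace Pool.Agent.Lib.MP_d1a06a_al

universe v u

lemma trace_of_resolution {V : Type*} [AddCommGroup V] [Module ℂ V] [FiniteDimensional ℂ V]
    {α : Type*} [Fintype α] (e : α → V) (φ : α → V →ₗ[ℂ] ℂ)
    (h : ∀ v, ∑ a, φ a v • e a = v) (L : V →ₗ[ℂ] V) :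
    LinearMap.trace ℂ V L = ∑ a, φ a (L (e a)) := by
  have h1 : L = ∑ a, (φ a).smulRight (L (e a)) := by
    ext v
    simp only [LinearMap.sum_apply, LinearMap.smulRight_apply]
    conv_lhs => rw [← h v]
    simp
  conv_lhs => rw [h1]
  simp [map_sum, LinearMap.trace_smulRight]

namespace SSData

variable {C : Type u} [Category.{v} C] [Preadditive C] [Linear ℂ C] [MonoidalCategory C]
  [MonoidalPreadditive C] [MonoidalLinear ℂ C] (𝒮 : SSData C)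

lemma sg_apply {X Y : C} (i w : 𝒮.ι) (G : 𝒮.S i ⊗ X ⟶ Y ⊗ 𝒮.S i) :
    𝒮.sg i G w = 𝒮.e w i ▷ X ≫ G ≫ Y ◁ 𝒮.e i w := by
  by_cases h : w = i
  · subst h; simp
  · rw [𝒮.sg_ne h, 𝒮.e_ne h]; simp

/-- class of an object in the endomorphisms of the unit in the tube category -/
noncomputable def K (Y : C) : 𝒮.T (𝟙_ C) (𝟙_ C) := 𝒮.π Y ((ρ_ Y).hom ≫ (λ_ Y).inv)

/-- postcomposition with `g` as a linear map -/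
noncomputable def postL {X Y : C} (W : C) (g : 𝒮.T X Y) : 𝒮.T W X →ₗ[ℂ] 𝒮.T W Y :=
  (𝒮.compL W X Y).flip g

/-- precomposition with `g` as a linear map -/
noncomputable def preL {X Y : C} (g : 𝒮.T X Y) (W : C) : 𝒮.T Y W →ₗ[ℂ] 𝒮.T X W :=
  𝒮.compL X Y W g

@[simp] lemma postL_apply {X Y : C} (W : C) (g : 𝒮.T X Y) (f : 𝒮.T W X) :
    𝒮.postL W g f = 𝒮.comp f g := rfl

@[simp] lemma preL_apply {X Y : C} (g : 𝒮.T X Y) (W : C) (f : 𝒮.T Y W) :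
    𝒮.preL g W f = 𝒮.comp g f := rfl

lemma key_sc {X Y : C} (w i j : 𝒮.ι) (I : 𝒮.S i ⟶ 𝒮.S w ⊗ Y) (P : 𝒮.S w ⊗ Y ⟶ 𝒮.S i)
    (I' : 𝒮.S j ⟶ X ⊗ 𝒮.S w) (P' : X ⊗ 𝒮.S w ⟶ 𝒮.S j) :
    𝒮.sc (I ≫ (𝒮.e w j ≫ I') ▷ Y ≫ (α_ _ _ _).hom ≫ X ◁ (P ≫ 𝒮.e i j ≫ 𝒮.e j w) ≫ P') =
    𝒮.sc (𝒮.e w i ≫ I ≫ (𝒮.e w j ≫ I') ▷ Y ≫ (α_ _ _ _).hom ≫ X ◁ (P ≫ 𝒮.e i w) ≫ P') := by
  by_cases hj : w = j
  · subst hj
    by_cases hi : i = w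
    · subst hi; simp
    · rw [𝒮.sc_ne hi, 𝒮.e_ne (Ne.symm hi), zero_comp, 𝒮.sc_zero]
  · rw [𝒮.e_ne hj]; simp

lemma trace_postL_t (X Y : C) :
    LinearMap.trace ℂ _ (𝒮.postL Y (𝒮.t X)) =
      ∑ w, ∑ l : Fin (𝒮.n (𝒮.S w ⊗ Y)), ∑ k : Fin (𝒮.n (X ⊗ 𝒮.S w)),
        𝒮.sc (𝒮.inc _ l ≫ (𝒮.e w _ ≫ 𝒮.inc _ k) ▷ Y ≫ (α_ _ _ _).hom ≫
          X ◁ (𝒮.proj _ l ≫ 𝒮.e _ (𝒮.c _ k) ≫ 𝒮.e (𝒮.c _ k) w) ≫ 𝒮.proj _ k) := by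
  have := 𝒮.finiteDimensional_T Y X
  let α := Σ w : 𝒮.ι, Fin (𝒮.n (𝒮.S w ⊗ Y)) × Fin (𝒮.n (X ⊗ 𝒮.S w))
  let e : α → 𝒮.T Y X := fun a =>
    𝒮.sg a.1 (𝒮.proj _ a.2.1 ≫ 𝒮.e _ _ ≫ 𝒮.inc _ a.2.2)
  let φ : α → 𝒮.T Y X →ₗ[ℂ] ℂ := fun a =>
    { toFun := fun f => 𝒮.sc (𝒮.inc _ a.2.1 ≫ f a.1 ≫ 𝒮.proj _ a.2.2)
      map_add' := by intros; simp
      map_smul' := by intros; simp }
  have hres : ∀ f : 𝒮.T Y X, ∑ a, φ a f • e a = f := by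
    intro f
    rw [Fintype.sum_sigma]
    conv_rhs => rw [← 𝒮.sum_sg f]
    refine Finset.sum_congr rfl fun w _ => ?_
    conv_rhs => rw [𝒮.hom_expand (f w)]
    rw [map_sum, Fintype.sum_prod_type]
    refine Finset.sum_congr rfl fun l _ => ?_
    rw [map_sum]
    refine Finset.sum_congr rfl fun k _ => ?_
    simp [φ, e]
  rw [trace_of_resolution e φ hres, Fintype.sum_sigma]
  refine Finset.sum_congr rfl fun w _ => ?_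
  rw [Fintype.sum_prod_type]
  refine Finset.sum_congr rfl fun l _ => Finset.sum_congr rfl fun k _ => ?_
  change 𝒮.sc (𝒮.inc _ l ≫ (𝒮.comp (𝒮.sg w (𝒮.proj _ l ≫ 𝒮.e _ _ ≫ 𝒮.inc _ k)) (𝒮.t X)) w ≫
    𝒮.proj _ k) = _
  rw [← 𝒮.π_S, t, comp_ππ, π_apply]
  simp only [tc, Finset.sum_apply, sg_apply, Category.comp_id, id_whiskerRight, Category.id_comp,
    Iso.inv_hom_id]
  rw [Preadditive.sum_comp, Preadditive.comp_sum, sc_sum, Finset.sum_eq_single k]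
  · congr 1
    simp only [Category.assoc, comp_whiskerRight, whiskerLeft_comp]
    congr 4
    rw [← whiskerLeft_comp_assoc X (𝒮.inc _ k) (𝒮.proj _ k), 𝒮.inc_proj_same]
    simp
  · intro m _ hm
    have : 𝒮.inc (X ⊗ 𝒮.S w) k ≫ 𝒮.proj (X ⊗ 𝒮.S w) m = 0 := 𝒮.inc_proj_ne _ _ _ (Ne.symm hm)
    have h2 : X ◁ 𝒮.inc (X ⊗ 𝒮.S w) k ≫ X ◁ 𝒮.proj (X ⊗ 𝒮.S w) m = 0 := by
      rw [← whiskerLeft_comp, this]; simp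
    simp only [Category.assoc, comp_whiskerRight, whiskerLeft_comp]
    rw [reassoc_of% h2]
    simp
  · simp

lemma comp_K_π {X Y V : C} (G : V ⊗ 𝟙_ C ⟶ X ⊗ V) :
    𝒮.comp (𝒮.K Y) (𝒮.π V G) =
      𝒮.π (V ⊗ Y) ((ρ_ _).hom ≫ ((ρ_ V).inv ≫ G) ▷ Y ≫ (α_ _ _ _).hom) := by
  rw [K, comp_ππ]
  congr 1
  simp only [tc]
  monoidal

lemma trace_preL_K (X Y : C) :
    LinearMap.trace ℂ _ (𝒮.preL (𝒮.K Y) X) =
      ∑ w, ∑ l : Fin (𝒮.n (𝒮.S w ⊗ Y)), ∑ k : Fin (𝒮.n (X ⊗ 𝒮.S w)),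
        𝒮.sc (𝒮.e w _ ≫ 𝒮.inc _ l ≫ (𝒮.e w _ ≫ 𝒮.inc _ k) ▷ Y ≫ (α_ _ _ _).hom ≫
          X ◁ (𝒮.proj _ l ≫ 𝒮.e _ w) ≫ 𝒮.proj _ k) := by
  have := 𝒮.finiteDimensional_T (𝟙_ C) X
  let α := Σ w : 𝒮.ι, Fin (𝒮.n (X ⊗ 𝒮.S w))
  let e : α → 𝒮.T (𝟙_ C) X := fun a =>
    𝒮.sg a.1 ((ρ_ _).hom ≫ 𝒮.e _ _ ≫ 𝒮.inc _ a.2)
  let φ : α → 𝒮.T (𝟙_ C) X →ₗ[ℂ] ℂ := fun a =>
    { toFun := fun f => 𝒮.sc ((ρ_ _).inv ≫ f a.1 ≫ 𝒮.proj _ a.2)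
      map_add' := by intros; simp
      map_smul' := by intros; simp }
  have hres : ∀ f : 𝒮.T (𝟙_ C) X, ∑ a, φ a f • e a = f := by
    intro f
    rw [Fintype.sum_sigma]
    conv_rhs => rw [← 𝒮.sum_sg f]
    refine Finset.sum_congr rfl fun w _ => ?_
    have h1 : f w = ∑ k, (ρ_ _).hom ≫ ((ρ_ _).inv ≫ f w ≫ 𝒮.proj _ k) ≫ 𝒮.inc _ k := by
      have h2 := 𝒮.total (X ⊗ 𝒮.S w)
      calc f w = f w ≫ 𝟙 _ := by simp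
        _ = _ := by rw [← h2, Preadditive.comp_sum]; simp
    conv_rhs => rw [h1, map_sum]
    refine Finset.sum_congr rfl fun k _ => ?_
    conv_rhs => rw [← 𝒮.sc_smul ((ρ_ _).inv ≫ f w ≫ 𝒮.proj _ k)]
    simp [φ, e]
  rw [trace_of_resolution e φ hres, Fintype.sum_sigma]
  refine Finset.sum_congr rfl fun w _ => ?_
  rw [Finset.sum_comm]
  refine Finset.sum_congr rfl fun k _ => ?_
  change 𝒮.sc ((ρ_ _).inv ≫ (𝒮.comp (𝒮.K Y) (𝒮.sg w ((ρ_ _).hom ≫ 𝒮.e _ _ ≫ 𝒮.inc _ k))) w ≫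
    𝒮.proj _ k) = _
  rw [← 𝒮.π_S, comp_K_π, π_apply]
  simp only [Finset.sum_apply, sg_apply]
  rw [Preadditive.sum_comp, Preadditive.comp_sum, sc_sum]
  refine Finset.sum_congr rfl fun l _ => ?_
  congr 1
  simp

/-- fundamental trace identity (T1) -/
theorem trace_identity (X Y : C) :
    LinearMap.trace ℂ _ (𝒮.postL Y (𝒮.t X)) = LinearMap.trace ℂ _ (𝒮.preL (𝒮.K Y) X) := by
  rw [trace_postL_t, trace_preL_K]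
  refine Finset.sum_congr rfl fun w _ => Finset.sum_congr rfl fun l _ =>
    Finset.sum_congr rfl fun k _ => ?_
  exact 𝒮.key_sc _ _ _ _ _ _ _

end SSData

end Pool.Agent.Lib.MP_d1a06a_al
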