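import Pool.Agent.Lib.MP_d1a06a_al.TubCat
import Pool.Agent.Lib.MP_d1a06a_al.CycDefs

set_option autoImplicit false
set_option linter.unusedSectionVars false

open CategoryTheory MonoidalCategory CategoryTheory.Limits

namespace Pool.Agent.Lib.MP_d1a06a_al

universe v u

namespace SSData

variable {C : Type u} [Category.{v} C] [Preadditive C] [Linear ℂ C] [MonoidalCategory C]
  [MonoidalPreadditive C] [MonoidalLinear ℂ C] (𝒮 : SSData C)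

/-- the twist -/
noncomputable def t (X : C) : 𝒮.T X X := 𝒮.π X (𝟙 (X ⊗ X))

lemma t_central {X Y : C} (f : 𝒮.T X Y) : 𝒮.comp f (𝒮.t Y) = 𝒮.comp (𝒮.t X) f := by
  refine 𝒮.T_induction f ?_ ?_ ?_
  · intro f g hf hg
    rw [comp_add_left, comp_add_right, hf, hg]
  · simp [comp]
  · intro W F
    rw [t, t, comp_ππ, comp_ππ]
    have h1 : tc F (𝟙 (Y ⊗ Y)) = (α_ Y W X).hom ≫ Y ◁ F := by
      simp [tc]
    have h2 : tc (𝟙 (X ⊗ X)) F = F ▷ X ≫ (α_ Y W X).hom := by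
      simp [tc]
    rw [h1, h2, 𝒮.π_dinat]

/-- rotation of the second factor around the tube -/
noncomputable def rot (M N : C) : 𝒮.T (M ⊗ N) (N ⊗ M) := 𝒮.π N (α_ N M N).inv

lemma rot_nat_left {M M' : C} (N : C) (f : M ⟶ M') :
    𝒮.comp (𝒮.rot M N) (𝒮.J _ _ (N ◁ f)) = 𝒮.comp (𝒮.J _ _ (f ▷ N)) (𝒮.rot M' N) := by
  rw [rot, rot, comp_π_J, comp_J_π]
  congr 1
  simp

lemma rot_nat_right (M : C) {N N' : C} (g : N ⟶ N') :
    𝒮.comp (𝒮.rot M N) (𝒮.J _ _ (g ▷ M)) = 𝒮.comp (𝒮.J _ _ (M ◁ g)) (𝒮.rot M N') := by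
  rw [rot, rot, comp_π_J, comp_J_π]
  have h : N' ◁ M ◁ g ≫ (α_ N' M N').inv = (α_ N' M N).inv ≫ (N' ⊗ M) ◁ g := by simp
  rw [h, 𝒮.π_dinat]
  congr 1
  simp

lemma rot_rot (M N : C) : 𝒮.comp (𝒮.rot M N) (𝒮.rot N M) = 𝒮.t (M ⊗ N) := by
  rw [rot, rot, comp_ππ, t]
  congr 1
  simp [tc]

lemma rot_hexagon (M N P : C) :
    𝒮.rot M (N ⊗ P) = 𝒮.comp (𝒮.J _ _ (α_ M N P).inv) (𝒮.comp (𝒮.rot (M ⊗ N) P)
      (𝒮.comp (𝒮.J _ _ (α_ P M N).inv) (𝒮.comp (𝒮.rot (P ⊗ M) N)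
        (𝒮.J _ _ (α_ N P M).inv)))) := by
  rw [rot, rot, rot, comp_π_J, comp_J_π, comp_ππ, comp_J_π]
  congr 1
  simp only [tc]
  monoidal

lemma hom_expand {M N : C} (f : M ⟶ N) :
    f = ∑ l, ∑ k, 𝒮.sc (𝒮.inc M l ≫ f ≫ 𝒮.proj N k) •
      (𝒮.proj M l ≫ 𝒮.e (𝒮.c M l) (𝒮.c N k) ≫ 𝒮.inc N k) := by
  calc f = 𝟙 M ≫ f ≫ 𝟙 N := by simp
    _ = (∑ l, 𝒮.proj M l ≫ 𝒮.inc M l) ≫ f ≫ (∑ k, 𝒮.proj N k ≫ 𝒮.inc N k) := by
      rw [𝒮.total, 𝒮.total]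
    _ = _ := by
      rw [Preadditive.sum_comp]
      refine Finset.sum_congr rfl fun l _ => ?_
      rw [Preadditive.comp_sum, Preadditive.comp_sum]
      refine Finset.sum_congr rfl fun k _ => ?_
      conv_lhs => rw [show (𝒮.proj M l ≫ 𝒮.inc M l) ≫ f ≫ 𝒮.proj N k ≫ 𝒮.inc N k =
        𝒮.proj M l ≫ (𝒮.inc M l ≫ f ≫ 𝒮.proj N k) ≫ 𝒮.inc N k by simp]
      conv_lhs => rw [← 𝒮.sc_smul (𝒮.inc M l ≫ f ≫ 𝒮.proj N k)]
      simp

include 𝒮 in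
lemma finiteDimensional_hom (M N : C) : FiniteDimensional ℂ (M ⟶ N) := by
  let g : ((Fin (𝒮.n M) × Fin (𝒮.n N)) → ℂ) →ₗ[ℂ] (M ⟶ N) :=
    ∑ p : Fin (𝒮.n M) × Fin (𝒮.n N), LinearMap.smulRight (LinearMap.proj p)
      (𝒮.proj M p.1 ≫ 𝒮.e (𝒮.c M p.1) (𝒮.c N p.2) ≫ 𝒮.inc N p.2)
  refine Module.Finite.of_surjective g fun f => ?_
  refine ⟨fun p => 𝒮.sc (𝒮.inc M p.1 ≫ f ≫ 𝒮.proj N p.2), ?_⟩
  simp only [g, LinearMap.sum_apply, LinearMap.smulRight_apply, LinearMap.proj_apply]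
  rw [Fintype.sum_prod_type]
  exact (𝒮.hom_expand f).symm

lemma finiteDimensional_T (X Y : C) : FiniteDimensional ℂ (𝒮.T X Y) := by
  have := 𝒮.finiteDimensional_hom
  infer_instance

/-- tubes from `X₀` on which the twist acts by `θ` -/
noncomputable def eigT (X₀ : C) (θ : ℂ) (M : C) : Submodule ℂ (𝒮.T X₀ M) where
  carrier := {f | 𝒮.comp f (𝒮.t M) = θ • f}
  add_mem' := by
    intro a b ha hb
    change _ = _ at ha
    change _ = _ at hb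
    change _ = _
    rw [comp_add_left, ha, hb, smul_add]
  zero_mem' := by simp [comp]
  smul_mem' := by
    intro z a ha
    change _ = _ at ha
    change _ = _
    rw [comp_smul_left, ha, smul_comm]

lemma mem_eigT {X₀ : C} {θ : ℂ} {M : C} (f : 𝒮.T X₀ M) :
    f ∈ 𝒮.eigT X₀ θ M ↔ 𝒮.comp f (𝒮.t M) = θ • f := Iff.rfl

/-- postcomposition with a tube, on the `θ`-eigenspaces -/
noncomputable def eigMap (X₀ : C) (θ : ℂ) {M N : C} :
    𝒮.T M N →ₗ[ℂ] 𝒮.eigT X₀ θ M →ₗ[ℂ] 𝒮.eigT X₀ θ N :=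
  LinearMap.mk₂ ℂ (fun g f => ⟨𝒮.comp f.1 g, by
      rw [mem_eigT, comp_assoc, t_central, ← comp_assoc, f.2, comp_smul_left]⟩)
    (by intro g g' f; ext1; simp [comp_add_right])
    (by intro z g f; ext1; simp [comp_smul_right])
    (by intro g f f'; ext1; simp [comp_add_left])
    (by intro z g f; ext1; simp [comp_smul_left])

@[simp] lemma eigMap_coe (X₀ : C) (θ : ℂ) {M N : C} (g : 𝒮.T M N) (f : 𝒮.eigT X₀ θ M) :
    ((𝒮.eigMap X₀ θ g f : 𝒮.eigT X₀ θ N) : 𝒮.T X₀ N) = 𝒮.comp f.1 g := rfl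

/-- the cyclic functor of tubes from `X₀` with twist `θ` -/
noncomputable def eigF (X₀ : C) (θ : ℂ) : CycFunctor.{v, u, v} C where
  H M := 𝒮.eigT X₀ θ M
  fd M := by
    have := 𝒮.finiteDimensional_T X₀ M
    infer_instance
  map := fun {M N} => (𝒮.eigMap X₀ θ).comp (𝒮.J M N)
  map_id M := by
    ext1 f; ext1
    exact 𝒮.comp_id_T _
  map_comp f g := by
    ext1 h; ext1
    simp only [LinearMap.comp_apply, eigMap_coe, ← J_comp, comp_assoc]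
  ρ M N := 𝒮.eigMap X₀ θ (𝒮.rot M N)
  ρ_nat_left N f := by
    ext1 h; ext1
    simp only [LinearMap.comp_apply, eigMap_coe, comp_assoc, rot_nat_left]
  ρ_nat_right M _ _ g := by
    ext1 h; ext1
    simp only [LinearMap.comp_apply, eigMap_coe, comp_assoc, rot_nat_right]
  θ := θ
  ρ_ρ M N := by
    ext1 h; ext1
    simp only [LinearMap.comp_apply, eigMap_coe, comp_assoc, rot_rot]
    exact h.2
  hexagon M N P := by
    ext1 h; ext1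
    simp only [LinearMap.comp_apply, eigMap_coe, comp_assoc]
    rw [← rot_hexagon]

end SSData

end Pool.Agent.Lib.MP_d1a06a_al
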