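import Pool.Agent.Lib.MP_d1a06a_al.Pivotal
import Pool.Agent.Lib.MP_d1a06a_al.TraceFormula

set_option autoImplicit false
set_option linter.unusedSectionVars false

open CategoryTheory MonoidalCategory CategoryTheory.Limits ExactPairing

namespace Pool.Agent.Lib.MP_d1a06a_al

universe v u

namespace PivotalStructure

variable {C : Type u} [Category.{v} C] [Preadditive C] [Linear ℂ C] [MonoidalCategory C]
  [MonoidalPreadditive C] [MonoidalLinear ℂ C] [RightRigidCategory C]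
  (P : PivotalStructure C) (𝒮 : SSData C)

lemma ptr_add {Y M : C} (F G : M ⟶ Y ⊗ M) : P.ptr M (F + G) = P.ptr M F + P.ptr M G := by
  simp [ptr]

lemma ptr_smul {Y M : C} (z : ℂ) (F : M ⟶ Y ⊗ M) : P.ptr M (z • F) = z • P.ptr M F := by
  simp [ptr]

/-- `act` as a bilinear map -/
noncomputable def actL (X Y M : C) : (M ⊗ X ⟶ Y ⊗ M) →ₗ[ℂ] (𝟙_ C ⟶ X) →ₗ[ℂ] (𝟙_ C ⟶ Y) :=
  LinearMap.mk₂ ℂ (fun F x => P.act M F x)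
    (by intros; simp [act, ptr_add]) (by intros; simp [act, ptr_smul])
    (by intros; simp [act, ptr_add]) (by intros; simp [act, ptr_smul])

@[simp] lemma actL_apply {X Y M : C} (F : M ⊗ X ⟶ Y ⊗ M) (x : 𝟙_ C ⟶ X) :
    P.actL X Y M F x = P.act M F x := rfl

/-- action of tubes on morphisms out of the unit -/
noncomputable def vac (X Y : C) : 𝒮.T X Y →ₗ[ℂ] (𝟙_ C ⟶ X) →ₗ[ℂ] (𝟙_ C ⟶ Y) :=
  ∑ i, (P.actL X Y (𝒮.S i)).comp (LinearMap.proj i)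

lemma vac_apply {X Y : C} (f : 𝒮.T X Y) (x : 𝟙_ C ⟶ X) :
    P.vac 𝒮 X Y f x = ∑ i, P.act (𝒮.S i) (f i) x := by
  simp [vac]

lemma vac_sg {X Y : C} (i : 𝒮.ι) (F : 𝒮.S i ⊗ X ⟶ Y ⊗ 𝒮.S i) (x : 𝟙_ C ⟶ X) :
    P.vac 𝒮 X Y (𝒮.sg i F) x = P.act (𝒮.S i) F x := by
  rw [vac_apply, Finset.sum_eq_single i]
  · simp
  · intro b _ hb
    rw [𝒮.sg_ne hb, ← actL_apply, map_zero, LinearMap.zero_apply]
  · simp

lemma vac_π {X Y M : C} (F : M ⊗ X ⟶ Y ⊗ M) (x : 𝟙_ C ⟶ X) :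
    P.vac 𝒮 X Y (𝒮.π M F) x = P.act M F x := by
  rw [SSData.π_apply, map_sum, LinearMap.sum_apply]
  have h : ∀ k, P.vac 𝒮 X Y (𝒮.sg (𝒮.c M k) (𝒮.inc M k ▷ X ≫ F ≫ Y ◁ 𝒮.proj M k)) x =
      P.ptr M ((𝒮.proj M k ≫ 𝒮.inc M k) ≫ (ρ_ M).inv ≫ M ◁ x ≫ F) := by
    intro k
    rw [vac_sg, act]
    have h1 : (ρ_ _).inv ≫ (𝒮.S (𝒮.c M k)) ◁ x ≫ 𝒮.inc M k ▷ X ≫ F ≫ Y ◁ 𝒮.proj M k =
        (𝒮.inc M k ≫ (ρ_ M).inv ≫ M ◁ x ≫ F) ≫ Y ◁ 𝒮.proj M k := by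
      simp only [Category.assoc]
      rw [whisker_exchange_assoc, rightUnitor_inv_naturality_assoc]
    rw [h1, ptr_dinat, Category.assoc]
  simp only [h]
  have h2 : ∀ k, P.ptr M ((𝒮.proj M k ≫ 𝒮.inc M k) ≫ (ρ_ M).inv ≫ M ◁ x ≫ F) =
      P.actL X Y M ((𝒮.proj M k ≫ 𝒮.inc M k) ▷ X ≫ F) x := by
    intro k
    rw [actL_apply, act]
    congr 1
    rw [whisker_exchange_assoc, rightUnitor_inv_naturality_assoc]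
  simp only [h2, ← LinearMap.sum_apply, ← map_sum, ← Preadditive.sum_comp, ← sum_whiskerRight,
    𝒮.total]
  simp

lemma vac_comp {X Y Z : C} (f : 𝒮.T X Y) (g : 𝒮.T Y Z) (x : 𝟙_ C ⟶ X) :
    P.vac 𝒮 X Z (𝒮.comp f g) x = P.vac 𝒮 Y Z g (P.vac 𝒮 X Y f x) := by
  refine 𝒮.T_induction f ?_ ?_ ?_
  · intro f f' hf hg
    rw [SSData.comp_add_left, map_add, map_add, LinearMap.add_apply, LinearMap.add_apply,
      map_add, hf, hg]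
  · simp [SSData.comp]
  intro W F
  refine 𝒮.T_induction g ?_ ?_ ?_
  · intro g g' hf hg
    rw [SSData.comp_add_right, map_add, map_add, LinearMap.add_apply, LinearMap.add_apply,
      hf, hg]
  · simp [SSData.comp]
  intro V G
  rw [SSData.comp_ππ, vac_π, vac_π, vac_π, act_tc]

lemma vac_K (Y : C) : P.vac 𝒮 _ _ (𝒮.K Y) (𝟙 (𝟙_ C)) = P.dim Y := by
  rw [SSData.K, vac_π, act, ptr, dim_eq]
  monoidal

lemma vac_J {X Y : C} (f : X ⟶ Y) (x : 𝟙_ C ⟶ X) : P.vac 𝒮 _ _ (𝒮.J X Y f) x =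
    P.dim (𝟙_ C) ≫ x ≫ f := by
  rw [SSData.J_apply, vac_π, act, ptr, dim_eq]
  calc
    _ = co (𝟙_ C) ≫ (λ_ _).inv ≫ ((x ≫ f) ▷ (𝟙_ C ⊗ D (𝟙_ C)) ≫ Y ◁ P.ev' (𝟙_ C)) ≫
          (ρ_ _).hom := by
      monoidal
    _ = _ := by
      rw [← whisker_exchange]; monoidal

lemma K_unit : 𝒮.K (𝟙_ C) = 𝒮.J _ _ (𝟙 (𝟙_ C)) := by
  rw [SSData.K, SSData.J_apply]
  congr 1
  monoidal

lemma id_zero_of_co (X : C) (h : co X = 0) : 𝟙 X = 0 := by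
  have h7 := zag X
  rw [h] at h7
  have h9 : 𝟙 X = (λ_ X).inv ≫ (⊗𝟙.hom : 𝟙_ C ⊗ X ⟶ X ⊗ 𝟙_ C) ≫ (ρ_ _).hom := by
    monoidal
  rw [h9, ← h7]
  simp [monoidalComp]

lemma ev'_ne_zero (h1 : (𝟙 (𝟙_ C) : 𝟙_ C ⟶ 𝟙_ C) ≠ 0) : P.dim (𝟙_ C) ≠ 0 := by
  intro h
  have h2 := P.ev_dim_unit (𝟙_ C)
  rw [h, comp_zero] at h2
  have h3 : P.ev' (D (𝟙_ C)) = 0 := by
    have : (D (𝟙_ C) ◁ (P.δ (𝟙_ C)).inv) ≫ D (𝟙_ C) ◁ (P.δ (𝟙_ C)).hom ≫ P.ev' (D (𝟙_ C)) = 0 := by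
      rw [← h2, comp_zero]
    rwa [← whiskerLeft_comp_assoc, Iso.inv_hom_id, whiskerLeft_id, Category.id_comp] at this
  have h4 := P.zig' (D (𝟙_ C))
  rw [h3] at h4
  have h5 : (𝟙 (D (𝟙_ C)) : D (𝟙_ C) ⟶ D (𝟙_ C)) = 0 := by
    have h6 : (𝟙 (D (𝟙_ C)) : D (𝟙_ C) ⟶ D (𝟙_ C)) =
      (ρ_ (D (𝟙_ C))).inv ≫ (⊗𝟙.hom : D (𝟙_ C) ⊗ 𝟙_ C ⟶ 𝟙_ C ⊗ D (𝟙_ C)) ≫ (λ_ _).hom := by
      monoidal
    rw [h6, ← h4]
    simp [monoidalComp]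
  apply h1
  have h8 : co (𝟙_ C) = 0 := by
    calc co (𝟙_ C) = co (𝟙_ C) ≫ (𝟙_ C) ◁ (𝟙 (D (𝟙_ C))) := by simp
      _ = 0 := by rw [h5]; simp
  exact id_zero_of_co _ h8

include 𝒮 in
/-- in a category with scalar unit endomorphisms the unit has dimension one -/
lemma dim_unit (h1 : (𝟙 (𝟙_ C) : 𝟙_ C ⟶ 𝟙_ C) ≠ 0)
    (hs : ∀ f : 𝟙_ C ⟶ 𝟙_ C, ∃ z : ℂ, f = z • 𝟙 _) : P.dim (𝟙_ C) = 𝟙 _ := by
  obtain ⟨z, hz⟩ := hs (P.dim (𝟙_ C))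
  have h2 := P.vac_comp 𝒮 (𝒮.K (𝟙_ C)) (𝒮.K (𝟙_ C)) (𝟙 _)
  rw [vac_K, K_unit, SSData.J_comp, Category.comp_id, vac_J, vac_J, hz] at h2
  have h3 : z • 𝟙 (𝟙_ C) = (z * z) • 𝟙 (𝟙_ C) := by
    simpa [mul_smul] using h2
  have h4 : z = z * z := by
    have : (z - z * z) • 𝟙 (𝟙_ C) = 0 := by rw [sub_smul, h3, sub_self]
    rcases smul_eq_zero.1 this with h5 | h5
    · exact sub_eq_zero.1 h5
    · exact absurd h5 h1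
  have h5 : z ≠ 0 := by
    rintro rfl
    exact P.ev'_ne_zero h1 (by rw [hz, zero_smul])
  have h6 : z = 1 := by
    field_simp at h4
    exact h4.symm
  rw [hz, h6, one_smul]

end PivotalStructure

end Pool.Agent.Lib.MP_d1a06a_al
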